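import Mathlib

/-! The family of all quartic twists and its root numbers. -/

set_option autoImplicit false

open scoped Classical

namespace Pool.Agent.Lib.MP_696deb_nt.QA

/-- Integers that are free of fourth powers. -/
def Fam (D : ℤ) : Prop := ∀ p : ℕ, p.Prime → ¬ (p : ℤ) ^ 4 ∣ D

/-- The local root number at two is minus one. -/
def W2 (D : ℤ) : Prop := D % 16 = 1 ∨ D % 16 = 3 ∨ D % 16 = 8 ∨ D % 16 = 11 ∨ D % 16 = 13 ∨
  D % 64 = 4 ∨ D % 64 = 28 ∨ D % 64 = 36 ∨ D % 64 = 44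

/-- The number of odd primes with local root number minus one. -/
noncomputable def n2 (D : ℤ) : ℕ :=
  Set.ncard {p : ℕ | p.Prime ∧ p % 4 = 3 ∧ (p : ℤ) ^ 2 ∣ D ∧ ¬ (p : ℤ) ^ 3 ∣ D}

/-- The root number is one. -/
def Wq (D : ℤ) : Prop := 0 < D ↔ (W2 D ↔ Even (n2 D))

theorem Fam.ne {D : ℤ} (h : Fam D) : D ≠ 0 := fun e => h 2 Nat.prime_two (e ▸ dvd_zero _)

theorem val_two {D : ℤ} (hD : D ≠ 0) {p : ℕ} (hp : p.Prime) :
    padicValInt p D = 2 ↔ (p : ℤ) ^ 2 ∣ D ∧ ¬ (p : ℤ) ^ 3 ∣ D := by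
  have := Fact.mk hp
  rw [padicValInt_dvd_iff, padicValInt_dvd_iff, or_iff_right hD, or_iff_right hD]
  omega

theorem Fam.val {D : ℤ} (h : Fam D) {p : ℕ} (hp : p.Prime) (hd : (p : ℤ) ∣ D) :
    1 ≤ padicValInt p D ∧ padicValInt p D ≤ 3 := by
  have := Fact.mk hp
  have h1 := h p hp
  rw [padicValInt_dvd_iff, or_iff_right h.ne] at h1
  exact ⟨((padicValInt_dvd_iff 1 D).1 (by rwa [pow_one])).resolve_left h.ne, by omega⟩

theorem n2_eq {D : ℤ} (hD : D ≠ 0) : n2 D =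
    (D.natAbs.primeFactors.filter fun p => p % 4 = 3 ∧ padicValInt p D = 2).card := by
  rw [n2, ← Set.ncard_coe_finset]
  congr 1
  ext p
  simp only [Set.mem_ofPred_eq, Finset.coe_filter, Nat.mem_primeFactors, ne_eq, Int.natAbs_eq_zero,
    hD, not_false_eq_true, and_true, ← Int.natCast_dvd]
  refine ⟨fun ⟨a, b, c⟩ => ⟨⟨a, (dvd_pow_self _ two_ne_zero).trans c.1⟩, b, (val_two hD a).2 c⟩,
    fun ⟨a, b, c⟩ => ⟨a.1, b, (val_two hD a.1).1 c⟩⟩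

/-- Passage to the isogenous curve. -/
theorem quarter {E : ℤ} (h : Fam (-4 * E)) :
    Fam E ∧ ¬ 4 ∣ E ∧ (Wq (-4 * E) ↔ Wq E) ∧ (W2 (-4 * E) ↔ ¬ W2 E) := by
  have h4 : ¬ 4 ∣ E := fun k => h 2 Nat.prime_two (by
    obtain ⟨c, rfl⟩ := k
    exact ⟨-c, by push_cast; ring⟩)
  have h0 : E ≠ 0 := right_ne_zero_of_mul h.ne
  have h2 : W2 (-4 * E) ↔ ¬ W2 E := by
    unfold W2
    omega
  have h3 : n2 (-4 * E) = n2 E := by
    unfold n2
    congr 1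
    ext p
    refine and_congr_right fun hp => and_congr_right fun p3 => ?_
    have k : ∀ j : ℕ, (p : ℤ) ^ j ∣ -4 * E ↔ (p : ℤ) ^ j ∣ E := fun j => by
      refine ⟨fun a => IsCoprime.dvd_of_dvd_mul_left ?_ a, fun a => a.mul_left _⟩
      refine IsCoprime.pow_left (IsCoprime.neg_right ?_)
      rw [show (4 : ℤ) = ((2 ^ 2 : ℕ) : ℤ) by norm_num, Nat.isCoprime_iff_coprime]
      exact Nat.Coprime.pow_right _ ((Nat.coprime_primes hp Nat.prime_two).2 (by omega))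
    rw [k, k]
  refine ⟨fun p hp k => h p hp (k.mul_left _), h4, ?_, h2⟩
  rw [Wq, Wq, h2, h3]
  rw [show 0 < -4 * E ↔ ¬ 0 < E by omega]
  by_cases a : 0 < E <;> by_cases b : W2 E <;> simp [a, b]

end Pool.Agent.Lib.MP_696deb_nt.QA
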