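import Pool.Agent.Lib.MP_696deb_nt.QA.Link
import Pool.Agent.Lib.MP_696deb_nt.B2.GF

/-! Almost all quartic twists have corank at most one. -/

set_option autoImplicit false

open scoped Classical
open Finset

namespace Pool.Agent.Lib.MP_696deb_nt.QA

open Q4

/-- Few twists by `e d` with squarefree `d` have many liftable classes. -/
def FewE (e : ℕ) : Prop := ∀ ε : ℝ, 0 < ε → ∃ m X0 : ℕ, ∀ X ≥ X0,
  (((Icc (-(X : ℤ)) X).filter fun d => Squarefree d ∧ (∀ p : ℕ, p.Prime → p ∣ e → (p : ℤ) ∣ d) ∧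
    (tD (e * d)).Big (2 * m)).card : ℝ) ≤ ε * X

/-- An integer is its radical times a bounded factor unless a large square divides it. -/
theorem exists_rad {D : ℤ} (hD : Fam D) {K : ℕ} (hK : ¬ ∃ k, K < k ∧ k * k ∣ D.natAbs) :
    ∃ (e : ℕ) (d : ℤ), D = e * d ∧ Squarefree d ∧ (∀ p : ℕ, p.Prime → p ∣ e → (p : ℤ) ∣ d) ∧
      e ∣ K.factorial ^ 2 := by
  have n0 : D.natAbs ≠ 0 := Int.natAbs_ne_zero.2 hD.ne
  obtain ⟨e, he⟩ := UniqueFactorizationMonoid.radical_dvd_self (a := D.natAbs)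
  have sf := UniqueFactorizationMonoid.squarefree_radical (a := D.natAbs)
  have hr (p : ℕ) (hp : p.Prime) (h : p ∣ e) : p ∣ UniqueFactorizationMonoid.radical D.natAbs :=
    (UniqueFactorizationMonoid.dvd_radical_iff_of_irreducible hp n0).2 (h.trans (Dvd.intro_left _ he.symm))
  generalize UniqueFactorizationMonoid.radical D.natAbs = r at he sf hr
  have e0 : e ≠ 0 := fun h => n0 (by rw [he, h, mul_zero])
  refine ⟨e, D.sign * r, ?_, ?_, fun p hp h => (Int.natCast_dvd_natCast.2 (hr p hp h)).mul_left _,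
    (Nat.factorization_prime_le_iff_dvd e0 (pow_ne_zero _ K.factorial_ne_zero)).1 fun p hp => ?_⟩
  · conv_lhs => rw [← Int.sign_mul_natAbs D, he]
    push_cast
    ring
  · rw [← Int.squarefree_natAbs, Int.natAbs_mul, Int.natAbs_sign_of_ne_zero hD.ne, one_mul,
      Int.natAbs_natCast]
    exact sf
  · by_cases h : p ∣ e
    · have h1 : p ≤ K := not_lt.1 fun k => hK ⟨p, k, he ▸ mul_dvd_mul (hr p hp h) h⟩
      have h2 := hp.factorization_pos_of_dvd K.factorial_ne_zero (hp.dvd_factorial.2 h1)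
      have h3 : ¬ 3 ≤ e.factorization p := fun k => hD p hp (by
        rw [← Nat.cast_pow, Int.natCast_dvd, he, pow_succ']
        exact mul_dvd_mul (hr p hp h) ((hp.pow_dvd_iff_le_factorization e0).2 k))
      rw [Nat.factorization_pow, Finsupp.smul_apply, smul_eq_mul]
      omega
    · rw [Nat.factorization_eq_zero_of_not_dvd h]
      exact Nat.zero_le _

/-- A large radical has an odd prime that does not divide the other factor. -/
theorem exists_one {e : ℕ} {d : ℤ} (he : e ≠ 0) (hd : Squarefree d) (h : 2 * e < d.natAbs) :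
    ∃ q : ℕ, q.Prime ∧ q ≠ 2 ∧ padicValInt q (e * d) = 1 := by
  by_contra! k
  have sf := Int.squarefree_natAbs.2 hd
  have e2 : 2 * e ≠ 0 := by omega
  refine (Nat.le_of_dvd (by omega) ((Nat.factorization_prime_le_iff_dvd sf.ne_zero e2).1
    fun p hp => ?_)).not_gt h
  have h1 := sf.natFactorization_le_one p
  by_cases h2 : p ∣ 2 * e
  · exact h1.trans (hp.factorization_pos_of_dvd e2 h2)
  · have h3 := k p hp fun e => h2 (e ▸ dvd_mul_right _ _)
    rw [padicValInt, Int.natAbs_mul, Int.natAbs_natCast, ← Nat.factorization_def _ hp,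
      Nat.factorization_mul he sf.ne_zero, Finsupp.add_apply,
      Nat.factorization_eq_zero_of_not_dvd fun k => h2 (k.mul_left 2)] at h3
    omega

theorem core_sq {K : ℕ} (hK : K ≠ 0) (X : ℕ) :
    (((Icc (-(X : ℤ)) X).filter fun D => D ≠ 0 ∧ ∃ k, K < k ∧ k * k ∣ D.natAbs).card : ℝ) ≤
      2 * (X / K) := by
  have h1 := B2.gf_bad hK X
  set N := (range (X + 1)).filter fun N => N ≠ 0 ∧ ∃ k, K < k ∧ k * k ∣ N with hN
  have h2 : ((Icc (-(X : ℤ)) X).filter fun D => D ≠ 0 ∧ ∃ k, K < k ∧ k * k ∣ D.natAbs) ⊆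
      N.image (fun n : ℕ => (n : ℤ)) ∪ N.image fun n : ℕ => -(n : ℤ) := fun D hD => by
    simp only [mem_filter, mem_Icc] at hD
    have : D.natAbs ∈ N := mem_filter.2 ⟨mem_range.2 (by omega), by omega, hD.2.2⟩
    rcases Int.natAbs_eq D with e | e
    · exact mem_union_left _ (mem_image.2 ⟨_, this, e.symm⟩)
    · exact mem_union_right _ (mem_image.2 ⟨_, this, e.symm⟩)
  have h3 := Nat.cast_le (α := ℝ).2 ((card_le_card h2).trans ((card_union_le _ _).trans
    (add_le_add card_image_le card_image_le)))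
  push_cast at h3
  linarith

theorem core_of (hf : ∀ e, e ≠ 0 → FewE e) {ε : ℝ} (h : 0 < ε) : ∃ X0 : ℕ, ∀ X ≥ X0,
    (((Icc (-(X : ℤ)) X).filter fun D => Fam D ∧ ¬ B2.Stmt.CorankLE (ED D) 1).card : ℝ) ≤
      ε * X := by
  obtain ⟨K, hK⟩ := exists_nat_gt (8 / ε)
  have Kp : (0 : ℝ) < K := (by positivity : (0 : ℝ) < 8 / ε).trans hK
  have K0 : K ≠ 0 := fun e => by simp [e] at Kp
  obtain ⟨L, hL⟩ : ∃ L, L = K.factorial ^ 2 := ⟨_, rfl⟩
  have L0 : L ≠ 0 := hL ▸ pow_ne_zero _ K.factorial_ne_zero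
  have Lp : (0 : ℝ) < L := Nat.cast_pos.2 (Nat.pos_of_ne_zero L0)
  choose! m X0 h1 using fun e he => hf e he (ε / (4 * L)) (by positivity)
  obtain ⟨X1, h2⟩ := exists_nat_ge (2 * (L * (4 * L + 1)) / ε)
  refine ⟨max (L.divisors.sup X0) X1, fun X hX => ?_⟩
  have k2 : 2 * (L * (4 * L + 1) : ℝ) ≤ ε * X := by
    rw [div_le_iff₀' h] at h2
    exact h2.trans (mul_le_mul_of_nonneg_left (Nat.cast_le.2 (le_of_max_le_right hX)) h.le)
  let A : ℕ → Finset ℤ := fun e => (Icc (-(X : ℤ)) X).filter fun d => Squarefree d ∧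
    (∀ p : ℕ, p.Prime → p ∣ e → (p : ℤ) ∣ d) ∧ (tD (e * d)).Big (2 * m e)
  have k3 : ((Icc (-(X : ℤ)) X).filter fun D => Fam D ∧ ¬ B2.Stmt.CorankLE (ED D) 1) ⊆
      ((Icc (-(X : ℤ)) X).filter fun D => D ≠ 0 ∧ ∃ k, K < k ∧ k * k ∣ D.natAbs) ∪
        L.divisors.biUnion fun e => (A e ∪ Icc (-(2 * L : ℤ)) (2 * L)).image ((e : ℤ) * ·) :=
    fun D hD => by
      obtain ⟨a, b, c⟩ := mem_filter.1 hD
      by_cases k : ∃ k, K < k ∧ k * k ∣ D.natAbs
      · exact mem_union_left _ (mem_filter.2 ⟨a, b.ne, k⟩)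
      obtain ⟨e, d, rfl, s1, s2, s3⟩ := exists_rad b k
      rw [← hL] at s3
      have e0 : e ≠ 0 := ne_zero_of_dvd_ne_zero L0 s3
      have e1 := Nat.le_of_dvd (Nat.pos_of_ne_zero L0) s3
      refine mem_union_right _ (mem_biUnion.2 ⟨e, Nat.mem_divisors.2 ⟨s3, L0⟩,
        mem_image.2 ⟨d, ?_, rfl⟩⟩)
      by_cases k' : 2 * e < d.natAbs
      · obtain ⟨q, q1, q2, q3⟩ := exists_one e0 s1 k'
        have l : d.natAbs ≤ ((e : ℤ) * d).natAbs := by
          rw [Int.natAbs_mul, Int.natAbs_natCast]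
          exact Nat.le_mul_of_pos_left _ (Nat.pos_of_ne_zero e0)
        rw [mem_Icc] at a
        exact mem_union_left _ (mem_filter.2 ⟨mem_Icc.2 (by omega), s1, s2,
          by_contra fun k'' => c (corank_of3 b q1 q2 q3 k'')⟩)
      · exact mem_union_right _ (mem_Icc.2 (by omega))
  have k4 := Nat.cast_le (α := ℝ).2 ((card_le_card k3).trans ((card_union_le _ _).trans
    (add_le_add le_rfl card_biUnion_le)))
  have k5 : ∀ e ∈ L.divisors, (((A e ∪ Icc (-(2 * L : ℤ)) (2 * L)).image ((e : ℤ) * ·)).card : ℝ) ≤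
      ε / (4 * L) * X + (4 * L + 1) := fun e he => by
    have l1 := h1 e (Nat.pos_of_mem_divisors he).ne' X
      ((le_sup (f := X0) he).trans (le_of_max_le_left hX))
    have l2 := Nat.cast_le (α := ℝ).2 ((card_image_le (f := ((e : ℤ) * ·))).trans
      (card_union_le (A e) (Icc (-(2 * L : ℤ)) (2 * L))))
    rw [show (Icc (-(2 * L : ℤ)) (2 * L)).card = 4 * L + 1 by rw [Int.card_Icc]; omega] at l2
    push_cast at l2
    exact l2.trans (add_le_add l1 le_rfl)
  have k6 := sum_le_card_nsmul _ _ _ k5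
  have k7 : (L.divisors.card : ℝ) ≤ L := Nat.cast_le.2 (Nat.card_divisors_le_self L)
  have k8 := core_sq K0 X
  have k9 : 2 * ((X : ℝ) / K) ≤ ε / 4 * X := by
    rw [div_lt_iff₀ h] at hK
    rw [← mul_div_assoc, div_le_iff₀ Kp]
    nlinarith [Nat.cast_nonneg (α := ℝ) X]
  have k10 : (L : ℝ) * (ε / (4 * L) * X + (4 * L + 1)) = ε / 4 * X + L * (4 * L + 1) := by
    field_simp
  rw [nsmul_eq_mul] at k6
  have k11 := mul_le_mul_of_nonneg_right k7
    (by positivity : (0 : ℝ) ≤ ε / (4 * L) * X + (4 * L + 1))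
  push_cast at k4
  linarith

end Pool.Agent.Lib.MP_696deb_nt.QA
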