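import Pool.Agent.Lib.MP_696deb_nt.QA.F8a

/-! The Hecke character of the curve. -/

set_option autoImplicit false

open scoped Classical Real
open Complex Finset

namespace Pool.Agent.Lib.MP_696deb_nt.QF

theorem exists_fac4 {D : ℤ} (hD : D ≠ 0) (h4 : ¬ 4 ∣ D) : ∃ κ : ZMod 4,
    D = ck κ * ∏ q ∈ D.natAbs.primeFactors.erase 2, qs q ^ padicValInt q D := by
  have h1 : ∏ q ∈ D.natAbs.primeFactors, q ^ padicValInt q D = D.natAbs := by
    conv_rhs => rw [← Nat.prod_factorization_pow_eq_self (Int.natAbs_ne_zero.2 hD)]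
    exact prod_congr rfl fun q hq => by
      rw [Nat.factorization_def _ (Nat.prime_of_mem_primeFactors hq)]; rfl
  have h2 : ∀ Q : Finset ℕ, (∏ q ∈ Q, qs q ^ padicValInt q D).natAbs =
      ∏ q ∈ Q, q ^ padicValInt q D := fun Q =>
    (map_prod Int.natAbsHom _ _).trans (prod_congr rfl fun q _ =>
      (Int.natAbs_pow _ _).trans (by rw [f8_abs]))
  by_cases h : 2 ∈ D.natAbs.primeFactors
  · have h3 : padicValInt 2 D = 1 := by
      have k1 := (padicValInt_dvd_iff (p := 2) 1 D).1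
        (Int.natCast_dvd.2 (Nat.dvd_of_mem_primeFactors h))
      have k2 := mt (padicValInt_dvd_iff (p := 2) 2 D).2 h4
      omega
    rw [← mul_prod_erase _ _ h, ← h2, h3, pow_one, show 2 = (2 : ℤ).natAbs from rfl,
      ← Int.natAbs_mul] at h1
    rcases Int.natAbs_eq_natAbs_iff.1 h1.symm with e | e
    · exact ⟨1, e⟩
    · exact ⟨3, e.trans (neg_mul _ _).symm⟩
  · rw [← erase_eq_of_notMem h, ← h2] at h1
    rcases Int.natAbs_eq_natAbs_iff.1 h1.symm with e | e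
    · exact ⟨0, e.trans (one_mul _).symm⟩
    · exact ⟨2, e.trans (neg_one_mul _).symm⟩

theorem f8_mod4 (Q : Finset ℕ) (hQ : ∀ q ∈ Q, q.Prime ∧ q ≠ 2) (v : ℕ → ℕ) :
    ∃ t : ℤ, ∏ q ∈ Q, qs q ^ v q = 4 * t + 1 ∧ (t : ZMod 4) = ∑ q ∈ Q, (v q : ZMod 4) * f8k q := by
  have k : ∀ (s : ℤ) (j : ℕ), ∃ t : ℤ, (4 * s + 1) ^ j = 4 * t + 1 ∧ (t : ZMod 4) = j * s := by
    intro s j
    induction j with
    | zero => exact ⟨0, by simp, by simp⟩
    | succ j ih =>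
      obtain ⟨t, h1, h2⟩ := ih
      refine ⟨4 * (t * s) + t + s, by rw [pow_succ, h1]; ring, ?_⟩
      rw [Int.cast_add, Int.cast_add, Int.cast_mul, show ((4 : ℤ) : ZMod 4) = 0 from rfl, h2]
      push_cast
      ring
  induction Q using Finset.induction_on with
  | empty => exact ⟨0, by simp, by simp⟩
  | insert a s ha ih =>
    obtain ⟨t, h1, h2⟩ := ih fun q hq => hQ q (mem_insert_of_mem hq)
    obtain ⟨a1, a2⟩ := hQ a (mem_insert_self a s)
    have a3 := a1.eq_two_or_odd.resolve_left a2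
    have a4 : qs a = 4 * ((qs a - 1) / 4) + 1 := by
      unfold qs
      split_ifs <;> omega
    obtain ⟨u, u1, u2⟩ := k ((qs a - 1) / 4) (v a)
    rw [← a4] at u1
    refine ⟨4 * (u * t) + u + t, ?_, ?_⟩
    · rw [prod_insert ha, h1, u1]
      ring
    · rw [sum_insert ha, ← h2, f8k, ← u2, Int.cast_add, Int.cast_add, Int.cast_mul,
        show ((4 : ℤ) : ZMod 4) = 0 from rfl, zero_mul, zero_add]

theorem f8_sign4 (κ : ZMod 4) (t σ : ℤ) (h : σ = 1 ∧ 0 < 4 * t + 1 ∨ σ = -1 ∧ 4 * t + 1 < 0)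
    {D : ℤ} (hD : D = ck κ * (4 * t + 1)) :
    ip (e0 κ t) * (σ * ip (-((if κ = 0 then 3 else 2) * t))) =
      if (0 < D ↔ QA.W2 D) then 1 else -1 := by
  have h4 : ((t % 4 : ℤ) : ZMod 4) = t := ZMod.intCast_mod t 4
  have hk : ∀ κ : ZMod 4, κ = 0 ∧ ck κ = 1 ∨ κ = 1 ∧ ck κ = 2 ∨ κ = 2 ∧ ck κ = -1 ∨
    κ = 3 ∧ ck κ = -2 := by decide
  rw [← h4]
  unfold QA.W2
  split_ifs with h0 hW hW <;>
  rcases hk κ with ⟨rfl, e⟩ | ⟨rfl, e⟩ | ⟨rfl, e⟩ | ⟨rfl, e⟩ <;> rw [e] at hD <;>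
    rcases (by omega : t % 4 = 0 ∨ t % 4 = 1 ∨ t % 4 = 2 ∨ t % 4 = 3) with r | r | r | r <;>
    rcases h with ⟨rfl, h⟩ | ⟨rfl, h⟩ <;> rw [r] <;>
    first | decide | (exfalso; omega) | exact absurd h0 (by decide)

theorem f8_ipow (a : ZMod 4) (j : ℕ) : star (ip a) ^ j = star (ip (j * a)) := by
  induction j with
  | zero => rw [pow_zero, Nat.cast_zero, zero_mul, ip_zero, star_one]
  | succ j ih => rw [pow_succ, ih, Nat.cast_succ, add_mul, one_mul, ip_add, star_mul']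

theorem exists_phi4 {D : ℤ} (hD : QA.Fam D) (h4 : ¬ 4 ∣ D) :
    ∃ (φ : G → G) (M : ℕ) (ν : G) (w : ℂ),
    Gch (2 * D) φ ∧ 0 < M ∧ Per M φ ∧ ν ≠ 0 ∧ w ≠ 0 ∧ SD M (fun α => (φ α : ℂ)) ν w ∧
    (¬ QA.Wq D → w = -1) ∧
    ∀ (p : ℕ) [Fact p.Prime] (z : G) (ρ : G →+* ZMod p) (χ : MulChar (ZMod p) G), Qc p z ρ χ →
      ¬ (p : ℤ) ∣ D → φ z = star (χ D) := by
  obtain ⟨κ, hF⟩ := exists_fac4 hD.ne h4
  have hn := QA.n2_eq hD.ne
  have hQ0 : ∀ q ∈ D.natAbs.primeFactors.erase 2, q.Prime ∧ q ≠ 2 := fun q hq =>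
    ⟨Nat.prime_of_mem_primeFactors (mem_of_mem_erase hq), ne_of_mem_erase hq⟩
  have hdvd : ∀ q ∈ D.natAbs.primeFactors.erase 2, (q : ℤ) ∣ D := fun q h =>
    Int.natCast_dvd.2 (Nat.dvd_of_mem_primeFactors (mem_of_mem_erase h))
  have hmem : ∀ p : ℕ, p.Prime → p ≠ 2 → (p : ℤ) ∣ D → p ∈ D.natAbs.primeFactors.erase 2 :=
    fun p hp h2 h => mem_erase.2 ⟨h2, Nat.mem_primeFactors.2
      ⟨hp, Int.natCast_dvd.1 h, Int.natAbs_ne_zero.2 hD.ne⟩⟩
  have hn' : QA.n2 D = ((D.natAbs.primeFactors.erase 2).filter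
      fun p => p % 4 = 3 ∧ padicValInt p D = 2).card := by
    rw [hn]
    congr 1
    ext p
    simp only [mem_filter, mem_erase]
    exact ⟨fun h => ⟨⟨by omega, h.1⟩, h.2⟩, fun h => ⟨h.1.2, h.2⟩⟩
  generalize D.natAbs.primeFactors.erase 2 = Q at hF hQ0 hdvd hmem hn'
  have hv := fun q h => hD.val (hQ0 q h).1 (hdvd q h)
  generalize hvv : (fun q => padicValInt q D) = v
  simp only [show ∀ q, padicValInt q D = v q from congrFun hvv] at hF hv hn'
  have hX : ∀ q : ℕ, ∃ X, q ∈ Q → IsX q X := fun q => by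
    by_cases h : q ∈ Q
    · exact (exists_X (hQ0 q h).1 (hQ0 q h).2).imp fun _ k _ => k
    · exact ⟨id, fun k => absurd k h⟩
  choose X hX using hX
  have hQ : ∀ q ∈ Q, q.Prime ∧ q ≠ 2 ∧ IsX q (X q) := fun q h => ⟨(hQ0 q h).1, (hQ0 q h).2, hX q h⟩
  obtain ⟨t, t1, t2⟩ := f8_mod4 Q hQ0 v
  have hσ : ∏ q ∈ Q, f8s q ^ v q = 1 ∨ ∏ q ∈ Q, f8s q ^ v q = -1 :=
    prod_induction _ (fun x => x = 1 ∨ x = -1)
      (by rintro a b (rfl | rfl) (rfl | rfl) <;> simp) (Or.inl rfl) fun q _ => by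
        unfold f8s
        split_ifs
        · simp
        · exact neg_one_pow_eq_or ℤ _
  have hP : (0 : ℤ) < ∏ q ∈ Q, (q : ℤ) ^ v q :=
    prod_pos fun q h => pow_pos (by exact_mod_cast (hQ0 q h).1.pos) _
  have hPσ : 4 * t + 1 = (∏ q ∈ Q, f8s q ^ v q) * ∏ q ∈ Q, (q : ℤ) ^ v q := by
    rw [← t1, ← prod_mul_distrib]
    exact prod_congr rfl fun q _ => by rw [f8_qs, mul_pow]
  have hs : ∏ q ∈ Q, f8s q = (-1) ^ QA.n2 D * ∏ q ∈ Q, f8s q ^ v q := by
    rw [hn', ← prod_const, prod_filter, ← prod_mul_distrib]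
    refine prod_congr rfl fun q h => ?_
    have k1 := hv q h
    have k2 := (hQ0 q h).1.eq_two_or_odd.resolve_left (hQ0 q h).2
    unfold f8s
    rcases (by omega : v q = 1 ∨ v q = 2 ∨ v q = 3) with e | e | e <;> rw [e] <;>
      rcases (by omega : q % 4 = 1 ∨ q % 4 = 3) with r | r <;> simp [r]
  have hpow : ∀ c : ZMod 4, ∏ q ∈ Q, star (ip (c * f8k q)) ^ v q = ip (-(c * t)) := fun c => by
    rw [prod_congr rfl fun q _ => f8_ipow _ _, f8_ip, t2, mul_sum]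
    congr 2
    exact sum_congr rfl fun q _ => by ring
  have hW : (ip (e0 κ t) * ∏ q ∈ Q, f8s q * star (X q (ii * nu κ)) ^ v q : G) =
      (-1) ^ QA.n2 D * if (0 < D ↔ QA.W2 D) then 1 else -1 := by
    rw [prod_congr rfl fun q h => by rw [(hX q h).at_nu (hQ0 q h).1 (hQ0 q h).2],
      prod_mul_distrib, hpow, ← Int.cast_prod, hs,
      ← f8_sign4 κ t (∏ q ∈ Q, f8s q ^ v q) ?_ (t1 ▸ hF)]
    · push_cast
      ring
    · rcases hσ with e | e <;> rw [e] at hPσ ⊢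
      · exact Or.inl ⟨rfl, by linarith⟩
      · exact Or.inr ⟨rfl, by linarith⟩
  refine ⟨fphi κ t X Q v, _, nu κ, _, ⟨?_, fphi_mul κ t hQ, ?_, fun α => ?_,
    fun p hp h α e => ?_, dvd_mul_right _ _, fun p hp h => ?_, fun α => ?_⟩,
    Nat.mul_pos (by norm_num) (prod_pos fun q hq => (hQ0 q hq).1.pos), fphi_per κ t hQ,
    (by decide : ∀ κ, nu κ ≠ 0) κ, ?_,
    fphi_sd κ t hQ fun q h => by have := hv q h; omega, fun h => ?_, fun p _ z ρ χ h hp => ?_⟩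
  · have := ph2_nat κ t (n := 1) odd_one
    rw [Nat.cast_one, if_pos rfl] at this
    rw [fphi, this, one_mul]
    exact prod_eq_one fun q h => by rw [(hX q h).one (hQ0 q h).1, star_one, one_pow]
  · rw [fphi, ph2_ii, prod_congr rfl fun q h => by
      rw [(hX q h).at_ii (hQ0 q h).1 (hQ0 q h).2], hpow]
    exact (by decide : ∀ K : ZMod 4, ip (2 * K - 1) * ip (-(2 * K)) * ii = 1) _
  · rw [fphi, fphi, star_mul', star_prod, ph2_conj,
      prod_congr rfl fun q h => by rw [(hX q h).conj, ← star_pow]]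
  · by_cases h2 : p = 2
    · subst h2
      rw [fphi, ph2_zero κ t e, zero_mul]
    · have hq := hmem p hp h2 (((Nat.prime_iff_prime_int.1 hp).dvd_or_dvd h).resolve_left
        (f8_ndvd hp Nat.prime_two h2))
      rw [fphi, prod_eq_zero hq (by
        rw [(hX p hq).zero α e, star_zero, zero_pow (by have := hv p hq; omega)]), mul_zero]
  · rw [fphi_nat κ t hQ hp (fun e => h (e ▸ dvd_mul_right _ _))
      fun e => h ((hdvd p e).mul_left 2), f8_qs, Int.cast_mul, Int.cast_natCast]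
  · have k : ∀ a b : G, a.norm ≤ 1 → b.norm ≤ 1 → (a * b).norm ≤ 1 := fun a b ha hb => by
      rw [Zsqrtd.norm_mul]
      exact mul_le_one₀ ha (GaussianInt.norm_nonneg _) hb
    refine k _ _ (ph2_bd κ t α) (prod_induction _ (fun x : G => x.norm ≤ 1) k
      Zsqrtd.norm_one.le fun q h => ?_)
    exact (map_pow Zsqrtd.normMonoidHom _ _).trans_le
      (pow_le_one₀ (GaussianInt.norm_nonneg _) ((hX q h).bd α))
  · rw [hW, Ne, GaussianInt.toComplex_eq_zero]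
    refine mul_ne_zero (pow_ne_zero _ (by decide)) ?_
    split_ifs <;> decide
  · rw [hW]
    unfold QA.Wq at h
    rcases Nat.even_or_odd (QA.n2 D) with e | e
    · rw [e.neg_one_pow, if_neg (by tauto), one_mul, map_neg, map_one]
    · have e' := Nat.not_even_iff_odd.2 e
      rw [e.neg_one_pow, if_pos (by
        by_cases a : 0 < D <;> by_cases b : QA.W2 D <;> simp [a, b, e'] at h ⊢), mul_one, map_neg, map_one]
  · rw [fphi, ph2_prim κ t h.prim, ← h.supp, hF, Int.cast_mul, Int.cast_prod, map_mul, map_prod,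
      star_mul', star_prod]
    congr 1
    exact prod_congr rfl fun q hq => by
      rw [Int.cast_pow, map_pow, star_pow,
        h.recip (hQ0 q hq).1 (hQ0 q hq).2 (fun e => hp (e ▸ hdvd q hq)) (hX q hq)]

end Pool.Agent.Lib.MP_696deb_nt.QF
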