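import Pool.Agent.Lib.MP_696deb_nt.B7.HF
import Pool.Agent.Lib.MP_696deb_nt.QA.D0

/-! Half of the twists have root number one. -/

set_option autoImplicit false

open scoped Classical
open Finset Filter Topology

namespace Pool.Agent.Lib.MP_696deb_nt.QA

/-- The sign of the root number on the family. -/
noncomputable def sw (D : ℤ) : ℝ := if Fam D then (if Wq D then 1 else -1) else 0

/-- The periodic approximation of the finite part of the sign. -/
noncomputable def sK (K : ℕ) (D : ℤ) : ℝ :=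
  if ∀ p ≤ K, p.Prime → ¬ (p : ℤ) ^ 4 ∣ D then
    (if (W2 D ↔ Even ((range (K + 1)).filter fun p : ℕ =>
      p.Prime ∧ p % 4 = 3 ∧ (p : ℤ) ^ 2 ∣ D ∧ ¬ (p : ℤ) ^ 3 ∣ D).card) then 1 else -1) else 0

theorem sK_per (K : ℕ) (D : ℤ) : sK K (D + (64 * K.factorial ^ 4 : ℕ)) = sK K D := by
  have k : ∀ p ≤ K, p.Prime → ∀ j ≤ 4,
      ((p : ℤ) ^ j ∣ D + (64 * K.factorial ^ 4 : ℕ) ↔ (p : ℤ) ^ j ∣ D) := fun p h hp j hj => by
    refine dvd_add_left ?_
    rw [← Nat.cast_pow, Int.natCast_dvd_natCast]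
    exact ((pow_dvd_pow p hj).trans
      (pow_dvd_pow_of_dvd (Nat.dvd_factorial hp.pos h) 4)).mul_left _
  have k2 : W2 (D + (64 * K.factorial ^ 4 : ℕ)) ↔ W2 D := by
    generalize K.factorial ^ 4 = c
    unfold W2
    omega
  unfold sK
  rw [k2, filter_congr (q := fun p : ℕ =>
    p.Prime ∧ p % 4 = 3 ∧ (p : ℤ) ^ 2 ∣ D ∧ ¬ (p : ℤ) ^ 3 ∣ D) fun p hp =>
      and_congr_right fun h => by
        have h1 := Nat.lt_succ_iff.1 (mem_range.1 hp)
        rw [k p h1 h 2 (by norm_num), k p h1 h 3 (by norm_num)]]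
  exact if_congr (forall_congr' fun p => forall_congr' fun h => forall_congr' fun hp => by
    rw [k p h hp 4 le_rfl]) rfl rfl

theorem sw_eq {K : ℕ} {D : ℤ} (hD : D ≠ 0) (h : ¬ ∃ k, K < k ∧ k * k ∣ D.natAbs) :
    sw D = D.sign * sK K D := by
  have k : ∀ p : ℕ, (p : ℤ) ^ 2 ∣ D → p ≤ K := fun p hp => not_lt.1 fun e =>
    h ⟨p, e, by rwa [← Int.natCast_dvd, Nat.cast_mul, ← sq]⟩
  have k1 : Fam D ↔ ∀ p ≤ K, p.Prime → ¬ (p : ℤ) ^ 4 ∣ D :=
    ⟨fun a p _ hp => a p hp, fun a p hp e =>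
      a p (k p ((pow_dvd_pow _ (by norm_num)).trans e)) hp e⟩
  have k2 : n2 D = ((range (K + 1)).filter fun p : ℕ =>
      p.Prime ∧ p % 4 = 3 ∧ (p : ℤ) ^ 2 ∣ D ∧ ¬ (p : ℤ) ^ 3 ∣ D).card := by
    rw [n2, ← Set.ncard_coe_finset]
    congr 1
    ext p
    simp only [Set.mem_ofPred_eq, coe_filter, mem_range, Nat.lt_succ_iff]
    exact ⟨fun a => ⟨k p a.2.2.1, a⟩, fun a => a.2⟩
  unfold sw sK Wq
  rw [← k2]
  by_cases a : Fam D
  · rw [if_pos a, if_pos (k1.1 a)]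
    rcases lt_or_gt_of_ne hD with e | e
    · rw [Int.sign_eq_neg_one_of_neg e]
      have e' : ¬ 0 < D := by omega
      by_cases b : W2 D ↔ Even (n2 D)
      · rw [if_pos b, if_neg fun c => e' (c.2 b)]
        norm_num
      · rw [if_neg b, if_pos (iff_of_false e' b)]
        norm_num
    · rw [Int.sign_eq_one_of_pos e]
      by_cases b : W2 D ↔ Even (n2 D)
      · rw [if_pos b, if_pos (iff_of_true e b)]
        norm_num
      · rw [if_neg b, if_neg fun c => b (c.1 e)]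
        norm_num
  · rw [if_neg a, if_neg fun c => a (k1.2 c), mul_zero]

theorem half_sK (K : ℕ) (D : ℤ) : |sK K D| ≤ 1 := by
  unfold sK
  split_ifs <;> norm_num

theorem half_sw (D : ℤ) : |sw D| ≤ 1 := by
  unfold sw
  split_ifs <;> norm_num

theorem half_zero : sw 0 = 0 := if_neg fun h => h.ne rfl

theorem half_sum (K : ℕ) :
    ∃ C : ℝ, ∀ X, |∑ N ∈ range X, (sK K (N : ℕ) - sK K (-(N : ℕ))) / 2| ≤ C := by
  have M0 : 0 < 64 * K.factorial ^ 4 := by positivity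
  have hA := sK_per K
  generalize 64 * K.factorial ^ 4 = L at hA M0
  refine ⟨L, B2.gf_per (f := fun N : ℕ => (sK K (N : ℕ) - sK K (-(N : ℕ))) / 2) M0
    (fun N => ?_) ?_ fun N => ?_⟩
  · rw [Nat.cast_add, hA, ← hA (-((N : ℤ) + L)), neg_add, neg_add_cancel_right]
  · have k1 : ∑ N ∈ range (L + 1), sK K (-(N : ℕ)) = ∑ N ∈ range (L + 1), sK K (N : ℕ) := by
      rw [← sum_range_reflect]
      refine sum_congr rfl fun N hN => ?_
      rw [mem_range] at hN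
      rw [← hA]
      congr 1
      omega
    have k2 : sK K (-(L : ℕ)) = sK K (L : ℕ) := by
      have k3 := hA 0
      rw [zero_add] at k3
      rw [← hA, neg_add_cancel, k3]
    rw [sum_range_succ, sum_range_succ, k2] at k1
    rw [← sum_div, sum_sub_distrib]
    linarith
  · have k1 := abs_le.1 (half_sK K (N : ℕ))
    have k2 := abs_le.1 (half_sK K (-(N : ℕ)))
    rw [abs_le]
    constructor <;> linarith [k1.1, k1.2, k2.1, k2.2]

theorem half_Icc (X : ℕ) :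
    ∑ D ∈ Icc (-(X : ℤ)) X, sw D = ∑ N ∈ range (X + 1), (sw (N : ℕ) + sw (-(N : ℕ))) := by
  induction X with
  | zero => simp [half_zero]
  | succ X ih =>
    have e : Icc (-((X + 1 : ℕ) : ℤ)) (X + 1 : ℕ) =
        insert ((X + 1 : ℕ) : ℤ) (insert (-((X + 1 : ℕ) : ℤ)) (Icc (-(X : ℤ)) X)) := by
      ext d
      simp only [mem_insert, mem_Icc]
      omega
    rw [sum_range_succ, ← ih, e, sum_insert, sum_insert]
    · ring
    · rw [mem_Icc]
      omega
    · rw [mem_insert, mem_Icc]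
      omega

theorem sw_small {δ : ℝ} (hδ : 0 < δ) :
    ∀ᶠ X : ℕ in atTop, |∑ D ∈ Icc (-(X : ℤ)) X, sw D| ≤ δ * X := by
  obtain ⟨K, hK⟩ := exists_nat_gt (8 / δ)
  have K0 : (0 : ℝ) < K := (by positivity : 0 < 8 / δ).trans hK
  obtain ⟨C, hC⟩ := half_sum K
  filter_upwards [(tendsto_natCast_atTop_atTop (R := ℝ)).eventually_ge_atTop (4 * C / δ)] with X hX
  have k1 := B2.gf_bad (K := K) (by rintro rfl; simp at K0) X
  have k2 : ∀ N : ℕ, |(sw (N : ℕ) + sw (-(N : ℕ))) - 2 * ((sK K (N : ℕ) - sK K (-(N : ℕ))) / 2)| ≤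
      4 * if N ≠ 0 ∧ ∃ k, K < k ∧ k * k ∣ N then 1 else 0 := fun N => by
    split_ifs with h4
    · have a1 := abs_le.1 (half_sK K (N : ℕ))
      have a2 := abs_le.1 (half_sK K (-(N : ℕ)))
      have a3 := abs_le.1 (half_sw (N : ℕ))
      have a4 := abs_le.1 (half_sw (-(N : ℕ)))
      rw [abs_le]
      constructor <;> linarith [a1.1, a1.2, a2.1, a2.2, a3.1, a3.2, a4.1, a4.2]
    rcases eq_or_ne N 0 with rfl | h0
    · simp [half_zero]
    have h5 : ¬ ∃ k, K < k ∧ k * k ∣ N := fun e => h4 ⟨h0, e⟩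
    rw [sw_eq (K := K) (D := (N : ℕ)) (by omega) (by rwa [Int.natAbs_natCast]),
      sw_eq (K := K) (D := -(N : ℕ)) (by omega) (by rwa [Int.natAbs_neg, Int.natAbs_natCast]),
      Int.sign_eq_one_of_pos (by omega), Int.sign_eq_neg_one_of_neg (by omega)]
    refine le_of_eq ?_
    rw [mul_zero, abs_eq_zero]
    push_cast
    ring
  have k3 := (abs_sum_le_sum_abs _ (range (X + 1))).trans (sum_le_sum fun N _ => k2 N)
  rw [sum_sub_distrib, ← mul_sum, ← mul_sum, sum_boole, ← half_Icc] at k3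
  have k4 := hC (X + 1)
  have k5 : (X : ℝ) / K ≤ δ / 8 * X := by
    rw [div_le_iff₀ K0]
    rw [div_lt_iff₀ hδ] at hK
    have : (0 : ℝ) ≤ X := Nat.cast_nonneg _
    nlinarith
  rw [div_le_iff₀ hδ] at hX
  rw [abs_le] at k3 k4 ⊢
  constructor <;> linarith [k3.1, k3.2, k4.1, k4.2]

theorem half4 {P : ℕ → ℤ → Prop} (hd : ∀ d, P 0 d → ¬ P 1 d)
    (h : ∀ ε : ℝ, 0 < ε → ∃ X0 : ℕ, ∀ X ≥ X0, (((Icc (-(X : ℤ)) X).filter fun d =>
      Fam d ∧ ¬ P (if Wq d then 0 else 1) d).card : ℝ) ≤ ε * X) {r : ℕ} (hr : r ≤ 1) :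
    Tendsto (fun X : ℕ => (Set.ncard {d : ℤ | |d| ≤ X ∧ Fam d ∧ P r d} : ℝ) /
      (Set.ncard {d : ℤ | |d| ≤ X ∧ Fam d} : ℝ)) atTop (𝓝 (1 / 2)) := by
  rw [Metric.tendsto_nhds]
  intro ε hε
  obtain ⟨δ, hδ, e0⟩ : ∃ δ : ℝ, 0 < δ ∧ δ * 8 = ε / 5 := ⟨ε / 40, by positivity, by ring⟩
  obtain ⟨X0, h0⟩ := h δ hδ
  filter_upwards [eventually_ge_atTop X0, sw_small hδ,
    (tendsto_natCast_atTop_atTop (R := ℝ)).eventually_gt_atTop 0] with X h1 h2 h3
  set F := (Icc (-(X : ℤ)) X).filter Fam with hF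
  have e1 : {d : ℤ | |d| ≤ X ∧ Fam d ∧ P r d} = ↑(F.filter (P r)) := by
    ext d
    simp [hF, abs_le, and_assoc]
  have e2 : {d : ℤ | |d| ≤ X ∧ Fam d} = ↑F := by
    ext d
    simp [hF, abs_le, and_assoc]
  rw [e1, e2, Set.ncard_coe_finset, Set.ncard_coe_finset, Real.dist_eq]
  have b := h0 X h1
  rw [← filter_filter, ← hF, ← sum_boole] at b
  have c : ((B2.V.gfS 1 X).card : ℝ) ≤ F.card := by
    refine Nat.cast_le.2 (card_le_card_of_injOn (fun N : ℕ => (N : ℤ)) (fun N hN => ?_)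
      fun a _ b _ h => by simpa using h)
    simp only [B2.V.gfS, hF, coe_filter, mem_range, mem_Icc, Set.mem_ofPred_eq] at hN ⊢
    refine ⟨by omega, fun p hp e => Nat.squarefree_iff_prime_squarefree.1 hN.2.1 p hp ?_⟩
    rw [← sq]
    exact (pow_dvd_pow p (show 2 ≤ 4 by norm_num)).trans (by exact_mod_cast e)
  have g := (B2.V.gf_big 1 one_ne_zero X).trans (mul_le_mul_of_nonneg_left c (by positivity))
  rw [Nat.cast_one, mul_one] at g
  have s : ∑ d ∈ F, sw d = ∑ D ∈ Icc (-(X : ℤ)) X, sw D :=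
    sum_filter_of_ne fun d _ e => by
      by_contra k
      exact e (if_neg k)
  rw [abs_le] at h2
  have k : ∀ d ∈ F, |(if P r d then (1 : ℝ) else 0) - 1 / 2 - (1 / 2 - r) * sw d| ≤
      if ¬ P (if Wq d then 0 else 1) d then 1 else 0 := fun d hd' => by
    rw [sw, if_pos (mem_filter.1 hd').2]
    have := hd d
    interval_cases r <;> by_cases j : Wq d <;> by_cases p0 : P 0 d <;> by_cases p1 : P 1 d <;>
      simp only [j, p0, p1, forall_const, not_true_eq_false] at this ⊢ <;> norm_num [p0, p1]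
  have k2 := ((abs_sum_le_sum_abs _ _).trans (sum_le_sum k)).trans b
  rw [sum_sub_distrib, sum_sub_distrib, sum_boole, ← mul_sum, sum_const, nsmul_eq_mul,
    abs_le, s] at k2
  have a0 : (0 : ℝ) < F.card := (mul_pos_iff_of_pos_left (by positivity)).1 (h3.trans_le g)
  have r3 : |(1 / 2 - (r : ℝ)) * ∑ D ∈ Icc (-(X : ℤ)) X, sw D| ≤ δ * X := by
    have := mul_pos hδ h3
    interval_cases r <;> rw [abs_le] <;> push_cast <;> constructor <;> linarith [h2.1, h2.2]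
  rw [abs_le] at r3
  have a1 : δ * X ≤ ε / 5 * F.card := by
    rw [← e0, mul_assoc]
    exact mul_le_mul_of_nonneg_left g hδ.le
  have a2 := mul_pos hε a0
  rw [abs_lt, lt_sub_iff_add_lt, sub_lt_iff_lt_add, lt_div_iff₀ a0, div_lt_iff₀ a0]
  constructor <;> nlinarith [k2.1, k2.2, r3.1, r3.2]

end Pool.Agent.Lib.MP_696deb_nt.QA
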