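import Pool.Agent.Lib.MP_696deb_nt.QP.H3
import Pool.Agent.Lib.MP_696deb_nt.QA.D0

/-! The local conditions at the odd primes of the twist. -/

set_option autoImplicit false

open scoped Classical
open Matrix Module

namespace Pool.Agent.Lib.MP_696deb_nt.QP

open Pool.Agent.Lib.MP_696deb_nt.B2

theorem odd_sq {p : ℕ} [Fact p.Prime] {x y : ZMod p} (hx : x ≠ 0) (hy : y ≠ 0) :
    IsSquare (x * y) ↔ (IsSquare x ↔ IsSquare y) := by
  rw [← quadraticChar_one_iff_isSquare (mul_ne_zero hx hy), ← quadraticChar_one_iff_isSquare hx,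
    ← quadraticChar_one_iff_isSquare hy, map_mul]
  rcases quadraticChar_dichotomy hx with a | a <;> rcases quadraticChar_dichotomy hy with b | b <;>
    rw [a, b] <;> decide

theorem odd_lift {p : ℕ} [Fact p.Prime] (h : p ≠ 2) {u : ℤ} (h1 : ¬ (p : ℤ) ∣ u)
    (h2 : IsSquare ((-u : ℤ) : ZMod p)) : ∃ t s : ℤ, t ^ 2 + u = p * s ∧ ¬ (p : ℤ) ∣ t * s ∧
      IsSquare ((t * s : ℤ) : ZMod p) := by
  obtain ⟨r, hr⟩ := h2
  obtain ⟨t, rfl⟩ := ZMod.intCast_surjective r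
  obtain ⟨s, hs⟩ : (p : ℤ) ∣ t ^ 2 + u := (ZMod.intCast_zmod_eq_zero_iff_dvd _ p).1 (by
    push_cast at hr ⊢
    linear_combination -hr)
  have t0 : (t : ZMod p) ≠ 0 := fun e => h1 ((ZMod.intCast_zmod_eq_zero_iff_dvd _ p).1 (by
    rw [e, mul_zero, Int.cast_neg, neg_eq_zero] at hr
    exact hr))
  have n2 : (2 : ZMod p) ≠ 0 := Ring.two_ne_zero (by rwa [ZMod.ringChar_zmod_n])
  obtain ⟨k, hk⟩ := ZMod.intCast_surjective (((t : ZMod p) - (s : ZMod p)) / (2 * (t : ZMod p)))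
  have e : (((t + p * k) * (s + 2 * t * k + p * k ^ 2) : ℤ) : ZMod p) = t * t := by
    push_cast
    rw [hk, ZMod.natCast_self]
    field_simp
    ring
  refine ⟨t + p * k, s + 2 * t * k + p * k ^ 2, by linear_combination hs, fun c => ?_, _, e⟩
  rw [(ZMod.intCast_zmod_eq_zero_iff_dvd _ p).2 c] at e
  exact mul_ne_zero t0 t0 e.symm

/-- A ramified class from a point near a rational point of order two. -/
theorem Pd.Lq.odd_pt {A : Type} [AddCommGroup A] {P : Pd A} {D : ℤ} (h : P.Lq D) {w : Plc}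
    (hw : w.p ≠ 2) (j : Bool) {u : ℤ} (hu : Pd.be D j = (w.p : ℤ) ^ 2 * u) (h1 : ¬ (w.p : ℤ) ∣ u)
    (h2 : IsSquare ((-u : ℤ) : ZMod w.p)) {τ : Gam} (hτ : Gen w τ) :
    ∃ v ∈ P.L j (Dec w), v τ = 1 := by
  have : Fact w.p.Prime := ⟨w.prime⟩
  obtain ⟨t, s, e, h3, h4⟩ := odd_lift hw h1 h2
  have p0 : (w.p : ℤ) ≠ 0 := by exact_mod_cast w.prime.ne_zero
  have h5 : ¬ (w.p : ℤ) ∣ t := fun c => h3 (c.mul_right s)
  have hJ : jacobiSym (t * s) w.p = 1 := by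
    rw [← jacobiSym.legendreSym.to_jacobiSym]
    exact (legendreSym.eq_one_iff w.p fun c => h3 ((ZMod.intCast_zmod_eq_zero_iff_dvd _ _).1 c)).2 h4
  refine ⟨xi (w.p * t), h.pts j _ _ ((w.p : Qbar) ^ 2 * rt (t * s)) (mul_ne_zero p0 (b4b_ne h5))
    (fun g hg => ?_) ?_, ?_⟩
  · rw [map_mul, map_pow, map_natCast, chi_eq_one.1 (chi_dec (mu0_ndvd hw h3) hJ hg)]
  · have e1 := congrArg (Int.cast : ℤ → Qbar) e
    rw [mul_pow, rt_sq, hu]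
    push_cast at e1 ⊢
    linear_combination -(w.p : Qbar) ^ 3 * t * e1
  · rw [xi_mul p0 (b4b_ne h5), xi_eq_one.2 hτ.2, h3_ine hw h5 hτ.1, add_zero]

/-- An unramified class that is not trivial. -/
theorem Pd.Lq.odd_unr {A : Type} [AddCommGroup A] {P : Pd A} {D : ℤ} (h : P.Lq D) {w : Plc}
    (hw : w.p ≠ 2) (j : Bool) {u : ℤ} (hu : Pd.be D j = (w.p : ℤ) ^ 2 * u)
    (h2 : ¬ IsSquare ((u : ℤ) : ZMod w.p)) {τ : Gam} (hτ : Gen w τ) :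
    ∃ v ∈ P.L j (Dec w), v τ = 0 ∧ ∃ g ∈ Dec w, v g ≠ 0 := by
  have : Fact w.p.Prime := ⟨w.prime⟩
  have h1 : ¬ (w.p : ℤ) ∣ u := fun e =>
    h2 (by rw [(ZMod.intCast_zmod_eq_zero_iff_dvd u _).2 e]; exact IsSquare.zero)
  have p0 : (w.p : ℤ) ≠ 0 := by exact_mod_cast w.prime.ne_zero
  have hJ : jacobiSym u w.p = -1 := by
    rw [← jacobiSym.legendreSym.to_jacobiSym]
    exact (legendreSym.eq_neg_one_iff w.p).2 h2
  have e : ∀ g, xi (Pd.be D j) g = xi u g := fun g => by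
    rw [hu, xi_mul (pow_ne_zero 2 p0) (b4b_ne h1), xi_sq, zero_add]
  obtain ⟨φ, hφ⟩ := exists_frob w
  refine ⟨_, P.L_mono (h.tau j) le_top, (e τ).trans (h3_ine hw h1 hτ.1), φ, hφ.1, ?_⟩
  rw [e, xi_eq_one.2 (Units.ext ((chi_frob (mu0_ndvd hw h1) hφ).trans hJ))]
  exact one_ne_zero

section

variable {N : Bool → Submodule (ZMod 2) (Gam → ZMod 2)} {φ τ : Gam} {R : Prop}

theorem odd_ne {L : Submodule (ZMod 2) (Gam → ZMod 2)} (h : ∃ v ∈ L, v τ = 1) :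
    ∃ v ∈ L, (v φ, v τ) ≠ 0 := by
  obtain ⟨v, a, b⟩ := h
  exact ⟨v, a, fun e => one_ne_zero (b.symm.trans (congrArg Prod.snd e))⟩

theorem odd_ne' {L : Submodule (ZMod 2) (Gam → ZMod 2)} (h : ∃ v ∈ L, v φ = 1 ∧ v τ = 0) :
    ∃ v ∈ L, (v φ, v τ) ≠ 0 := by
  obtain ⟨v, a, b, -⟩ := h
  exact ⟨v, a, fun e => one_ne_zero (b.symm.trans (congrArg Prod.fst e))⟩

theorem odd_one (h0 : ∃ v ∈ N false, (v φ, v τ) ≠ 0) (h1 : ∃ v ∈ N true, (v φ, v τ) ≠ 0)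
    (hR : ¬ R) : ∃ M : Bool → Submodule (ZMod 2) (ZMod 2 × ZMod 2),
      (∀ j, ∀ x ∈ M j, ∃ u ∈ N j, u φ = x.1 ∧ u τ = x.2) ∧
      finrank (ZMod 2) (M false) + finrank (ZMod 2) (M true) = 2 ∧
      (Even (finrank (ZMod 2) (M false)) ↔ R) := by
  have h : ∀ j, ∃ v ∈ N j, (v φ, v τ) ≠ 0 := Bool.rec h0 h1
  choose v a b using h
  have e := fun j => finrank_span_singleton (K := ZMod 2) (b j)
  refine ⟨fun j => Submodule.span (ZMod 2) {(v j φ, v j τ)}, fun j x hx => ?_,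
    congrArg₂ (· + ·) (e false) (e true),
    (iff_of_eq (congrArg Even (e false))).trans (iff_of_false (by decide) hR)⟩
  obtain ⟨c, rfl⟩ := Submodule.mem_span_singleton.1 hx
  exact ⟨c • v j, Submodule.smul_mem _ c (a j), rfl, rfl⟩

theorem odd_top (i : Bool) (h0 : ∃ v ∈ N i, v τ = 1) (h1 : ∃ v ∈ N i, v φ = 1 ∧ v τ = 0)
    (hR : R) : ∃ M : Bool → Submodule (ZMod 2) (ZMod 2 × ZMod 2),
      (∀ j, ∀ x ∈ M j, ∃ u ∈ N j, u φ = x.1 ∧ u τ = x.2) ∧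
      finrank (ZMod 2) (M false) + finrank (ZMod 2) (M true) = 2 ∧
      (Even (finrank (ZMod 2) (M false)) ↔ R) := by
  obtain ⟨v, a, b⟩ := h0
  obtain ⟨v', a', b', c'⟩ := h1
  have e : finrank (ZMod 2) (⊤ : Submodule (ZMod 2) (ZMod 2 × ZMod 2)) = 2 := by simp
  have e0 := finrank_bot (ZMod 2) (ZMod 2 × ZMod 2)
  have k : ∀ x ∈ (⊤ : Submodule (ZMod 2) (ZMod 2 × ZMod 2)), ∃ u ∈ N i, u φ = x.1 ∧ u τ = x.2 :=
    fun x _ => ⟨x.2 • v + (x.1 - x.2 * v φ) • v',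
      add_mem (Submodule.smul_mem _ _ a) (Submodule.smul_mem _ _ a'), by simp [b'], by simp [b, c']⟩
  have k0 : ∀ j, ∀ x ∈ (⊥ : Submodule (ZMod 2) (ZMod 2 × ZMod 2)),
      ∃ u ∈ N j, u φ = x.1 ∧ u τ = x.2 := fun j x hx =>
    ⟨0, zero_mem _, by rw [(Submodule.mem_bot _).1 hx]; exact ⟨rfl, rfl⟩⟩
  cases i
  · exact ⟨fun j => cond j ⊥ ⊤, Bool.rec k (k0 true), congrArg₂ (· + ·) e e0,
      (iff_of_eq (congrArg Even e)).trans (iff_of_true (by decide) hR)⟩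
  · exact ⟨fun j => cond j ⊤ ⊥, Bool.rec (k0 false) k, congrArg₂ (· + ·) e0 e,
      (iff_of_eq (congrArg Even e0)).trans (iff_of_true (by decide) hR)⟩

end

theorem Pd.Lq.odd_tab {A : Type} [AddCommGroup A] {P : Pd A} {D : ℤ} (h : P.Lq D)
    (hD : QA.Fam D) {w : Plc} (hw : w.p ≠ 2) (h1 : (w.p : ℤ) ∣ D) {φ τ : Gam} (hτ : Gen w τ)
    (van : ∀ u, B4bG (Dec w) u → u φ = 0 → u τ = 0 → ∀ g ∈ Dec w, u g = 0) :
    ∃ M : Bool → Submodule (ZMod 2) (ZMod 2 × ZMod 2),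
      (∀ j, ∀ x ∈ M j, ∃ u ∈ P.L j (Dec w), u φ = x.1 ∧ u τ = x.2) ∧
      finrank (ZMod 2) (M false) + finrank (ZMod 2) (M true) = 2 ∧
      (Even (finrank (ZMod 2) (M false)) ↔ w.p % 4 = 3 ∧ padicValInt w.p D = 2) := by
  have : Fact w.p.Prime := ⟨w.prime⟩
  have p0 : (w.p : ℤ) ≠ 0 := by exact_mod_cast w.prime.ne_zero
  obtain ⟨v1, v3⟩ := hD.val w.prime h1
  obtain ⟨u, hu⟩ := padicValInt_dvd (p := w.p) D
  have u0 : ¬ (w.p : ℤ) ∣ u := fun ⟨c, hc⟩ => by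
    have := (padicValInt_dvd_iff (p := w.p) (padicValInt w.p D + 1) D).1
      ⟨c, by rw [pow_succ, mul_assoc, ← hc, ← hu]⟩
    have := hD.ne
    omega
  have u4 : ¬ (w.p : ℤ) ∣ 4 * u := by
    rw [show 4 * u = 2 * (2 * u) by ring]
    exact mu0_ndvd hw (mu0_ndvd hw u0)
  have un : ¬ (w.p : ℤ) ∣ -u := fun c => u0 (dvd_neg.1 c)
  have bf : Pd.be D false = (w.p : ℤ) ^ padicValInt w.p D * (4 * u) := by
    rw [mul_left_comm, ← hu]
    rfl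
  have bt : Pd.be D true = (w.p : ℤ) ^ padicValInt w.p D * -u := by
    rw [mul_neg, ← hu]
    rfl
  by_cases v2 : padicValInt w.p D = 2
  swap
  · have k : ∀ j (c : ℤ), ¬ (w.p : ℤ) ∣ c → Pd.be D j = (w.p : ℤ) ^ padicValInt w.p D * c →
        ∃ v ∈ P.L j (Dec w), v τ = 1 := fun j c hc e => by
      refine ⟨_, P.L_mono (h.tau j) le_top, ?_⟩
      rw [e, xi_mul (pow_ne_zero _ p0) (b4b_ne hc), b4b_xi_pow p0, xi_eq_one.2 hτ.2,
        h3_ine hw hc hτ.1]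
      rcases (by omega : padicValInt w.p D = 1 ∨ padicValInt w.p D = 3) with e | e <;> rw [e] <;>
        decide
    exact odd_one (odd_ne (k _ _ u4 bf)) (odd_ne (k _ _ un bt)) fun c => v2 c.2
  rw [v2] at bf bt
  have z : ∀ {c : ℤ}, ¬ (w.p : ℤ) ∣ c → (c : ZMod w.p) ≠ 0 := fun hc e =>
    hc ((ZMod.intCast_zmod_eq_zero_iff_dvd _ _).1 e)
  have n4 : (4 : ZMod w.p) ≠ 0 := fun e => z u4 (by push_cast; rw [e, zero_mul])
  have s4 : IsSquare (4 : ZMod w.p) := ⟨2, by norm_num⟩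
  have q1 : IsSquare ((-u : ℤ) : ZMod w.p) ↔ (w.p % 4 ≠ 3 ↔ IsSquare (u : ZMod w.p)) := by
    rw [← ZMod.exists_sq_eq_neg_one_iff, ← odd_sq (neg_ne_zero.2 one_ne_zero) (z u0), neg_one_mul,
      Int.cast_neg]
  have q2 : IsSquare ((4 * u : ℤ) : ZMod w.p) ↔ IsSquare (u : ZMod w.p) := by
    rw [Int.cast_mul, Int.cast_ofNat, odd_sq n4 (z u0), iff_true_intro s4, true_iff]
  have q3 : IsSquare ((-(4 * u) : ℤ) : ZMod w.p) ↔ IsSquare ((-u : ℤ) : ZMod w.p) := by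
    rw [← mul_neg, Int.cast_mul, Int.cast_ofNat, odd_sq n4 (z un), iff_true_intro s4, true_iff]
  have pt := fun c : IsSquare (u : ZMod w.p) => h.odd_pt hw true bt un (by rwa [neg_neg]) hτ
  have pf := fun c => h.odd_pt hw false bf u4 (q3.2 c) hτ
  have ur : ∀ {j}, (∃ v ∈ P.L j (Dec w), v τ = 0 ∧ ∃ g ∈ Dec w, v g ≠ 0) →
      ∃ v ∈ P.L j (Dec w), v φ = 1 ∧ v τ = 0 := fun ⟨v, a, b, g, c, d⟩ =>
    ⟨v, a, (b4b_cases _).resolve_left fun e => d (van v a.1 e b g c), b⟩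
  have ut := fun c => ur (h.odd_unr hw true bt c hτ)
  have uf := fun c => ur (h.odd_unr hw false bf (mt q2.1 c) hτ)
  by_cases a : IsSquare (u : ZMod w.p) <;> by_cases b : IsSquare ((-u : ℤ) : ZMod w.p)
  · exact odd_one (odd_ne (pf b)) (odd_ne (pt a)) fun c => (q1.1 b).2 a c.1
  · exact odd_top true (pt a) (ut b) ⟨not_not.1 fun c => b (q1.2 (iff_of_true c a)), v2⟩
  · exact odd_top false (pf b) (uf a) ⟨not_not.1 fun c => a ((q1.1 b).1 c), v2⟩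
  · exact odd_one (odd_ne' (uf a)) (odd_ne' (ut b)) fun c =>
      b (q1.2 (iff_of_false (not_not.2 c.1) a))

end Pool.Agent.Lib.MP_696deb_nt.QP
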