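import Pool.Agent.Lib.MP_696deb_nt.QA.Two
import Pool.Agent.Lib.MP_696deb_nt.QA.Odd

/-! Duality and the parity of the first layer. -/

set_option autoImplicit false

open scoped Classical
open Matrix Module

namespace Pool.Agent.Lib.MP_696deb_nt.QP

open Pool.Agent.Lib.MP_696deb_nt.B2

theorem Pd.Lq.h3_main4 {A : Type} [AddCommGroup A] {P : Pd A} {D : ℤ} (h : P.Lq D) (F : CFT)
    (hD : QA.Fam D) {R : Finset ℕ} (hR : ∀ p ∈ R, p.Prime ∧ p ≠ 2)
    (hR' : ∀ p ∈ R, (p : ℤ) ∣ D) (hS : ∀ w : Plc, w.p ∉ insert 2 R → ¬ (w.p : ℤ) ∣ 2 * D) :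
    P.Lone F (insert 2 R) ∧
      (Even (finrank (ZMod 2) (P.Sel false) + finrank (ZMod 2) (P.Sel true)) ↔ (0 < D ↔ (QA.W2 D ↔
        Even (R.filter fun p => p % 4 = 3 ∧ padicValInt p D = 2).card))) := by
  obtain ⟨C⟩ := h3C_exists F hR
  have h2 : 2 ∉ R := fun k => (hR 2 k).2 rfl
  have m2 : 2 ∈ insert 2 R := Finset.mem_insert_self _ _
  have hp : ∀ p ∈ insert 2 R, p.Prime := fun p k => by
    rcases Finset.mem_insert.1 k with rfl | k
    · exact Nat.prime_two
    · exact (hR p k).1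
  obtain ⟨M, hM, dM, eM⟩ := h.two_tab4 hD (pq_p Nat.prime_two)
  have ep : ∀ p : R, (pq p).p = p := fun p => pq_p (hR p p.2).1
  choose N hN dN eN using fun p : R => h.odd_tab hD (w := pq p) (by rw [ep]; exact (hR p p.2).2)
    (by rw [ep]; exact hR' p p.2) (φ := C.φ p) (C.hτ p p.2) (C.van p p.2)
  choose U hU1 hU2 hU3 using hN
  have dN : ∑ p, finrank (ZMod 2) (N p false) + ∑ p, finrank (ZMod 2) (N p true) = 2 * R.card := by
    rw [← Finset.sum_add_distrib, Finset.sum_congr rfl fun p _ => dN p]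
    simp [mul_comm]
  have eN : (∑ p, finrank (ZMod 2) (N p false) +
      (R.filter fun p => p % 4 = 3 ∧ padicValInt p D = 2).card) % 2 = R.card % 2 := by
    rw [Finset.card_filter, ← Finset.sum_coe_sort R, ← Finset.sum_add_distrib, Finset.sum_nat_mod,
      Finset.sum_congr rfl fun p _ => (?_ : _ = 1)]
    · simp
    have := eN p
    rw [ep, Nat.even_iff] at this
    split_ifs with k
    · have := this.2 k
      omega
    · have := mt this.1 k
      omega
  let G : Bool → Submodule (ZMod 2) (H3V R) := fun j => (P.Gs (insert 2 R) j).map (C.co ∘ₗ h3k)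
  let L : Bool → Submodule (ZMod 2) (H3V R) := fun j =>
    (Submodule.pi ((insert 2 R : Finset ℕ) : Set ℕ) fun p => P.L j (Dec (pq p))).map C.co
  have gl : ∀ {v : Gam → ZMod 2}, B4bG ⊤ v → ∀ p ∈ insert 2 R, B4bG (Dec (pq p)) (h3k v p) :=
    fun hv p _ => B4bG.mono hv le_top
  have dV : finrank (ZMod 2) (H3V R) = R.card + (R.card + 3) := by
    simp [finrank_prod]
  have ΦG : ∀ j (x : (R → ZMod 2) × ZMod 2 × ZMod 2), x.2.2 = 0 ∨ Pd.be D j < 0 →
      C.co (h3k (h3Φ R x)) ∈ G j := fun j x k => by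
    refine ⟨h3Φ R x, add_mem (Submodule.sum_mem _ fun p _ => Submodule.smul_mem _ _ ?_)
      (add_mem (Submodule.smul_mem _ _ ?_) ?_), rfl⟩
    · exact h.xi_mem m2 hS j (fun w hw => h3_nd (hR p p.2).1 fun e =>
        hw (e ▸ Finset.mem_insert_of_mem p.2)) (.inl (by exact_mod_cast (hR p p.2).1.pos))
    · exact h.xi_mem m2 hS j (fun w hw => h3_nd Nat.prime_two fun e => hw (e ▸ m2)) (.inl two_pos)
    · rcases k with k | k
      · rw [k, zero_smul]; exact zero_mem _
      · exact Submodule.smul_mem _ _ (h.xi_mem m2 hS j (fun w _ => h3_nd1 w) (.inr ⟨by decide, k⟩))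
  have G1 : ∀ j, R.card + 1 ≤ finrank (ZMod 2) (G j) := fun j => by
    have := h3_le (C.co ∘ₗ h3k ∘ₗ h3Φ R ∘ₗ
      (LinearMap.id.prodMap (LinearMap.inl (ZMod 2) (ZMod 2) (ZMod 2)))) (G j)
      (fun x hx => by
        have k := C.inj hR _ hx
        exact Prod.ext (congrArg (·.1) k) (congrArg (·.2.1) k)) fun x => ΦG j _ (.inl rfl)
    simpa [finrank_prod] using this
  have G2 : ∀ j, Pd.be D j < 0 → R.card + 2 ≤ finrank (ZMod 2) (G j) := fun j k => by
    have := h3_le (C.co ∘ₗ h3k ∘ₗ h3Φ R) (G j) (C.inj hR) fun x => ΦG j x (.inr k)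
    simpa [finrank_prod] using this
  have L1 : ∀ j, ∑ p, finrank (ZMod 2) (N p j) + finrank (ZMod 2) (M j) ≤
      finrank (ZMod 2) (L j) := fun j => by
    let f : ((p : R) → N p j) × M j →ₗ[ZMod 2] H3V R :=
      { toFun := fun x => (fun p => (x.1 p).1.1, fun p => (x.1 p).1.2, x.2.1)
        map_add' := fun x y => rfl
        map_smul' := fun a x => rfl }
    have := h3_le f (L j)
      (fun x hx => Prod.ext (funext fun p => Subtype.ext (Prod.ext (congrFun (congrArg (·.1) hx) p)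
        (congrFun (congrArg (·.2.1) hx) p))) (Subtype.ext (congrArg (·.2.2) hx))) fun x => by
      refine ⟨fun p => if k : p ∈ R then U ⟨p, k⟩ j _ (x.1 ⟨p, k⟩).2 else cmb x.2.1,
        fun p k => ?_, ?_⟩
      · by_cases k' : p ∈ R
        · simp only [dif_pos k']
          exact hU1 ⟨p, k'⟩ j _ _
        · simp only [dif_neg k']
          obtain rfl : p = 2 := (Finset.mem_insert.1 k).resolve_right k'
          exact hM j _ x.2.2
      · refine Prod.ext (funext fun p => ?_) (Prod.ext (funext fun p => ?_) (funext fun i => ?_))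
        · exact (congrFun (dif_pos p.2) _).trans (hU2 p j _ _)
        · exact (congrFun (dif_pos p.2) _).trans (hU3 p j _ _)
        · exact (congrFun (dif_neg h2) _).trans (C.cm _ i)
    rwa [finrank_prod, finrank_pi_fintype] at this
  have D0 := hD.ne
  have bf : Pd.be D false = 4 * D := rfl
  have bt : Pd.be D true = -D := rfl
  obtain ⟨w1, w2, w3, w4⟩ := wiles (h3B fun p : R => C.ε p) (h3B_symm _) (h3B_nd _) G L
    (by
      rintro _ ⟨u, hu, rfl⟩ _ ⟨v, hv, rfl⟩
      exact (C.sum_eq h2 (gl hu.1) (gl hv.1)).trans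
        (P.pr_glob (j := true) F hp hu.1 hu.2.1 hu.2.2 hv.1 hv.2.1 hv.2.2))
    (by
      rintro _ ⟨u, hu, rfl⟩ _ ⟨v, hv, rfl⟩
      exact (C.sum_eq h2 (fun p k => (hu p k).1) fun p k => (hv p k).1).trans
        (Finset.sum_eq_zero fun p k => P.orth_inv (j := true) F (hu p k) (hv p k)))
    (by
      have := G1 false
      have := G1 true
      have := G2 false
      have := G2 true
      omega)
    (by
      have := L1 false
      have := L1 true
      omega)
  have s1 : ∀ j, ∀ b ∈ P.Sel j, C.co (h3k b) ∈ G j ⊓ L j := fun j b hb =>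
    ⟨⟨b, ⟨hb.1, hb.2.1, fun w _ => hb.2.2 w⟩, rfl⟩, h3k b, fun p _ => hb.2.2 _, rfl⟩
  have s2 : ∀ j, ∀ y ∈ G j ⊓ L j, ∃ b ∈ P.Sel j, C.co (h3k b) = y := by
    rintro j _ ⟨⟨v, hv, rfl⟩, l, hl, e⟩
    refine ⟨v, ⟨hv.1, hv.2.1, fun w => ?_⟩, rfl⟩
    by_cases k : w.p ∈ insert 2 R
    · have k1 : v ∈ P.L j (Dec (pq w.p)) := P.L_congr (hl _ k) fun g hg =>
        (C.eq_on (fun p k => (hl p k).1) (gl hv.1) e _ k g hg).symm
      exact ⟨B4bG.mono hv.1 le_top, P.LC_conj (P.tT_coc j hv.1) k1.2 (pq_p w.prime)⟩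
    · exact hv.2.2 w k
  have s3 : ∀ j, ∀ b ∈ P.Sel j, C.co (h3k b) = 0 → b = 0 := fun j b hb k => by
    obtain ⟨c, hc, e⟩ := exists_xi hb.1.1 hb.1.2
    obtain ⟨x, hx⟩ := h3_small hc fun q hq hd => by
      by_contra q2
      have e1 := pq_p hq
      have q3 : (pq q).p ≠ 2 := by rw [e1]; exact q2
      by_cases k1 : q ∈ R
      · have k2 : b (C.τ q) = 0 := congrFun (congrArg (·.2.1) k) ⟨q, k1⟩
        rw [e, xi_gen q3 hc (by rw [e1]; exact hd) (C.hτ q k1)] at k2
        exact one_ne_zero k2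
      · obtain ⟨τ, hτ⟩ := exists_gen q3
        have k2 := Pd.h3_rigid (h.good j (pq q) (hS _ (by
          rw [e1]; exact fun k3 => (Finset.mem_insert.1 k3).elim q2 k1))) (hb.2.2 _) hτ.1
        rw [e, xi_gen q3 hc (by rw [e1]; exact hd) hτ] at k2
        exact one_ne_zero k2
    have x0 : x = 0 := funext fun i => by
      have k2 : b (C.e i) = 0 := congrFun (congrArg (·.2.2) k) i
      rwa [e, hx, C.cm] at k2
    funext g
    rw [e, hx, x0]
    simp [cmb]
  have s4 : ∀ j, Nonempty (P.Sel j ≃ₗ[ZMod 2] ↥(G j ⊓ L j)) := fun j =>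
    ⟨LinearEquiv.ofBijective
      (((C.co ∘ₗ h3k).domRestrict (P.Sel j)).codRestrict (G j ⊓ L j) fun b => s1 j b b.2)
      ⟨(injective_iff_map_eq_zero _).2 fun b k =>
        Subtype.ext (s3 j b b.2 (congrArg Subtype.val k)), fun y => by
        obtain ⟨b, hb, e⟩ := s2 j y y.2
        exact ⟨⟨b, hb⟩, Subtype.ext e⟩⟩⟩
  refine ⟨⟨hp, m2, fun j w k => h.good j w (hS w k),
    fun j => (s4 j).elim fun e => Finite.of_equiv _ e.toEquiv.symm, fun j u hu k => ?_⟩, ?_⟩
  · obtain ⟨_, ⟨v, hv, rfl⟩, _, ⟨l, hl, rfl⟩, e⟩ := Submodule.mem_sup.1 (w1 j (C.co u) fun y hy => by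
      obtain ⟨b, hb, rfl⟩ := s2 j y hy
      exact (C.sum_eq h2 hu (gl hb.1)).trans (k b hb))
    refine ⟨v, hv.1, hv.2.1, hv.2.2, fun p k1 => P.L_congr (hl p k1) fun g hg => ?_⟩
    have e1 := C.eq_on (u := h3k v + l) (fun p k => (gl hv.1 p k).add (hl p k).1) hu
      ((map_add _ _ _).trans e) p k1 g hg
    change v g + l p g = u p g at e1
    rw [Pi.add_apply, ← e1, add_right_comm, CharTwo.add_self_eq_zero, zero_add]
  · obtain ⟨e0⟩ := s4 false
    obtain ⟨e1⟩ := s4 true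
    rw [e0.finrank_eq, e1.finrank_eq, ← eM, Nat.even_iff, Nat.even_iff, Nat.even_iff]
    have := G1 false
    have := G1 true
    have := G2 false
    have := G2 true
    have := L1 false
    have := L1 true
    omega

theorem Pd.Lq.lone4 {A : Type} [AddCommGroup A] {P : Pd A} {D : ℤ} (h : P.Lq D) (F : CFT)
    (hD : QA.Fam D) : P.Lone F (insert 2 D.natAbs.primeFactors) ∧
      (Even (finrank (ZMod 2) (P.Sel false) + finrank (ZMod 2) (P.Sel true)) ↔ QA.Wq D) := by
  have e : insert 2 D.natAbs.primeFactors = insert 2 (D.natAbs.primeFactors.erase 2) := by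
    ext p
    by_cases k : p = 2 <;> simp [k]
  have e2 : (D.natAbs.primeFactors.filter fun p => p % 4 = 3 ∧ padicValInt p D = 2) =
      (D.natAbs.primeFactors.erase 2).filter fun p => p % 4 = 3 ∧ padicValInt p D = 2 := by
    rw [Finset.filter_erase, Finset.erase_eq_of_notMem fun k =>
      absurd (Finset.mem_filter.1 k).2.1 (by decide)]
  rw [e, QA.Wq, QA.n2_eq hD.ne, e2]
  refine h.h3_main4 F hD (fun p k => ⟨Nat.prime_of_mem_primeFactors (Finset.mem_of_mem_erase k),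
    Finset.ne_of_mem_erase k⟩) (fun p k => Int.natCast_dvd.2
    (Nat.dvd_of_mem_primeFactors (Finset.mem_of_mem_erase k))) fun w k => ?_
  rw [← e, Finset.mem_insert, not_or] at k
  exact mu0_ndvd k.1 fun k1 => k.2 (Nat.mem_primeFactors.2
    ⟨w.prime, Int.natCast_dvd.1 k1, Int.natAbs_ne_zero.2 hD.ne⟩)

end Pool.Agent.Lib.MP_696deb_nt.QP
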