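import Pool.Agent.Lib.MP_696deb_nt.QT.Lnk
import Pool.Agent.Lib.MP_696deb_nt.QA.Core
import Pool.Agent.Lib.MP_696deb_nt.QA.Fe
import Pool.Agent.Lib.MP_696deb_nt.QA.Par
import Pool.Agent.Lib.MP_696deb_nt.QA.Half

/-! The distribution of the Selmer corank in the family of all quartic twists. -/

set_option autoImplicit false

open scoped Classical
open Filter Topology Module

namespace Pool.Agent.Lib.MP_696deb_nt.QA

open Pool.Agent.Lib.MP_696deb_nt.B2.Stmt QP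

/-- The property of the twist by `D` that is counted. -/
def Good (r : ℕ) (D : ℤ) : Prop :=
  (r = 0 ↔ Wq D) ∧
  ∀ a b : ℤ, a = -D → b = 0 → ∀ W : WeierstrassCurve ℚ,
    W = { a₁ := 0, a₂ := 0, a₃ := 0, a₄ := (a : ℚ), a₆ := (b : ℚ) } →
    ∃ F : ℂ → ℂ, Differentiable ℂ F ∧
      (∀ s : ℂ, (3 : ℝ) / 2 < s.re →
        HasProd
          (fun p : ℕ =>
            if p.Prime ∧ ¬ ((p : ℤ) ∣ 2 * (-4 * a ^ 3 - 27 * b ^ 2)) then
              (1 - ((p : ℂ) - (Nat.card {q : ZMod p × ZMod p //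
                  q.2 ^ 2 = q.1 ^ 3 + (a : ZMod p) * q.1 + (b : ZMod p)} : ℂ))
                  * (p : ℂ) ^ (-s) + (p : ℂ) ^ (1 - 2 * s))⁻¹
            else 1)
          (F s)) ∧
      IsLeast {n : ℕ | CorankLE W n} r ∧ Module.Finite ℤ W.toAffine.Point ∧
      finrank ℤ W.toAffine.Point ≤ r ∧ (r : ℕ∞) ≤ analyticOrderAt F 1

theorem good {D : ℤ} (hD : Fam D) (h : CorankLE (EQ D) 1) :
    Good (if Wq D then 0 else 1) D := by
  obtain ⟨F, h1, h2, h3⟩ := QF.fe4 hD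
  obtain ⟨k1, k2, k3, k4⟩ := par4 hD h
  by_cases hw : Wq D
  · rw [if_pos hw]
    refine ⟨iff_of_true rfl hw, ?_⟩
    rintro _ _ rfl rfl _ rfl
    exact ⟨F, h1, h2, ⟨par_zero4 hD h hw (QT.link hD.ne), fun _ _ => Nat.zero_le _⟩, k1,
      (k3 hw).le, by simp⟩
  · rw [if_neg hw]
    refine ⟨iff_of_false one_ne_zero hw, ?_⟩
    rintro _ _ rfl rfl _ rfl
    refine ⟨F, h1, h2, ⟨h, fun n hn => Nat.pos_of_ne_zero fun e => hw (k4 (e ▸ hn))⟩, k1, k2, ?_⟩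
    exact Order.one_le_iff_ne_zero.2 ((h1.analyticAt 1).analyticOrderAt_ne_zero.2 (h3 hw))

theorem tend_of (hf : ∀ e, e ≠ 0 → FewE e) {r : ℕ} (hr : r ≤ 1) :
    Tendsto (fun X : ℕ => (Set.ncard {D : ℤ | |D| ≤ X ∧ Fam D ∧ Good r D} : ℝ) /
      (Set.ncard {D : ℤ | |D| ≤ X ∧ Fam D} : ℝ)) atTop (𝓝 (1 / 2)) := by
  refine half4 (P := Good) (fun d a b => one_ne_zero (b.1.2 (a.1.1 rfl))) (fun ε hε => ?_) hr
  obtain ⟨X0, h⟩ := core_of hf hε
  refine ⟨X0, fun X hX => le_trans (Nat.cast_le.2 (Finset.card_le_card fun d hd => ?_)) (h X hX)⟩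
  simp only [Finset.mem_filter] at hd ⊢
  exact ⟨hd.1, hd.2.1, fun k => hd.2.2 (good hd.2.1 k)⟩

end Pool.Agent.Lib.MP_696deb_nt.QA
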