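import Pool.Agent.Lib.MP_696deb_nt.Q4.SelB
import Pool.Agent.Lib.MP_696deb_nt.QA.D0

/-! The local conditions at primes that divide the twist more than once. -/

set_option autoImplicit false

open scoped Classical
open Finset

namespace Pool.Agent.Lib.MP_696deb_nt.Q4.Tw

open Sm

variable {t : Tw} {p n : ℕ} {c : GQ → A}

/-- The class of a rational point of order two comes from a torsion point. -/
theorem two_tors (t : Tw) {H : Subgroup GQ} {x : Qb} (hx : Fx H x) (h : x ^ 2 = -4 * t.N) :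
    ∃ R : A, (∃ k : ℕ, w ^ k • R = 0) ∧ ∀ g ∈ H, t.cob R g = kT (chB x g) := by
  have n := (t.it 1).ρ_ne
  have e : (t.it 1).ρ ^ 4 = -4 * t.N := by
    rw [(t.it 1).pw]
    simp [it]
  have x0 : x ≠ 0 := by
    rintro rfl
    exact pow_ne_zero 4 n (by rw [e, ← h]; simp)
  obtain ⟨X, rfl⟩ : ∃ X, x = (t.it 1).ρ ^ 2 * X := ⟨x / (t.it 1).ρ ^ 2, by field_simp⟩
  have hX : X * X = 1 := mul_left_cancel₀ (pow_ne_zero 4 n) (by linear_combination h - e)
  have hXY : NS X 0 := ns_iff.2 (by linear_combination -X * hX)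
  obtain ⟨Q, hP⟩ := exists_root 1 (.some X 0 hXY)
  rw [pow_one] at hP
  refine ⟨Q, ⟨2 * 1 + 1, ?_⟩, fun g hg => ?_⟩
  · rw [pow_succ, mul_smul, hP, ← two_pow_iff, pow_one, two_nsmul]
    exact WeierstrassCurve.Affine.Point.add_self_of_Y_eq (by simp [W1])
  have h0 : w • t.cob Q g = 0 := by
    obtain ⟨h', e'⟩ := vm_some (f := (g : Qb →+* Qb)) ((t.it 1).four g) hXY
    have k := hx g hg
    rw [map_mul, map_pow] at k
    rw [ellb_w, hP, cob, sub_eq_zero, tw, e']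
    refine pt_ext ?_ (by simp)
    rw [zq, RingHom.coe_coe, div_pow, div_mul_eq_mul_div, div_eq_iff (pow_ne_zero _ n), k, mul_comm]
  obtain ⟨b, hb⟩ := exists_kT h0
  have e1 := wm_some II_mul ((w_smul Q).symm.trans hP)
  have e2 : sl (t.tw g Q) = (sn b : Qb) * sl Q := by
    rw [eq_add_of_sub_eq' hb]
    rcases F2_cases b with rfl | rfl
    · rw [map_zero, add_zero, sn_zero, Int.cast_one, one_mul]
    · rw [kT_one, sl_add_T, sn_one]
      simp
  rw [tw, sl_vm (t.four g), zq, RingHom.coe_coe, div_mul_eq_mul_div, div_eq_iff t.ρ_ne] at e2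
  rw [hb, chB_eq (z := t.ρ * sl Q) (b := b) x0 ?_ ?_]
  · change _ = (t.ρ * (1 - II) ^ 1) ^ 2 * X
    linear_combination -t.ρ ^ 2 * e1
  · rw [map_mul, e2]
    ring

/-- At a prime of the twist the descent map takes the values of torsion points. -/
theorem im_tors (t : Tw) (hp : p.Prime) (h2 : p ≠ 2) (h1 : 1 ≤ padicValInt p t.N)
    (h3 : padicValInt p t.N ≤ 3) {x y : Qb} (hx : Fx (Gv p) x) (hy : Fx (Gv p) y) (x0 : x ≠ 0)
    (h : y ^ 2 = x ^ 3 + 4 * t.N * x) :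
    ∃ R : A, (∃ k : ℕ, w ^ k • R = 0) ∧ ∀ g ∈ Gv p, t.cob R g = kT (chB x g) := by
  have N0 : (t.N : Qb) ≠ 0 := Int.cast_ne_zero.2 t.ne
  have p1 : (1 : NNReal) < p := by exact_mod_cast hp.one_lt
  have f0 : Fx (Gv p) (4 * t.N) := fx_mul (ellb_nat _ 4) (fx_int _ t.N)
  have f1 := fx_add (ellb_fx hx 2) f0
  have cl : ∀ X X' : Qb, Fx (Gv p) X → Fx (Gv p) X' → nrm p (X - X') < nrm p X' →
      ∀ g ∈ Gv p, chB X g = chB X' g := fun X X' hX hX' c =>
    chB_close hp le_rfl hX hX' (by rwa [ellc_four hp h2, mul_one])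
  have key : ∀ X : Qb, Fx (Gv p) X → nrm p (x ^ 2 + 4 * t.N - X) < nrm p X →
      ∀ g ∈ Gv p, chB x g = chB X g := fun X hX c g hg => by
    rw [← cl _ _ f1 hX c g hg]
    refine ellb_eq x0 (fun e => ?_) (hx g hg) (f1 g hg) (hy g hg) (by linear_combination -h)
    rw [e, zero_sub, Valuation.map_neg] at c
    exact c.false
  rcases lt_trichotomy (nrm p (x ^ 2)) (nrm p (4 * t.N)) with c | c | c
  · obtain ⟨R, hR⟩ := exists_root 1 (kT 1)
    rw [pow_one] at hR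
    refine ⟨R, ⟨2, by rw [sq, mul_smul, hR, w_kT]⟩, fun g hg => ?_⟩
    rw [t.cob_half hR, one_mul, key _ f0 (by rwa [add_sub_cancel_right]) g hg]
    exact congrArg kT (ellb_eq (mul_ne_zero (by norm_num) N0) N0 (f0 g hg) (map_intCast g _)
      (fx_mul (ellb_nat _ 2) (fx_int _ t.N) g hg) (by ring)).symm
  rotate_left
  · refine ⟨0, ⟨0, smul_zero _⟩, fun g hg => ?_⟩
    rw [ellb_zero, key _ (ellb_fx hx 2) (by rwa [add_sub_cancel_left]) g hg, sq, chB_sq (hx g hg),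
      map_zero]
  have v0 : nrm p x ≠ 0 := (Valuation.ne_zero_iff _).2 x0
  have lt : nrm p (x ^ 2 + 4 * t.N) < nrm p (x ^ 2) := by
    refine lt_of_le_of_ne ((nrm p).map_add_le le_rfl c.ge) fun e => ?_
    have e1 := congrArg (nrm p) h
    rw [show x ^ 3 + 4 * t.N * x = x * (x ^ 2 + 4 * t.N) by ring, map_mul, e, map_pow, map_pow,
      ← pow_succ'] at e1
    have y0 : y ≠ 0 := by
      rintro rfl
      exact x0 (by simpa using e1.symm)
    obtain ⟨j, hj⟩ := nrm_fx hp (fun g hg => hx g (Iv_le hp hg)) x0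
    obtain ⟨m, hm⟩ := nrm_fx hp (fun g hg => hy g (Iv_le hp hg)) y0
    rw [hj, hm, inv_pow, inv_pow, inv_inj, ← zpow_natCast, ← zpow_natCast, ← zpow_mul,
      ← zpow_mul] at e1
    rw [map_pow, map_mul, ellc_four hp h2, nrm_int hp t.ne, one_mul, hj, inv_pow, inv_inj,
      ← zpow_natCast, ← zpow_natCast, ← zpow_mul] at c
    have k1 := zpow_right_injective₀ (one_pos.trans p1) p1.ne' e1
    have k2 := zpow_right_injective₀ (one_pos.trans p1) p1.ne' c
    push_cast at k1 k2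
    omega
  have f2 : Fx (Gv p) (-4 * t.N) := fun g hg => by simp [map_ofNat]
  have f3 : Fx (Gv p) (rt (-4 * t.N)) := fx_rt f2 fun g hg => by
    rw [cl _ _ f2 (ellb_fx hx 2) (by
      rwa [show -4 * (t.N : Qb) - x ^ 2 = -(x ^ 2 + 4 * t.N) by ring, Valuation.map_neg]) g hg, sq,
      chB_sq (hx g hg)]
  have e3 := rt_mul_self (-4 * (t.N : Qb))
  generalize rt (-4 * (t.N : Qb)) = r at f3 e3
  have fin : ∀ s : Qb, Fx (Gv p) s → s * s = -4 * t.N → nrm p (x - s) < nrm p s →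
      ∃ R : A, (∃ k : ℕ, w ^ k • R = 0) ∧ ∀ g ∈ Gv p, t.cob R g = kT (chB x g) :=
    fun s hs es c => by
      obtain ⟨R, k, hR⟩ := t.two_tors hs ((sq s).trans es)
      exact ⟨R, k, fun g hg => by rw [hR g hg, cl _ _ hx hs c g hg]⟩
  by_cases a : nrm p (x - r) < nrm p r
  · exact fin r f3 e3 a
  refine fin (-r) (fun g hg => by rw [map_neg, f3 g hg]) (by linear_combination e3) ?_
  rw [Valuation.map_neg]
  by_contra b
  have k := mul_le_mul' (not_lt.1 a) (not_lt.1 b)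
  rw [← map_mul, ← map_mul, e3, show (x - r) * (x - -r) = x ^ 2 + 4 * t.N by
    linear_combination -e3, neg_mul, Valuation.map_neg, ← c] at k
  exact lt.not_ge k

theorem Loc.locT3 (hp : p.Prime) (h2 : p ≠ 2) (h1 : 1 ≤ padicValInt p t.N)
    (h3 : padicValInt p t.N ≤ 3) (hn : ∀ g ∈ Gv p, w ^ n • c g = 0) (h : t.Loc p c) :
    t.LocT p c := by
  obtain ⟨Q, hQ⟩ := h
  suffices H : ∃ Q' : A, (∃ k : ℕ, w ^ k • Q' = 0) ∧ ∀ g ∈ Gv p, t.cob Q g = t.cob Q' g by
    obtain ⟨Q', h1, h3⟩ := H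
    exact ⟨Q', h1, fun g hg => (hQ g hg).trans (h3 g hg)⟩
  replace hn : ∀ g ∈ Gv p, w ^ n • t.cob Q g = 0 := fun g hg => hQ g hg ▸ hn g hg
  clear hQ
  induction n generalizing t Q with
  | zero => exact ⟨0, ⟨0, smul_zero _⟩, fun g hg => by simpa [ellb_zero] using hn g hg⟩
  | succ n ih =>
    have hv : padicValInt p (t.it 1).N = padicValInt p t.N := by
      have := Fact.mk hp
      change padicValInt p ((-4) ^ 1 * t.N) = _
      rw [padicValInt.mul (by norm_num) t.ne,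
        padicValInt.eq_zero_of_not_dvd (ellT_not_dvd hp h2 1), zero_add]
    obtain ⟨Q1, ⟨k, hk⟩, h4⟩ := ih (hv ▸ h1) (hv ▸ h3) (w • Q) fun g hg => by
      rw [← ellb_w, ← mul_smul, ← pow_succ, hn g hg]
    obtain ⟨Q0, rfl⟩ := exists_root 1 Q1
    rw [pow_one] at hk h4
    obtain ⟨R, ⟨j, hj⟩, hR⟩ : ∃ R : A, (∃ j : ℕ, w ^ j • R = 0) ∧
        ∀ g ∈ Gv p, t.cob (Q - Q0) g = t.cob R g := by
      rcases t.cob_im (H := Gv p) (Q := Q - Q0) fun g hg => by
        rw [ellb_sub, smul_sub, ellb_w, ellb_w, h4 g hg, sub_self] with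
        ⟨b, e⟩ | ⟨x, y, hx, hy, x0, e, l⟩
      · obtain ⟨R, k, hR⟩ := t.locT_del p b
        exact ⟨R, k, fun g hg => (e g).trans (hR g hg)⟩
      · obtain ⟨R, k, hR⟩ := t.im_tors hp h2 h1 h3 hx hy x0 e
        exact ⟨R, k, fun g hg => (l g hg).trans (hR g hg).symm⟩
    refine ⟨Q0 + R, ⟨j + (k + 1), ?_⟩, fun g hg => ?_⟩
    · rw [smul_add, pow_add, mul_smul, pow_succ, mul_smul, hk, smul_zero, zero_add, mul_comm,
        mul_smul, hj, smul_zero]
    · rw [cob_add, Pi.add_apply, ← hR g hg, ellb_sub, add_sub_cancel]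

theorem IsSel.isZ3 (ht : QA.Fam t.N) (h : t.IsSel n c) : t.IsZ ∅ n c :=
  ⟨h.tors, h.coc, h.lc, fun v hv => h.loc v (hv.imp_right fun e : v = 2 => e ▸ Nat.prime_two),
    fun q hq h2 hd _ => Loc.locT3 hq h2 (ht.val hq hd).1 (ht.val hq hd).2 (fun g _ => h.tors g)
      (h.loc q (Or.inr hq)),
    fun _ hv => hv.elim, fun p hp h2 hd => loc_good hp h2 hd h.tors (h.loc p (Or.inr hp))⟩

end Pool.Agent.Lib.MP_696deb_nt.Q4.Tw
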