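import Pool.Agent.Lib.MP_696deb_nt.Q4.SelB

/-! Primes of odd valuation, reciprocity. -/

set_option autoImplicit false

open scoped Classical
open Finset

namespace Pool.Agent.Lib.MP_696deb_nt.Q4

open Sm

namespace Tw

/-- The valuation of the twist at `q` is odd. -/
def U (t : Tw) (q : ℕ) : Prop := chi t.N (sig q) = 1

variable {t : Tw} {J : Set ℕ} {n p : ℕ} {c : GQ → A}

theorem U_of (hp : p.Prime) (h2 : p ≠ 2) (h : padicValInt p t.N = 1) : t.U p := by
  rw [U, chi_sig hp h2 t.ne, h, Nat.cast_one]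

theorem U.it (h : t.U p) (hp : p.Prime) (h2 : p ≠ 2) (k : ℕ) : (t.it k).U p := by
  rw [U, chi_it, h, chi_sig_of_not_dvd hp h2 fun e =>
    (Nat.prime_iff_prime_int.1 hp).not_dvd_one (dvd_neg.1 e), mul_zero, add_zero]

theorem U.unit (h : t.U p) : IsUnit (uu (zq t.ρ (sig p))) := by
  refine isUnit_uu ?_
  rw [zq_sq t.ne t.pw, h, sn_one]
  simp

theorem LocT.oneU (hp : p.Prime) (h2 : p ≠ 2) (hN : t.U p) (h : t.LocT p c) {b : F2}
    (hb : c (sig p) = kT b) : ∀ g ∈ Gv p, c g = kT (b * chi t.N g) := by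
  obtain ⟨Q, ⟨k, hk⟩, hQ⟩ := h
  have hu := hN.unit
  rw [hQ _ (sig_mem hp h2), t.cob_sig hp h2 hk] at hb
  have h1 : w • w • Q = 0 := by
    rw [← hu.smul_eq_zero, smul_comm, hb, w_kT]
  rw [unit_smul hu h1] at hb
  exact fun g hg => (hQ g hg).trans (t.cob_half hb g)

theorem locT_sum {ι : Type} (t : Tw) (v : ℕ) (s : Finset ι) (k : ι → ℤ) (c : ι → GQ → A)
    (h : ∀ i ∈ s, k i ≠ 0 → t.LocT v (c i)) : t.LocT v (∑ i ∈ s, k i • c i) := by
  refine Finset.sum_induction _ (t.LocT v) (fun _ _ => LocT.add) (t.locT_zero v) fun i hi => ?_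
  by_cases e : k i = 0
  · rw [e, zero_smul]
    exact t.locT_zero v
  · exact (h i hi e).zsmul _

/-- Reciprocity: a homomorphism that is Selmer up to unramified defects on `J` and at `r`,
paired with a Selmer class of the other side that is unramified on `J`. -/
theorem recipU {r : ℕ} {d b : ℤ} (hd : d ≠ 0) (b0 : b ≠ 0)
    (hJ : ∀ q ∈ insert r J, q.Prime ∧ q ≠ 2 ∧ (q : ℤ) ∣ t.N) (ht : ∀ q ∈ insert r J, t.U q)
    (hc : t.IsZ (insert r J) 1 (kum d)) (hb : (t.it 1).IsZ ∅ 1 (kum b))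
    (hbJ : ∀ q ∈ J, q ≠ r → chi b (sig q) = 0) {u : GQ → A} (hu : u (sig r) = 0)
    (hl : t.LocT r (kum d - u)) {a : F2} (ha : u (frb r) = kT a) : a * chi b (sig r) = 0 := by
  obtain ⟨rp, r2, rN⟩ := hJ r (Set.mem_insert _ _)
  have lb : ∀ q : ℕ, q.Prime → q ≠ 2 → (q : ℤ) ∣ t.N → q ∈ insert r J →
      ∀ g ∈ Gv q, chi b g = chi b (sig q) * chi (t.it 1).N g := fun q hq q2 qN qJ g hg =>
    kT_inj (LocT.oneU hq q2 ((ht q qJ).it hq q2 1)
      (hb.ram q hq q2 ((t.dvd_it hq q2 1).2 qN) (Set.notMem_empty q)) rfl g hg)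
  have k0 : ∀ {x : F2}, kT x = 0 → x = 0 := fun h => kT_inj (h.trans (map_zero kT).symm)
  have N0 : (2 * r * (d * b)).natAbs ≠ 0 := by simp [hd, b0, rp.ne_zero]
  have mem : ∀ p : ℕ, p.Prime → (p : ℤ) ∣ 2 * r * (d * b) →
      p ∈ insert 0 (2 * r * (d * b)).natAbs.primeFactors := fun p hp h =>
    mem_insert_of_mem (Nat.mem_primeFactors.2 ⟨hp, Int.natCast_dvd.1 h, N0⟩)
  have hV : ∀ v ∈ insert 0 (2 * r * (d * b)).natAbs.primeFactors, v = 0 ∨ v.Prime :=
    fun v hv => (mem_insert.1 hv).imp_right Nat.prime_of_mem_primeFactors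
  have s1 := hs_sum hd b0 _ (mem_insert_self _ _)
    (mem 2 Nat.prime_two ((dvd_mul_right _ _).mul_right _)) hV fun p hp h =>
      mem p hp (h.mul_left _)
  have s3 : hs r d b = 0 := by
    rw [← s1, sum_eq_single_of_mem r (mem r rp ((dvd_mul_left _ _).mul_right _)) fun v hv hr => ?_]
    by_cases k : v = 0 ∨ v = 2
    · exact loc_iso (hV v hv) hd b0 (hc.loc v k) (hb.loc v k)
    have vp := (hV v hv).resolve_left fun h => k (Or.inl h)
    have v2 : v ≠ 2 := fun h => k (Or.inr h)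
    by_cases vN : (v : ℤ) ∣ t.N
    · by_cases k' : v ∈ insert r J
      · rw [hs_comm]
        refine hs_triv (Or.inr vp) b0 hd fun g hg => ?_
        rw [lb v vp v2 vN k' g hg, hbJ v (k'.resolve_left hr) hr, zero_mul]
      · exact loc_iso (hV v hv) hd b0 (hc.ram v vp v2 vN k').loc
          (hb.ram v vp v2 ((t.dvd_it vp v2 1).2 vN) (Set.notMem_empty v)).loc
    · rw [hs_odd vp v2 hd b0, k0 (hc.unr v vp v2 vN),
        k0 (hb.unr v vp v2 fun h => vN ((t.dvd_it vp v2 1).1 h))]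
      simp
  have t1 := LocT.oneU rp r2 (ht r (Set.mem_insert _ _)) hl (b := chi d (sig r))
    (by rw [Pi.sub_apply, hu, sub_zero, kum]) _ (frb_mem rp r2)
  rw [Pi.sub_apply, ha, kum, ← map_sub] at t1
  have t2 := kT_inj t1
  have t3 := lb r rp r2 rN (Set.mem_insert _ _) _ (frb_mem rp r2)
  rw [chi_it, chi_frb rp r2 (d := -1) fun h =>
    (Nat.prime_iff_prime_int.1 rp).not_dvd_one (dvd_neg.1 h), Nat.cast_one, one_mul] at t3
  rw [hs_odd rp r2 hd b0, t3, sub_eq_iff_eq_add.1 t2] at s3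
  have two : (2 : F2) = 0 := rfl
  linear_combination s3 - (chi d (sig r) * chi b (sig r) *
    (chi t.N (frb r) + aleg r (-1))) * two

end Tw

end Pool.Agent.Lib.MP_696deb_nt.Q4
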