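import Pool.Agent.Lib.MP_696deb_nt.Sm.PatC

/-! Boxes with an additional factor. -/

set_option autoImplicit false

open scoped Classical
open Finset Function

namespace Pool.Agent.Lib.MP_696deb_nt.QA

open Sm

/-- A box together with an additional factor of the twisting parameter. -/
structure EB extends Box where
  e : ℕ

namespace EB

variable (B : EB)

/-- The primes of the additional factor divide the fixed part. -/
def Ed : Prop := B.e ≠ 0 ∧ ∀ p : ℕ, p.Prime → p ∣ B.e → (p : ℤ) ∣ B.D0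

structure Wf : Prop extends B.toBox.Wf where
  ed : B.Ed

structure Hyp (c : ℕ) : Prop where
  hyp : B.toBox.Hyp c
  ed : B.Ed

/-- The indices of the primes that divide the twisting parameter exactly once and not 30. -/
def PE (k : B.Ix) : Prop := B.PI k ∧ ∀ q : B.Q0, k = .inl (some q) → ¬ (q : ℕ) ∣ B.e

/-- The conditions at these primes. -/
def RelE (a : B.Mat) (P : B.Pat × B.Pat) : Prop := ∀ k, B.PE k →
  B.lam a k (P.1 + P.1 k • (B.dD + B.pat B.e)) = 0 ∧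
    B.lam a k (P.2 + P.2 k • (B.dD + B.pat B.e + B.pat (-1))) = 0

/-- Genericity of a Legendre matrix. -/
structure qG (K : ℕ) (a : B.Mat) : Prop where
  g1 : ({P | B.RelE a P} : Finset (B.Pat × B.Pat)).card ≤ K
  g2 : ∀ P P', B.RelE a P → B.RelE a P' → ¬ (Box.Cst (B.lg P.1) ∧ Box.Cst (B.lg P'.2)) → ∀ k,
    2 * K ^ 2 * |∑ j ∈ B.I k, sn (B.lg P.1 j + B.lg P'.2 j)| ≤ (B.I k).card

variable {B} {a : B.Mat} {P P' : B.Pat × B.Pat} {K c c' : ℕ}

theorem Hyp.wf (h : B.Hyp c) : B.Wf := ⟨h.hyp.wf, h.ed⟩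

theorem Hyp.mono (h : B.Hyp c') (hc : c ≤ c') : B.Hyp c := ⟨h.hyp.mono hc, h.ed⟩

theorem PE_inr (j : Fin B.r) : B.PE (.inr j) := ⟨trivial, fun _ h => by cases h⟩

theorem RelE.zero : B.RelE a 0 := by
  intro k _
  simp [Box.lam]

theorem RelE.add (h : B.RelE a P) (h' : B.RelE a P') : B.RelE a (P + P') := by
  intro k hk
  have e : ∀ (A A' X : B.Pat) (s s' : F2), A + A' + (s + s') • X =
      A + s • X + (A' + s' • X) := fun A A' X s s' => by
    rw [add_smul]; abel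
  simp only [Prod.fst_add, Prod.snd_add, Pi.add_apply, e, Box.lam_add a k (_ + _)]
  rw [(h k hk).1, (h k hk).2, (h' k hk).1, (h' k hk).2, add_zero]
  exact ⟨rfl, rfl⟩

theorem RelE.eq_zero (hB : B.Hyp 1) (h : B.RelE a P) (h1 : B.lg P.1 = 0)
    (h2 : B.lg P.2 = 0) : P = 0 := by
  refine Prod.ext (Box.patc_small (a := a) hB.hyp h1 fun j => ?_)
    (Box.patc_small (a := a) hB.hyp h2 fun j => ?_)
  · have k := (h (.inr j) (PE_inr j)).1
    rwa [show P.1 (.inr j) = 0 from congrFun h1 j, zero_smul, add_zero] at k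
  · have k := (h (.inr j) (PE_inr j)).2
    rwa [show P.2 (.inr j) = 0 from congrFun h2 j, zero_smul, add_zero] at k

/-- A small set of indices that detects all patterns. -/
theorem exists_Jev (hB : B.Hyp 1) (hG : B.qG K a) :
    ∃ Jev : Finset (Fin B.r), Jev.card ≤ K ∧ ∀ P, B.RelE a P →
      (∀ j ∈ Jev, P.1 (.inr j) = 0 ∧ P.2 (.inr j) = 0) → P = 0 := by
  have k : ∀ P ∈ ({P | B.RelE a P ∧ P ≠ 0} : Finset (B.Pat × B.Pat)),
      ∃ j, ¬ (P.1 (.inr j) = 0 ∧ P.2 (.inr j) = 0) := fun P hP => by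
    obtain ⟨-, h1, h2⟩ := mem_filter.1 hP
    by_contra hc
    push Not at hc
    exact h2 (h1.eq_zero hB (funext fun j => (hc j).1) (funext fun j => (hc j).2))
  choose f hf using k
  refine ⟨image (fun P => f P.1 P.2) (attach _), card_image_le.trans ?_, fun P hP h => ?_⟩
  · rw [card_attach]
    exact (card_le_card (monotone_filter_right _ fun P _ h => h.1)).trans hG.g1
  · by_contra h0
    have hm : P ∈ ({P | B.RelE a P ∧ P ≠ 0} : Finset (B.Pat × B.Pat)) :=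
      mem_filter.2 ⟨mem_univ _, hP, h0⟩
    exact hf P hm (h _ (mem_image.2 ⟨⟨P, hm⟩, mem_attach _ _, rfl⟩))

/-- Indices with a prescribed behaviour on the patterns that vanish at `j0`. -/
theorem exists_idx {m : ℕ} (hB : B.Hyp (2 * K ^ 2 * (m + 1))) (hG : B.qG K a)
    (j0 j1 j2 : Fin B.r) (s t : F2) (k : Fin 3) (F : Finset (Fin B.r)) (hF : F.card ≤ m) :
    ∃ j ∈ B.I k, j ∉ F ∧ ∀ P, B.RelE a P → P.1 (.inr j0) = 0 → P.2 (.inr j0) = 0 →
      P.1 (.inr j) = s * P.1 (.inr j1) ∧ P.2 (.inr j) = t * P.2 (.inr j2) := by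
  obtain ⟨Z, hZ⟩ : ∃ Z : Finset (B.Pat × B.Pat), ∀ P, P ∈ Z ↔
      B.RelE a P ∧ P.1 (.inr j0) = 0 ∧ P.2 (.inr j0) = 0 :=
    ⟨univ.filter _, fun P => mem_filter_univ P⟩
  have c : Z.card ≤ K :=
    (card_le_card fun P hP => mem_filter.2 ⟨mem_univ _, ((hZ P).1 hP).1⟩).trans hG.g1
  have z : 0 ∈ Z := (hZ 0).2 ⟨RelE.zero, rfl, rfl⟩
  have ad : ∀ P ∈ Z, ∀ P' ∈ Z, P + P' ∈ Z := fun P hP P' hP' => by
    obtain ⟨k1, k2, k3⟩ := (hZ P).1 hP
    obtain ⟨l1, l2, l3⟩ := (hZ P').1 hP'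
    exact (hZ _).2 ⟨k1.add l1, by simp [k2, l2], by simp [k3, l3]⟩
  have nc : ∀ w : Fin B.r → F2, w j0 = 0 → Box.Cst w → w = 0 := fun w h hw =>
    hw.resolve_right fun e => by rw [e] at h; exact one_ne_zero h
  have im : ∀ f : B.Pat × B.Pat → Fin B.r → F2, f 0 = 0 → (∀ P P', f (P + P') = f P + f P') →
      ∃ V : Finset (Fin B.r → F2), V.card ≤ K ∧ 0 ∈ V ∧ (∀ u ∈ V, ∀ v ∈ V, u + v ∈ V) ∧
        ∀ u, u ∈ V ↔ ∃ P ∈ Z, f P = u := fun f f0 fa => by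
    refine ⟨Z.image f, card_image_le.trans c, mem_image.2 ⟨0, z, f0⟩, fun u hu v hv => ?_,
      fun u => mem_image⟩
    obtain ⟨P, hP, rfl⟩ := mem_image.1 hu
    obtain ⟨P', hP', rfl⟩ := mem_image.1 hv
    exact mem_image.2 ⟨_, ad P hP P' hP', fa P P'⟩
  obtain ⟨V1, c1, z1, a1, m1⟩ := im (fun P => B.lg P.1) rfl fun _ _ => rfl
  obtain ⟨V2, c2, z2, a2, m2⟩ := im (fun P => B.lg P.2) rfl fun _ _ => rfl
  have h := four_count (B.I k) V1 V2 c1 c2 z1 z2 a1 a2 (fun u hu v hv h0 => by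
    obtain ⟨P, hP, rfl⟩ := (m1 u).1 hu
    obtain ⟨P', hP', rfl⟩ := (m2 v).1 hv
    exact hG.g2 P P' ((hZ P).1 hP).1 ((hZ P').1 hP').1 (fun h => h0
      ⟨nc (B.lg P.1) ((hZ P).1 hP).2.1 h.1, nc (B.lg P'.2) ((hZ P').1 hP').2.2 h.2⟩) k) s t j1 j2
  have hK : 0 < 2 * K ^ 2 := by
    have : 0 < K := (card_pos.2 ⟨_, z⟩).trans_le c
    positivity
  have h1 := Nat.le_of_mul_le_mul_left ((((Nat.le_mul_of_pos_right _
    (Nat.succ_pos B.Q0.card)).trans hB.hyp.hH).trans (hB.hyp.win k)).trans h) hK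
  obtain ⟨j, hj, hj'⟩ := exists_mem_notMem_of_card_lt_card ((Nat.lt_succ_of_le hF).trans_le h1)
  simp only [mem_filter] at hj
  obtain ⟨k1, k2, k3⟩ := hj
  exact ⟨j, k1, hj', fun P hP p1 p2 =>
    ⟨k2 _ ((m1 _).2 ⟨P, (hZ P).2 ⟨hP, p1, p2⟩, rfl⟩),
      k3 _ ((m2 _).2 ⟨P, (hZ P).2 ⟨hP, p1, p2⟩, rfl⟩)⟩⟩

/-- The directions of a grid. -/
theorem exists_dirs {n m : ℕ} (hB : B.Hyp (2 * K ^ 2 * (m + n + 3)))
    (hG : B.qG K a) (j0 j1 j2 j3 j4 : Fin B.r) (s t s' t' : F2)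
    (F : Finset (Fin B.r)) (hF : F.card ≤ m) :
    ∃ σ : Fin n ⊕ Bool → Fin B.r, Injective σ ∧ (∀ i, σ i ∉ F) ∧ (∀ j, σ (.inl j) ∈ B.I 0) ∧
      σ (.inr false) ∈ B.I 1 ∧ σ (.inr true) ∈ B.I 2 ∧
      ∀ P, B.RelE a P → P.1 (.inr j0) = 0 → P.2 (.inr j0) = 0 →
        (∀ j, P.1 (.inr (σ (.inl j))) = 0 ∧ P.2 (.inr (σ (.inl j))) = 0) ∧
        (P.1 (.inr (σ (.inr true))) = s * P.1 (.inr j1) ∧
          P.2 (.inr (σ (.inr true))) = t * P.2 (.inr j2)) ∧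
        (P.1 (.inr (σ (.inr false))) = s' * P.1 (.inr j3) ∧
          P.2 (.inr (σ (.inr false))) = t' * P.2 (.inr j4)) := by
  have key := exists_idx (m := m + n + 2) hB hG j0
  obtain ⟨G, hGm⟩ : ∃ G : Finset (Fin B.r), ∀ j, j ∈ G ↔ j ∈ B.I 0 ∧ j ∉ F ∧
      ∀ P, B.RelE a P → P.1 (.inr j0) = 0 → P.2 (.inr j0) = 0 →
        P.1 (.inr j) = 0 ∧ P.2 (.inr j) = 0 :=
    ⟨univ.filter _, fun j => mem_filter_univ j⟩
  have hn : n ≤ G.card := by
    by_contra hc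
    obtain ⟨j, k1, k2, k3⟩ := key j0 j0 0 0 0 (F ∪ G) ((card_union_le _ _).trans (by omega))
    refine k2 (mem_union_right _ ((hGm j).2 ⟨k1, fun h => k2 (mem_union_left _ h), ?_⟩))
    simpa only [zero_mul] using k3
  have hτ := fun i => (hGm _).1 (orderEmbOfCardLe_mem G hn i)
  have inj := (orderEmbOfCardLe G hn).injective
  generalize (orderEmbOfCardLe G hn : Fin n → Fin B.r) = τ at hτ inj
  have c : (F ∪ univ.image τ).card ≤ m + n :=
    (card_union_le _ _).trans (add_le_add hF (card_image_le.trans (by simp)))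
  obtain ⟨u, u1, u2, u3⟩ := key j1 j2 s t 2 _ (c.trans (by omega))
  obtain ⟨v, v1, v2, v3⟩ := key j3 j4 s' t' 1 (insert u (F ∪ univ.image τ))
    ((card_insert_le _ _).trans (by omega))
  simp only [mem_insert, mem_union, mem_image, mem_univ, true_and, not_or, not_exists] at u2 v2
  refine ⟨Sum.elim τ fun b => cond b u v, ?_, ?_, fun j => (hτ j).1, v1, u1,
    fun P hP p1 p2 => ⟨fun j => (hτ j).2.2 P hP p1 p2, u3 P hP p1 p2, v3 P hP p1 p2⟩⟩
  · rintro (i | _ | _) (j | _ | _) h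
    · exact congrArg _ (inj h)
    · exact (v2.2.2 i h).elim
    · exact (u2.2 i h).elim
    · exact (v2.2.2 j h.symm).elim
    · rfl
    · exact (v2.1 h).elim
    · exact (u2.2 j h.symm).elim
    · exact (v2.1 h.symm).elim
    · rfl
  · rintro (i | _ | _)
    · exact (hτ i).2.1
    · exact v2.2.1
    · exact u2.1

end EB

end Pool.Agent.Lib.MP_696deb_nt.QA
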