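import Pool.Agent.Lib.MP_696deb_nt.QA.GenA
import Pool.Agent.Lib.MP_696deb_nt.QA.Bx
import Pool.Agent.Lib.MP_696deb_nt.Sa.Gen

/-! Most Legendre matrices are generic. -/

set_option autoImplicit false

open Finset
open scoped Classical

namespace Pool.Agent.Lib.MP_696deb_nt.QA

open Sm Sa

/-- The small primes of the additional factor. -/
noncomputable def EB.EE (B : EB) : Finset (QQ B.toBox) := univ.filter fun q => (q.1 : ℕ) ∣ B.e

theorem genb_lin {B : Box} (a : B.Mat) (k : B.Ix) (P Q : B.Pat) (s : F2) :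
    B.lam a k (P + s • Q) = B.lam a k P + s * B.lam a k Q := by
  simp only [Box.lam, Pi.add_apply, Pi.smul_apply, smul_eq_mul, add_mul, sum_add_distrib, mul_sum,
    mul_assoc]

theorem genb_pe {B : EB} {p : B.Ix → Prop} : (∀ k, B.PE k → p k) ↔
    (∀ j, p (.inr j)) ∧ ∀ q : QQ B.toBox, q ∉ B.EE → p (.inl (some q.1)) := by
  refine ⟨fun h => ⟨fun j => h _ (EB.PE_inr j), fun q hq => h _ ⟨⟨q.1, rfl, q.2⟩,
    fun q' e k => hq (mem_filter.2 ⟨mem_univ _, ?_⟩)⟩⟩, ?_⟩
  · rwa [Option.some.inj (Sum.inl.inj e)]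
  · rintro ⟨h1, h2⟩ (g | j) h
    · obtain ⟨⟨q, rfl, hq⟩, h3⟩ := h
      exact h2 ⟨q, hq⟩ fun k => h3 q rfl (mem_filter.1 k).2
    · exact h1 j

theorem genb_neg {B : EB} (h : B.Ed) : B.spat (-B.e) = B.spat B.e + B.spat (-1) := by
  rw [← mul_neg_one, spat_mul (Int.natCast_ne_zero.2 h.1) (by norm_num)]

theorem relE_iff {B : EB} (h : B.Wf) (a : B.Mat) (P : B.Pat × B.Pat) :
    B.RelE a P ↔ (gd B.toBox B.e 1 (-B.e)).RelE B.EE a (spl B.toBox P.1, spl B.toBox P.2) := by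
  have e0 : B.dD + B.pat B.e + B.pat (-1) = B.dD + B.pat (-B.e) := by
    rw [add_assoc]
    refine congrArg _ (funext fun k => ?_)
    rcases k with g | j
    · exact (congrFun (genb_neg h.ed) g).symm
    · exact add_zero (0 : F2)
  have e1 : ∀ {x y : F2}, x = y → (x = 0 ↔ y = 0) := fun h => by rw [h]
  have e2 : ∀ {x y z : F2}, x = y + z → (x = 0 ↔ y = z) := fun h => by
    rw [h, CharTwo.add_eq_zero]
  rw [EB.RelE, e0, genb_pe]
  simp only [imp_and, forall_and]
  rw [and_and_and_comm]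
  simp only [genb_lin, gen_r, gen_l]
  refine and_congr (and_congr (forall_congr' fun j => e1 ?_)
    (forall_congr' fun j => imp_congr_right fun _ => e2 ?_))
    (and_congr (forall_congr' fun j => e1 ?_)
      (forall_congr' fun j => imp_congr_right fun _ => e2 ?_)) <;>
  · simp only [gd, spl, LL, Box.lg, Box.dD, Box.pat, Box.nu, srow, AddMonoidHom.mk'_apply,
      Pi.add_apply, Sum.elim_inl, Sum.elim_inr, Pi.zero_apply, Pi.one_apply, add_mul, mul_add,
      zero_mul, one_mul, sum_add_distrib, mul_sum, sum_const_zero]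
    ring

theorem genb_u3 (B : EB) : (gd B.toBox B.e 1 (-B.e)).u3 = 0 := spat_sq one_ne_zero IsSquare.one

theorem gd_okE {B : EB} {c : ℕ} (h : B.Hyp c) (hc : 1 ≤ c) : (gd B.toBox B.e 1 (-B.e)).OK B.H := by
  have k := gd_ok h.hyp hc (A1 := 1) (B1 := 1) (A2 := 1) (B2 := -1) (by norm_num)
    (fun p hp k => absurd (Int.natCast_dvd.1 k) (by simpa using hp.ne_one)) ⟨1, by norm_num⟩
    fun ⟨r, k⟩ => by nlinarith [mul_self_nonneg r]
  have m1 : B.spat (-1) ≠ 0 := fun k => absurd (congrFun k none) (by simp [Box.spat])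
  have e : (gd B.toBox B.e 1 (-B.e)).u1 + (gd B.toBox B.e 1 (-B.e)).u2 = B.spat (-1) := by
    change B.spat B.D0 + B.spat B.e + (B.spat B.D0 + B.spat (-B.e)) = _
    rw [genb_neg h.ed, ← add_assoc (B.spat B.D0), ← add_assoc, genc_two, zero_add]
  exact ⟨k.cor1, k.ind, k.cardQ, e ▸ m1, by rwa [e, genb_u3, add_zero], k.B1, k.B2, k.H1⟩

theorem genb_of {B : EB} (h : B.Wf) {K : ℕ} (hK : 0 < K) {a : B.Mat}
    (hg : (gd B.toBox B.e 1 (-B.e)).GenE B.EE K a) : B.qG K a := by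
  have hc : ∀ w : Fin B.r → F2, Box.Cst w ↔ Cst w := fun w =>
    ⟨fun k i j => by rcases k with rfl | rfl <;> rfl, genc_cst⟩
  refine ⟨le_trans (card_le_card_of_injOn (fun P => (spl B.toBox P.1, spl B.toBox P.2))
    (fun P hP => ?_) fun P _ P' _ k => ?_) hg.1, fun P P' h1 h2 h3 k => ?_⟩
  · simpa using (relE_iff h a P).1 (by simpa using hP)
  · have e : ∀ {A A' : B.Pat}, spl B.toBox A = spl B.toBox A' → A = A' := fun k =>
      funext fun i => by
        rcases i with g | j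
        · exact congrFun (congrArg Prod.fst k) g
        · exact congrFun (congrArg Prod.snd k) j
    exact Prod.ext (e (congrArg Prod.fst k)) (e (congrArg Prod.snd k))
  · have h4 := hg.2 _ _ ((relE_iff h a P).1 h1) ((relE_iff h a P').1 h2)
      (fun k => h3 ⟨(hc _).2 k.1, (hc _).2 k.2⟩) k
    rw [le_div_iff₀' (by positivity)] at h4
    have e : ∀ b : F2, sg b = (sn b : ℝ) := fun b => by unfold sg sn; split_ifs <;> simp
    simp only [e] at h4
    exact_mod_cast h4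

theorem genb_card {B : EB} (h : B.Ed) : B.EE.card ≤ B.e := by
  refine le_trans (card_le_card_of_injOn (fun q => (q.1 : ℕ)) (fun q hq => ?_)
    fun q _ q' _ k => Subtype.ext (Subtype.ext k)) (Nat.card_divisors_le_self B.e)
  exact Nat.mem_divisors.2 ⟨(mem_filter.1 hq).2, h.1⟩

theorem gen_mainE (e : ℕ) {ε : ℝ} (hε : 0 < ε) : ∃ K c : ℕ, ∀ B : EB, B.e = e → B.Hyp c →
    (({a | ¬ B.qG K a} : Finset B.Mat).card : ℝ) ≤ ε * Fintype.card B.Mat := by
  obtain ⟨K, C, hK, h⟩ := gen_absE e hε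
  refine ⟨K, max C 1, fun B he hB => ?_⟩
  refine le_trans (Nat.cast_le.2 (card_le_card fun a ha => ?_))
    (h _ _ _ (gd B.toBox B.e 1 (-B.e)) B.H B.EE (gd_okE hB (le_max_right _ _)) (genb_u3 B)
      (he ▸ genb_card hB.ed) (le_trans ?_ hB.hyp.hH))
  · exact mem_filter.2 ⟨mem_univ _, fun k => (mem_filter.1 ha).2 (genb_of hB.wf hK k)⟩
  · rw [Fintype.card_option, Fintype.card_coe]
    exact Nat.mul_le_mul_right _ (le_max_left _ _)

end Pool.Agent.Lib.MP_696deb_nt.QA
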