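import Pool.Agent.Lib.MP_696deb_nt.Q4.Refine

/-! Fourth roots of primes at finitely many places. -/

set_option autoImplicit false

open scoped Classical
open Finset Function

namespace Pool.Agent.Lib.MP_696deb_nt.QA

open Sm Q4

/-- An integer that is congruent to a fourth power is a fourth power at an odd prime. -/
theorem ref_four {q : ℕ} (hq : q.Prime) (h2 : q ≠ 2) {n c : ℤ} (hc : ¬ (q : ℤ) ∣ c)
    (h : (q : ℤ) ∣ n - c ^ 4) : ∃ z : Qb, z ^ 4 = n ∧ Fx (Gv q) z := by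
  have c1 : nrm q ((c : Qb) * c) = 1 := by rw [map_mul, (nrm_int_eq_one hq).2 hc, mul_one]
  have f2 : Fx (Gv q) ((c : Qb) * c) := fun g _ => by rw [map_mul, map_intCast]
  have f4 : Fx (Gv q) ((c : Qb) * c * (c * c)) := fun g hg => by rw [map_mul, f2 g hg]
  have hn : nrm q ((n : Qb) - c * c * (c * c)) < 1 := by
    have := (nrm_int_lt hq).2 h
    rwa [show ((n - c ^ 4 : ℤ) : Qb) = n - c * c * (c * c) by push_cast; ring] at this
  have hs : Fx (Gv q) (rt (n : Qb)) := fx_rt (fx_int _ n) fun g hg => by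
    rw [chB_close hq le_rfl (fx_int _ n) f4
      (by rwa [map_mul, c1, ellc_four hq h2, mul_one, mul_one]) g hg, chB_sq (f2 g hg)]
  have key : ∃ s : Qb, s * s = n ∧ Fx (Gv q) s ∧ nrm q (s - c * c) < 1 := by
    by_contra k
    push Not at k
    have a1 := k _ (rt_mul_self _) hs
    have a2 := k (-rt (n : Qb)) (by rw [neg_mul_neg, rt_mul_self])
      (fun g hg => by rw [map_neg, hs g hg])
    have a3 : (rt (n : Qb) - c * c) * (-rt (n : Qb) - c * c) = -(n - c * c * (c * c)) := by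
      linear_combination -rt_mul_self (n : Qb)
    have a4 := one_le_mul a1 a2
    rw [← map_mul, a3, Valuation.map_neg] at a4
    exact hn.not_ge a4
  obtain ⟨s, s1, s2, s3⟩ := key
  refine ⟨rt s, ?_, fx_rt s2 fun g hg => ?_⟩
  · rw [show rt s ^ 4 = (rt s * rt s) * (rt s * rt s) by ring, rt_mul_self, s1]
  · rw [chB_close hq le_rfl s2 f2 (by rwa [c1, ellc_four hq h2, mul_one]) g hg,
      chB_sq (map_intCast g c)]

theorem ref_gen {H : Subgroup GQ} {p c : ℤ} (p0 : p ≠ 0) (c0 : c ≠ 0) {z : Qb}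
    (z1 : z ^ 4 = ((p * c ^ 3 : ℤ) : Qb)) (z2 : Fx H z) :
    (∀ g ∈ H, zq (q4 p) g = zq (q4 c) g) ∨ ∀ g ∈ H, zq (q4 p) g = zq II g * zq (q4 c) g := by
  have n0 : ((p * c ^ 3 : ℤ) : Qb) ≠ 0 := by
    exact_mod_cast mul_ne_zero p0 (pow_ne_zero 3 c0)
  have z0 : z ≠ 0 := by
    rintro rfl
    exact n0 (by rw [← z1]; norm_num)
  have hu : (q4 p * q4 c ^ 3 / z) ^ 4 = 1 := by
    rw [div_pow, z1, div_eq_one_iff_eq n0, mul_pow, ← pow_mul, mul_comm 3 4, pow_mul, q4_pow,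
      q4_pow]
    push_cast
    rfl
  have e : ∀ g ∈ H, zq (q4 p) g = zq (q4 p * q4 c ^ 3 / z) g * zq (q4 c) g := fun g hg => by
    have a1 := zq_four c0 (q4_pow c) g
    have a2 : zq (q4 p * q4 c ^ 3 / z) g = zq (q4 p) g * zq (q4 c) g ^ 3 := by
      simp only [zq, map_div₀, map_mul, map_pow, z2 g hg]
      rw [div_div_div_cancel_right₀ z0, div_pow, mul_div_mul_comm]
    rw [a2]
    linear_combination -zq (q4 p) g * a1
  rcases refine_zq hu with h | h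
  · exact .inl fun g hg => by rw [e g hg, h, one_mul]
  · exact .inr fun g hg => by rw [e g hg, h]

theorem ref_odd {q p : ℕ} (hq : q.Prime) (h2 : q ≠ 2) (hp : ¬ q ∣ p) :
    (∀ g ∈ Gv q, zq (q4 p) g = zq (q4 (p % q : ℕ)) g) ∨
      ∀ g ∈ Gv q, zq (q4 p) g = zq II g * zq (q4 (p % q : ℕ)) g := by
  have hc : ¬ (q : ℤ) ∣ ((p % q : ℕ) : ℤ) := fun k =>
    hp ((Nat.dvd_mod_iff dvd_rfl).1 (Int.natCast_dvd_natCast.1 k))
  have hd : (q : ℤ) ∣ p - ((p % q : ℕ) : ℤ) := (Nat.mod_modEq p q).dvd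
  obtain ⟨z, z1, z2⟩ := ref_four hq h2 (n := p * ((p % q : ℕ) : ℤ) ^ 3) hc (by
    rw [show (p : ℤ) * ((p % q : ℕ) : ℤ) ^ 3 - ((p % q : ℕ) : ℤ) ^ 4 =
      (p - ((p % q : ℕ) : ℤ)) * ((p % q : ℕ) : ℤ) ^ 3 by ring]
    exact hd.mul_right _)
  exact ref_gen (fun k => hp (by rw [Int.natCast_eq_zero.1 k]; exact dvd_zero q))
    (fun k => hc (by rw [k]; exact dvd_zero _)) z1 z2

/-- The modulus at the prime `v`. -/
def refM (v : ℕ) : ℕ := if v = 2 then 16 else v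

theorem ref_all {v p : ℕ} (hv : v.Prime) (hp : ¬ v ∣ p) :
    (∀ g ∈ Gv v, zq (q4 p) g = zq (q4 (p % refM v : ℕ)) g) ∨
      ∀ g ∈ Gv v, zq (q4 p) g = zq II g * zq (q4 (p % refM v : ℕ)) g := by
  by_cases h : v = 2
  · subst h
    exact refine_two (Nat.odd_iff.2 (by omega))
  · rw [refM, if_neg h]
    exact ref_odd hv h hp

/-- The fourth roots of primes fall into finitely many classes at the primes of `2 e`. -/
theorem exists_clE {e : ℕ} (he : e ≠ 0) : ∃ (K : ℕ) (cl : ℕ → Fin K), ∀ p p' : ℕ,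
    p.Coprime (2 * e) → p'.Coprime (2 * e) → cl p = cl p' →
    ∀ v : ℕ, v.Prime → v ∣ 2 * e → ∀ g ∈ Gv v, zq (q4 p) g = zq (q4 p') g := by
  have e0 : 0 < 16 * e := by omega
  obtain ⟨K, ⟨E⟩⟩ := Finite.exists_equiv_fin (Fin (16 * e) × ((2 * e).primeFactors → Prop))
  refine ⟨K, fun p => E (⟨p % (16 * e), Nat.mod_lt _ e0⟩,
    fun v => ∀ g ∈ Gv v, zq (q4 p) g = zq (q4 (p % refM v : ℕ)) g),
    fun p p' hp hp' h v hv hd g hg => ?_⟩
  obtain ⟨h1, h2⟩ := Prod.mk.inj (E.injective h)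
  have h3 := congrFun h2 ⟨v, Nat.mem_primeFactors.2 ⟨hv, hd, by omega⟩⟩
  have h4 : p % refM v = p' % refM v := by
    refine Nat.ModEq.of_dvd (n := 16 * e) ?_ (congrArg Fin.val h1)
    rw [refM]
    split_ifs
    · exact dvd_mul_right _ _
    · exact hd.trans ⟨8, by ring⟩
  have k : ∀ n : ℕ, n.Coprime (2 * e) → ¬ v ∣ n := fun n hn k =>
    hv.one_lt.ne' (Nat.eq_one_of_dvd_coprimes hn k hd)
  by_cases a : ∀ g ∈ Gv v, zq (q4 p) g = zq (q4 (p % refM v : ℕ)) g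
  · rw [a g hg, (h3.to_iff.1 a) g hg, h4]
  · rw [(ref_all hv (k p hp)).resolve_left a g hg,
      (ref_all hv (k p' hp')).resolve_left (mt h3.to_iff.2 a) g hg, h4]

end Pool.Agent.Lib.MP_696deb_nt.QA
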