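import Pool.Agent.Lib.MP_696deb_nt.QA.F8
import Pool.Agent.Lib.MP_696deb_nt.EA.K8

/-! The vanishing of the central value for all quartic twists, in algebraic form. -/

set_option autoImplicit false

open scoped Classical Real
open Complex Finset

namespace Pool.Agent.Lib.MP_696deb_nt.QF

theorem exists_phi6 {D : ℤ} (hD : QA.Fam D) (h4 : ¬ 4 ∣ D) :
    ∃ (φ : G → G) (M : ℕ) (ν : G) (w : ℂ),
    M ∣ 8 * D.natAbs ∧ Gch (2 * D) φ ∧ 0 < M ∧ Per M φ ∧ ν ≠ 0 ∧ w ≠ 0 ∧ SD M (fun α => (φ α : ℂ)) ν w ∧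
    (¬ QA.Wq D → w = -1) ∧
    ∀ (p : ℕ) [Fact p.Prime] (z : G) (ρ : G →+* ZMod p) (χ : MulChar (ZMod p) G), Qc p z ρ χ →
      ¬ (p : ℤ) ∣ D → φ z = star (χ D) := by
  obtain ⟨κ, hF⟩ := exists_fac4 hD.ne h4
  have hn := QA.n2_eq hD.ne
  have hQ0 : ∀ q ∈ D.natAbs.primeFactors.erase 2, q.Prime ∧ q ≠ 2 := fun q hq =>
    ⟨Nat.prime_of_mem_primeFactors (mem_of_mem_erase hq), ne_of_mem_erase hq⟩
  have hdvd : ∀ q ∈ D.natAbs.primeFactors.erase 2, (q : ℤ) ∣ D := fun q h =>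
    Int.natCast_dvd.2 (Nat.dvd_of_mem_primeFactors (mem_of_mem_erase h))
  have hmem : ∀ p : ℕ, p.Prime → p ≠ 2 → (p : ℤ) ∣ D → p ∈ D.natAbs.primeFactors.erase 2 :=
    fun p hp h2 h => mem_erase.2 ⟨h2, Nat.mem_primeFactors.2
      ⟨hp, Int.natCast_dvd.1 h, Int.natAbs_ne_zero.2 hD.ne⟩⟩
  have hn' : QA.n2 D = ((D.natAbs.primeFactors.erase 2).filter
      fun p => p % 4 = 3 ∧ padicValInt p D = 2).card := by
    rw [hn]
    congr 1
    ext p
    simp only [mem_filter, mem_erase]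
    exact ⟨fun h => ⟨⟨by omega, h.1⟩, h.2⟩, fun h => ⟨h.1.2, h.2⟩⟩
  have hM : ∏ q ∈ D.natAbs.primeFactors.erase 2, q ∣ D.natAbs :=
    (prod_dvd_prod_of_subset _ _ _ (erase_subset _ _)).trans (Nat.prod_primeFactors_dvd _)
  generalize D.natAbs.primeFactors.erase 2 = Q at hF hQ0 hdvd hmem hn' hM
  have hv := fun q h => hD.val (hQ0 q h).1 (hdvd q h)
  generalize hvv : (fun q => padicValInt q D) = v
  simp only [show ∀ q, padicValInt q D = v q from congrFun hvv] at hF hv hn'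
  have hX : ∀ q : ℕ, ∃ X, q ∈ Q → IsX q X := fun q => by
    by_cases h : q ∈ Q
    · exact (exists_X (hQ0 q h).1 (hQ0 q h).2).imp fun _ k _ => k
    · exact ⟨id, fun k => absurd k h⟩
  choose X hX using hX
  have hQ : ∀ q ∈ Q, q.Prime ∧ q ≠ 2 ∧ IsX q (X q) := fun q h => ⟨(hQ0 q h).1, (hQ0 q h).2, hX q h⟩
  obtain ⟨t, t1, t2⟩ := f8_mod4 Q hQ0 v
  have hσ : ∏ q ∈ Q, f8s q ^ v q = 1 ∨ ∏ q ∈ Q, f8s q ^ v q = -1 :=
    prod_induction _ (fun x => x = 1 ∨ x = -1)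
      (by rintro a b (rfl | rfl) (rfl | rfl) <;> simp) (Or.inl rfl) fun q _ => by
        unfold f8s
        split_ifs
        · simp
        · exact neg_one_pow_eq_or ℤ _
  have hP : (0 : ℤ) < ∏ q ∈ Q, (q : ℤ) ^ v q :=
    prod_pos fun q h => pow_pos (by exact_mod_cast (hQ0 q h).1.pos) _
  have hPσ : 4 * t + 1 = (∏ q ∈ Q, f8s q ^ v q) * ∏ q ∈ Q, (q : ℤ) ^ v q := by
    rw [← t1, ← prod_mul_distrib]
    exact prod_congr rfl fun q _ => by rw [f8_qs, mul_pow]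
  have hs : ∏ q ∈ Q, f8s q = (-1) ^ QA.n2 D * ∏ q ∈ Q, f8s q ^ v q := by
    rw [hn', ← prod_const, prod_filter, ← prod_mul_distrib]
    refine prod_congr rfl fun q h => ?_
    have k1 := hv q h
    have k2 := (hQ0 q h).1.eq_two_or_odd.resolve_left (hQ0 q h).2
    unfold f8s
    rcases (by omega : v q = 1 ∨ v q = 2 ∨ v q = 3) with e | e | e <;> rw [e] <;>
      rcases (by omega : q % 4 = 1 ∨ q % 4 = 3) with r | r <;> simp [r]
  have hpow : ∀ c : ZMod 4, ∏ q ∈ Q, star (ip (c * f8k q)) ^ v q = ip (-(c * t)) := fun c => by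
    rw [prod_congr rfl fun q _ => f8_ipow _ _, f8_ip, t2, mul_sum]
    congr 2
    exact sum_congr rfl fun q _ => by ring
  have hW : (ip (e0 κ t) * ∏ q ∈ Q, f8s q * star (X q (ii * nu κ)) ^ v q : G) =
      (-1) ^ QA.n2 D * if (0 < D ↔ QA.W2 D) then 1 else -1 := by
    rw [prod_congr rfl fun q h => by rw [(hX q h).at_nu (hQ0 q h).1 (hQ0 q h).2],
      prod_mul_distrib, hpow, ← Int.cast_prod, hs,
      ← f8_sign4 κ t (∏ q ∈ Q, f8s q ^ v q) ?_ (t1 ▸ hF)]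
    · push_cast
      ring
    · rcases hσ with e | e <;> rw [e] at hPσ ⊢
      · exact Or.inl ⟨rfl, by linarith⟩
      · exact Or.inr ⟨rfl, by linarith⟩
  refine ⟨fphi κ t X Q v, _, nu κ, _, Nat.mul_dvd_mul_left 8 hM, ⟨?_, fphi_mul κ t hQ, ?_, fun α => ?_,
    fun p hp h α e => ?_, dvd_mul_right _ _, fun p hp h => ?_, fun α => ?_⟩,
    Nat.mul_pos (by norm_num) (prod_pos fun q hq => (hQ0 q hq).1.pos), fphi_per κ t hQ,
    (by decide : ∀ κ, nu κ ≠ 0) κ, ?_,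
    fphi_sd κ t hQ fun q h => by have := hv q h; omega, fun h => ?_, fun p _ z ρ χ h hp => ?_⟩
  · have := ph2_nat κ t (n := 1) odd_one
    rw [Nat.cast_one, if_pos rfl] at this
    rw [fphi, this, one_mul]
    exact prod_eq_one fun q h => by rw [(hX q h).one (hQ0 q h).1, star_one, one_pow]
  · rw [fphi, ph2_ii, prod_congr rfl fun q h => by
      rw [(hX q h).at_ii (hQ0 q h).1 (hQ0 q h).2], hpow]
    exact (by decide : ∀ K : ZMod 4, ip (2 * K - 1) * ip (-(2 * K)) * ii = 1) _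
  · rw [fphi, fphi, star_mul', star_prod, ph2_conj,
      prod_congr rfl fun q h => by rw [(hX q h).conj, ← star_pow]]
  · by_cases h2 : p = 2
    · subst h2
      rw [fphi, ph2_zero κ t e, zero_mul]
    · have hq := hmem p hp h2 (((Nat.prime_iff_prime_int.1 hp).dvd_or_dvd h).resolve_left
        (f8_ndvd hp Nat.prime_two h2))
      rw [fphi, prod_eq_zero hq (by
        rw [(hX p hq).zero α e, star_zero, zero_pow (by have := hv p hq; omega)]), mul_zero]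
  · rw [fphi_nat κ t hQ hp (fun e => h (e ▸ dvd_mul_right _ _))
      fun e => h ((hdvd p e).mul_left 2), f8_qs, Int.cast_mul, Int.cast_natCast]
  · have k : ∀ a b : G, a.norm ≤ 1 → b.norm ≤ 1 → (a * b).norm ≤ 1 := fun a b ha hb => by
      rw [Zsqrtd.norm_mul]
      exact mul_le_one₀ ha (GaussianInt.norm_nonneg _) hb
    refine k _ _ (ph2_bd κ t α) (prod_induction _ (fun x : G => x.norm ≤ 1) k
      Zsqrtd.norm_one.le fun q h => ?_)
    exact (map_pow Zsqrtd.normMonoidHom _ _).trans_le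
      (pow_le_one₀ (GaussianInt.norm_nonneg _) ((hX q h).bd α))
  · rw [hW, Ne, GaussianInt.toComplex_eq_zero]
    refine mul_ne_zero (pow_ne_zero _ (by decide)) ?_
    split_ifs <;> decide
  · rw [hW]
    unfold QA.Wq at h
    rcases Nat.even_or_odd (QA.n2 D) with e | e
    · rw [e.neg_one_pow, if_neg (by tauto), one_mul, map_neg, map_one]
    · have e' := Nat.not_even_iff_odd.2 e
      rw [e.neg_one_pow, if_pos (by
        by_cases a : 0 < D <;> by_cases b : QA.W2 D <;> simp [a, b, e'] at h ⊢), mul_one, map_neg, map_one]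
  · rw [fphi, ph2_prim κ t h.prim, ← h.supp, hF, Int.cast_mul, Int.cast_prod, map_mul, map_prod,
      star_mul', star_prod]
    congr 1
    exact prod_congr rfl fun q hq => by
      rw [Int.cast_pow, map_pow, star_pow,
        h.recip (hQ0 q hq).1 (hQ0 q hq).2 (fun e => hp (e ▸ hdvd q hq)) (hX q hq)]

theorem exists_phi7 {D : ℤ} (hD : QA.Fam D) : ∃ (φ : G → G) (M : ℕ) (ν : G) (w : ℂ),
    M ∣ 8 * D.natAbs ∧ Gch (2 * D) φ ∧ 0 < M ∧ Per M φ ∧ ν ≠ 0 ∧ w ≠ 0 ∧ SD M (fun α => (φ α : ℂ)) ν w ∧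
    (¬ QA.Wq D → w = -1) ∧
    ∀ (p : ℕ) [Fact p.Prime] (z : G) (ρ : G →+* ZMod p) (χ : MulChar (ZMod p) G), Qc p z ρ χ →
      ¬ (p : ℤ) ∣ D → φ z = star (χ D) := by
  by_cases h4 : 4 ∣ D
  swap
  · exact exists_phi6 hD h4
  obtain ⟨E, rfl⟩ : ∃ E, D = -4 * E := by
    obtain ⟨c, rfl⟩ := h4
    exact ⟨-c, by ring⟩
  obtain ⟨k1, k2, k3, -⟩ := QA.quarter hD
  obtain ⟨φ, M, ν, w, h0, h1, h2, h3, h4, h5, h6, h7, h8⟩ := exists_phi6 k1 k2
  have hd : ∀ p : ℕ, p.Prime → ((p : ℤ) ∣ 2 * (-4 * E) ↔ (p : ℤ) ∣ 2 * E) := fun p hp =>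
    ⟨fun k => (Nat.prime_iff_prime_int.1 hp).dvd_of_dvd_pow (n := 3)
      (k.trans ⟨-E ^ 2, by ring⟩), fun k => k.trans ⟨-4, by ring⟩⟩
  refine ⟨φ, M, ν, w, h0.trans (Nat.mul_dvd_mul_left 8 (Int.natAbs_dvd_natAbs.2 (Dvd.intro_left _ rfl))),
    ⟨h1.one, h1.mul, h1.unit, h1.conj, fun p hp k => h1.zero p hp ((hd p hp).1 k),
    dvd_mul_right _ _, fun p hp k => h1.int p hp fun l => k ((hd p hp).2 l), h1.bd⟩, h2, h3, h4, h5,
    h6, fun k => h7 fun l => k (k3.2 l), fun p _ z ρ χ h hp => ?_⟩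
  have e : χ ((-4 : ℤ) : ZMod p) = 1 := by
    rw [show ((-4 : ℤ) : ZMod p) = -1 * (2 * 2) by push_cast; ring, map_mul, map_mul, h.neg_one,
      h.two, ← ip_add, ← ip_add, ← ip_zero]
    congr 1
    ring
  rw [h8 p z ρ χ h fun k => hp (k.mul_left _), Int.cast_mul, map_mul, e, one_mul]

end Pool.Agent.Lib.MP_696deb_nt.QF

namespace Pool.Agent.Lib.MP_696deb_nt.EA

open QF

/-- The Hecke character of the curve and the consequence of the vanishing of the central value. -/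
theorem final4 {D : ℤ} (hD : QA.Fam D) : ∃ φ : G → G, Gch (2 * D) φ ∧ Per (8 * D.natAbs) φ ∧
    (∀ (p : ℕ) [Fact p.Prime] (z : G) (ρ : G →+* ZMod p) (χ : MulChar (ZMod p) G), Qc p z ρ χ →
      ¬ (p : ℤ) ∣ D → φ z = star (χ D)) ∧
    ∀ F : ℂ → ℂ, Differentiable ℂ F →
      (∀ s : ℂ, (3 : ℝ) / 2 < s.re → HasProd (fun p : ℕ =>
        if p.Prime ∧ ¬ ((p : ℤ) ∣ 2 * (-4 * (-D) ^ 3 - 27 * 0 ^ 2)) then
          (1 - ((p : ℂ) - (cnt D p : ℂ)) * (p : ℂ) ^ (-s) + (p : ℂ) ^ (1 - 2 * s))⁻¹ else 1)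
        (F s)) → F 1 = 0 → ∀ m : ℕ, 0 < m → 8 * D.natAbs ∣ m → ∀ (b c : G) (R : Finset G),
      IsCoprime b m → IsCoprime c m → IsRep m R →
      ∑ a ∈ R with Prim a, io (star (φ a)) * dl b (a • tq c m) = 0 := by
  obtain ⟨φ, M, ν, w, h0, h1, h2, h3, h4, h5, h6, h7, h8⟩ := QF.exists_phi7 hD
  refine ⟨φ, h1, QF.f8_per h3 h0, h8, fun F hF hp hz m hm k b c R hb hc hR => ?_⟩
  have per := QF.f8_per h3 (h0.trans k)
  exact sum_prim h1 hm per (value_of hD.ne h1 h2 h3 h4 h5 h6 h8 hF hp hz hm per) hR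
    (((by decide : 4 ∣ 8).mul_right _).trans k) hb hc

end Pool.Agent.Lib.MP_696deb_nt.EA
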