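import Pool.Agent.Lib.MP_696deb_nt.QA.Top

/-! The density statement together with the converse theorem in rank zero. -/

set_option autoImplicit false

open scoped Classical
open Filter Topology Module Finset

namespace Pool.Agent.Lib.MP_696deb_nt.QA

open Pool.Agent.Lib.MP_696deb_nt.B2.Stmt QP

/-- Some odd prime divides `D` exactly once. -/
def HasQ (D : ℤ) : Prop := ∃ q : ℕ, q.Prime ∧ q ≠ 2 ∧ padicValInt q D = 1

theorem core_ofQ (hf : ∀ e, e ≠ 0 → FewE e) {ε : ℝ} (h : 0 < ε) : ∃ X0 : ℕ, ∀ X ≥ X0,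
    (((Icc (-(X : ℤ)) X).filter fun D => Fam D ∧ ¬ (HasQ D ∧ CorankLE (Q4.ED D) 1)).card : ℝ) ≤
      ε * X := by
  obtain ⟨K, hK⟩ := exists_nat_gt (8 / ε)
  have Kp : (0 : ℝ) < K := (by positivity : (0 : ℝ) < 8 / ε).trans hK
  have K0 : K ≠ 0 := fun e => by simp [e] at Kp
  obtain ⟨L, hL⟩ : ∃ L, L = K.factorial ^ 2 := ⟨_, rfl⟩
  have L0 : L ≠ 0 := hL ▸ pow_ne_zero _ K.factorial_ne_zero
  have Lp : (0 : ℝ) < L := Nat.cast_pos.2 (Nat.pos_of_ne_zero L0)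
  choose! m X0 h1 using fun e he => hf e he (ε / (4 * L)) (by positivity)
  obtain ⟨X1, h2⟩ := exists_nat_ge (2 * (L * (4 * L + 1)) / ε)
  refine ⟨max (L.divisors.sup X0) X1, fun X hX => ?_⟩
  have k2 : 2 * (L * (4 * L + 1) : ℝ) ≤ ε * X := by
    rw [div_le_iff₀' h] at h2
    exact h2.trans (mul_le_mul_of_nonneg_left (Nat.cast_le.2 (le_of_max_le_right hX)) h.le)
  let A : ℕ → Finset ℤ := fun e => (Icc (-(X : ℤ)) X).filter fun d => Squarefree d ∧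
    (∀ p : ℕ, p.Prime → p ∣ e → (p : ℤ) ∣ d) ∧ (Q4.tD (e * d)).Big (2 * m e)
  have k3 : ((Icc (-(X : ℤ)) X).filter fun D => Fam D ∧ ¬ (HasQ D ∧ CorankLE (Q4.ED D) 1)) ⊆
      ((Icc (-(X : ℤ)) X).filter fun D => D ≠ 0 ∧ ∃ k, K < k ∧ k * k ∣ D.natAbs) ∪
        L.divisors.biUnion fun e => (A e ∪ Icc (-(2 * L : ℤ)) (2 * L)).image ((e : ℤ) * ·) :=
    fun D hD => by
      obtain ⟨a, b, c⟩ := mem_filter.1 hD
      by_cases k : ∃ k, K < k ∧ k * k ∣ D.natAbs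
      · exact mem_union_left _ (mem_filter.2 ⟨a, b.ne, k⟩)
      obtain ⟨e, d, rfl, s1, s2, s3⟩ := exists_rad b k
      rw [← hL] at s3
      have e0 : e ≠ 0 := ne_zero_of_dvd_ne_zero L0 s3
      have e1 := Nat.le_of_dvd (Nat.pos_of_ne_zero L0) s3
      refine mem_union_right _ (mem_biUnion.2 ⟨e, Nat.mem_divisors.2 ⟨s3, L0⟩,
        mem_image.2 ⟨d, ?_, rfl⟩⟩)
      by_cases k' : 2 * e < d.natAbs
      · obtain ⟨q, q1, q2, q3⟩ := exists_one e0 s1 k'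
        have l : d.natAbs ≤ ((e : ℤ) * d).natAbs := by
          rw [Int.natAbs_mul, Int.natAbs_natCast]
          exact Nat.le_mul_of_pos_left _ (Nat.pos_of_ne_zero e0)
        rw [mem_Icc] at a
        exact mem_union_left _ (mem_filter.2 ⟨mem_Icc.2 (by omega), s1, s2,
          by_contra fun k'' => c ⟨⟨q, q1, q2, q3⟩, corank_of3 b q1 q2 q3 k''⟩⟩)
      · exact mem_union_right _ (mem_Icc.2 (by omega))
  have k4 := Nat.cast_le (α := ℝ).2 ((card_le_card k3).trans ((card_union_le _ _).trans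
    (add_le_add le_rfl card_biUnion_le)))
  have k5 : ∀ e ∈ L.divisors, (((A e ∪ Icc (-(2 * L : ℤ)) (2 * L)).image ((e : ℤ) * ·)).card : ℝ) ≤
      ε / (4 * L) * X + (4 * L + 1) := fun e he => by
    have l1 := h1 e (Nat.pos_of_mem_divisors he).ne' X
      ((le_sup (f := X0) he).trans (le_of_max_le_left hX))
    have l2 := Nat.cast_le (α := ℝ).2 ((card_image_le (f := ((e : ℤ) * ·))).trans
      (card_union_le (A e) (Icc (-(2 * L : ℤ)) (2 * L))))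
    rw [show (Icc (-(2 * L : ℤ)) (2 * L)).card = 4 * L + 1 by rw [Int.card_Icc]; omega] at l2
    push_cast at l2
    exact l2.trans (add_le_add l1 le_rfl)
  have k6 := sum_le_card_nsmul _ _ _ k5
  have k7 : (L.divisors.card : ℝ) ≤ L := Nat.cast_le.2 (Nat.card_divisors_le_self L)
  have k8 := core_sq K0 X
  have k9 : 2 * ((X : ℝ) / K) ≤ ε / 4 * X := by
    rw [div_lt_iff₀ h] at hK
    rw [← mul_div_assoc, div_le_iff₀ Kp]
    nlinarith [Nat.cast_nonneg (α := ℝ) X]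
  have k10 : (L : ℝ) * (ε / (4 * L) * X + (4 * L + 1)) = ε / 4 * X + L * (4 * L + 1) := by
    field_simp
  rw [nsmul_eq_mul] at k6
  have k11 := mul_le_mul_of_nonneg_right k7
    (by positivity : (0 : ℝ) ≤ ε / (4 * L) * X + (4 * L + 1))
  push_cast at k4
  linarith

/-- The converse theorem in rank zero. -/
def Conv : Prop := ∀ D : ℤ, Fam D → ∀ q : ℕ, q.Prime → q ≠ 2 → Odd (padicValInt q D) →
  CorankLE (EQ D) 0 → ∀ F : ℂ → ℂ, Differentiable ℂ F →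
    (∀ s : ℂ, (3 : ℝ) / 2 < s.re → HasProd (fun p : ℕ =>
      if p.Prime ∧ ¬ ((p : ℤ) ∣ 2 * (-4 * (-D) ^ 3 - 27 * 0 ^ 2)) then
        (1 - ((p : ℂ) - (QF.cnt D p : ℂ)) * (p : ℂ) ^ (-s) + (p : ℂ) ^ (1 - 2 * s))⁻¹ else 1)
      (F s)) → F 1 ≠ 0

/-- The property of the twist by `D` that is counted. -/
def GoodE (r : ℕ) (D : ℤ) : Prop :=
  (r = 0 ↔ Wq D) ∧
  ∀ a b : ℤ, a = -D → b = 0 → ∀ W : WeierstrassCurve ℚ,
    W = { a₁ := 0, a₂ := 0, a₃ := 0, a₄ := (a : ℚ), a₆ := (b : ℚ) } →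
    ∃ F : ℂ → ℂ, Differentiable ℂ F ∧
      (∀ s : ℂ, (3 : ℝ) / 2 < s.re →
        HasProd
          (fun p : ℕ =>
            if p.Prime ∧ ¬ ((p : ℤ) ∣ 2 * (-4 * a ^ 3 - 27 * b ^ 2)) then
              (1 - ((p : ℂ) - (Nat.card {q : ZMod p × ZMod p //
                  q.2 ^ 2 = q.1 ^ 3 + (a : ZMod p) * q.1 + (b : ZMod p)} : ℂ))
                  * (p : ℂ) ^ (-s) + (p : ℂ) ^ (1 - 2 * s))⁻¹
            else 1)
          (F s)) ∧
      IsLeast {n : ℕ | CorankLE W n} r ∧ Module.Finite ℤ W.toAffine.Point ∧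
      finrank ℤ W.toAffine.Point ≤ r ∧ (r : ℕ∞) ≤ analyticOrderAt F 1 ∧
      (r = 0 → analyticOrderAt F 1 = (finrank ℤ W.toAffine.Point : ℕ∞))

theorem goodE (hc : Conv) {D : ℤ} (hD : Fam D) (hq : HasQ D) (h : CorankLE (EQ D) 1) :
    GoodE (if Wq D then 0 else 1) D := by
  obtain ⟨k0, k⟩ := good hD h
  refine ⟨k0, ?_⟩
  rintro _ _ rfl rfl _ rfl
  obtain ⟨F, h1, h2, h3, h4, h5, h6⟩ := k _ _ rfl rfl _ rfl
  refine ⟨F, h1, h2, h3, h4, h5, h6, fun e => ?_⟩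
  obtain ⟨q, q1, q2, q3⟩ := hq
  rw [e] at h3 h5
  rw [Nat.le_zero.1 h5, Nat.cast_zero]
  exact (h1.analyticAt 1).analyticOrderAt_eq_zero.2
    (hc D hD q q1 q2 (q3 ▸ odd_one) h3.1 F h1 h2)

theorem tendE (hc : Conv) {r : ℕ} (hr : r ≤ 1) :
    Tendsto (fun X : ℕ => (Set.ncard {D : ℤ | |D| ≤ X ∧ Fam D ∧ GoodE r D} : ℝ) /
      (Set.ncard {D : ℤ | |D| ≤ X ∧ Fam D} : ℝ)) atTop (𝓝 (1 / 2)) := by
  refine half4 (P := GoodE) (fun d a b => one_ne_zero (b.1.2 (a.1.1 rfl))) (fun ε hε => ?_) hr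
  obtain ⟨X0, h⟩ := core_ofQ (fun _ he => few_bigE he) hε
  refine ⟨X0, fun X hX => le_trans (Nat.cast_le.2 (Finset.card_le_card fun d hd => ?_)) (h X hX)⟩
  simp only [Finset.mem_filter] at hd ⊢
  exact ⟨hd.1, hd.2.1, fun k => hd.2.2 (goodE hc hd.2.1 k.1 k.2)⟩

end Pool.Agent.Lib.MP_696deb_nt.QA
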