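import Pool.Agent.Lib.MP_696deb_nt.QF.F8
import Pool.Agent.Lib.MP_696deb_nt.QA.D0

/-! Powers of the quartic characters and the self-duality of the Hecke character. -/

set_option autoImplicit false

open scoped Classical Real
open Complex Finset

namespace Pool.Agent.Lib.MP_696deb_nt.QF

theorem IsX.ne_sq {q : ℕ} {X : G → G} (h : IsX q X) (hq : q.Prime) (h2 : q ≠ 2) :
    ∃ α, ¬ (q : ℤ) ∣ α.norm ∧ X α ^ 2 ≠ 1 := by
  have hodd := hq.eq_two_or_odd.resolve_left h2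
  have h1 := hq.two_le
  by_cases e : q % 4 = 1
  · obtain ⟨α, ha, hb⟩ := f4_ne (e := 2 * (q / 4)) hq h2 (by omega) (by omega)
    refine ⟨α, ha, fun k => hb ?_⟩
    obtain ⟨c, hc⟩ := h.spec1 e α ha
    refine ⟨c * (α ^ (q / 4) + X α * star α ^ (q / 4)), ?_⟩
    rw [pow_mul', pow_mul']
    linear_combination (α ^ (q / 4) + X α * star α ^ (q / 4)) * hc + (star α ^ (q / 4)) ^ 2 * k
  by_cases e3 : q = 3
  · subst e3
    refine ⟨1 + ii, by decide, ?_⟩
    rw [h.one_add]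
    decide
  · have e7 : q ≠ 5 := by omega
    obtain ⟨α, ha, hb⟩ := f4_ne (e := 2 * (q / 4 + 1)) hq h2 (by omega) (by omega)
    refine ⟨α, ha, fun k => hb ?_⟩
    obtain ⟨c, hc⟩ := h.spec3 (by omega) α ha
    refine ⟨-c * (star α ^ (q / 4 + 1) + X α * α ^ (q / 4 + 1)), ?_⟩
    rw [pow_mul', pow_mul']
    linear_combination -(star α ^ (q / 4 + 1) + X α * α ^ (q / 4 + 1)) * hc -
      (α ^ (q / 4 + 1)) ^ 2 * k

/-- The quartic character has order four. -/
theorem IsX.ne_pow {q : ℕ} {X : G → G} (h : IsX q X) (hq : q.Prime) (h2 : q ≠ 2) {m : ℕ}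
    (hm : ¬ 4 ∣ m) : ∃ α, ¬ (q : ℤ) ∣ α.norm ∧ X α ^ m ≠ 1 := by
  obtain ⟨α, ha, hb⟩ := h.ne_sq hq h2
  refine ⟨α, ha, fun k => ?_⟩
  have h4 := h.four α ha
  rw [← Nat.div_add_mod m 4, pow_add, pow_mul, h4, one_pow, one_mul] at k
  rcases f1_roots f1_ii h4 with e | e | e | e <;> rw [e] at hb k <;>
    rcases (by omega : m % 4 = 1 ∨ m % 4 = 2 ∨ m % 4 = 3) with r | r | r <;> rw [r] at k <;>
    first | exact hb (by decide) | exact absurd k (by decide)

theorem SD.mul_pow {M q : ℕ} (hM : 0 < M) (hq : q.Prime) (h2 : q ≠ 2) (h : ¬ q ∣ M) {f : G → ℂ}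
    {ν : G} {w s : ℂ} (hf : SD M f ν w) (per : Per M f) (hs : ∀ α, f (q * α) = s * f α)
    {X : G → G} (hX : IsX q X) {m : ℕ} (hm : ¬ 4 ∣ m) :
    SD (M * q) (fun α => f α * ((star (X α) ^ m : G) : ℂ)) ν
      (w * s * ((star (X (ii * ν)) ^ m : G) : ℂ)) := by
  have m0 : m ≠ 0 := fun e => hm (e ▸ dvd_zero 4)
  have hY : ∀ ξ, FT q (fun α => ((star (X (M * α)) ^ m : G) : ℂ)) ξ =
      q * ((star (X (ii * ξ)) ^ m : G) : ℂ) := fun ξ => by
    have h1 : X M = 1 := by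
      simpa using hX.int M fun h' => h (Int.natCast_dvd_natCast.1 h')
    simp only [hX.mul (M : G), h1, one_mul]
    refine FT_prime (Y := fun α => ((star (X α) ^ m : G) : ℂ)) hq
      (fun α γ => by simp only [hX.per α γ])
      (fun α β => by rw [hX.mul, star_mul', _root_.mul_pow, GaussianInt.toComplex_mul])
      (fun α hα => by rw [hX.zero α hα, star_zero, zero_pow m0, GaussianInt.toComplex_zero])
      (fun n hn => by rw [hX.int n hn, star_one, one_pow, GaussianInt.toComplex_one]) ?_ ξ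
    obtain ⟨α, h2, h3⟩ := hX.ne_pow hq h2 hm
    refine ⟨α, h2, fun h4 => h3 ?_⟩
    rw [← GaussianInt.toComplex_one, GaussianInt.toComplex_inj, ← star_pow] at h4
    rw [← star_star (X α ^ m), h4, star_one]
  have key : ∀ ξ, FT (M * q) (fun α => f α * ((star (X α) ^ m : G) : ℂ)) ξ =
      s * FT M f ξ * (q * ((star (X (ii * ξ)) ^ m : G) : ℂ)) := fun ξ => by
    rw [FT_mul hM hq.pos ((Nat.Prime.coprime_iff_not_dvd hq).2 h).symm per
      (g := fun α => ((star (X α) ^ m : G) : ℂ)) (fun α γ => by simp only [hX.per α γ]), hY]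
    congr 1
    simp only [FT, hs, mul_sum, mul_assoc]
  refine ⟨fun ξ hξ => by rw [key, hf.zero ξ hξ, mul_zero, zero_mul], fun η => ?_⟩
  rw [key, hf.eq, ← mul_assoc ii, hX.mul (ii * ν), star_mul', _root_.mul_pow,
    GaussianInt.toComplex_mul]
  push_cast
  ring

/-- The character. -/
def fphi (κ K : ZMod 4) (X : ℕ → G → G) (Q : Finset ℕ) (v : ℕ → ℕ) (α : G) : G :=
  ph2 κ K α * ∏ q ∈ Q, star (X q α) ^ v q

section phi
variable (κ K : ZMod 4) {X : ℕ → G → G} {Q : Finset ℕ} {v : ℕ → ℕ}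

theorem fphi_mul (hQ : ∀ q ∈ Q, q.Prime ∧ q ≠ 2 ∧ IsX q (X q)) (α β : G) :
    fphi κ K X Q v (α * β) = fphi κ K X Q v α * fphi κ K X Q v β := by
  unfold fphi
  rw [ph2_mul, prod_congr rfl fun q hq => by rw [(hQ q hq).2.2.mul, star_mul', mul_pow],
    prod_mul_distrib]
  ring

theorem fphi_nat (hQ : ∀ q ∈ Q, q.Prime ∧ q ≠ 2 ∧ IsX q (X q)) {p : ℕ} (hp : p.Prime) (h2 : p ≠ 2)
    (h : p ∉ Q) : fphi κ K X Q v p = f8s p := by
  unfold fphi f8s
  rw [ph2_nat κ K (hp.odd_of_ne_two h2), prod_eq_one fun q hq => by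
    rw [(hQ q hq).2.2.nat (hQ q hq).1 hp fun e => h (e ▸ hq), star_one, one_pow], mul_one]
  split_ifs <;> simp

theorem fphi_per (hQ : ∀ q ∈ Q, q.Prime ∧ q ≠ 2 ∧ IsX q (X q)) :
    Per (8 * ∏ q ∈ Q, q) (fphi κ K X Q v) := fun α γ => by
  unfold fphi
  rw [f8_per (ph2_per κ K) (dvd_mul_right _ _), prod_congr rfl fun q hq => by
    rw [f8_per (hQ q hq).2.2.per ((dvd_prod_of_mem _ hq).mul_left 8)]]

theorem fphi_sd (hQ : ∀ q ∈ Q, q.Prime ∧ q ≠ 2 ∧ IsX q (X q)) (hv : ∀ q ∈ Q, ¬ 4 ∣ v q) :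
    SD (8 * ∏ q ∈ Q, q) (fun α => (fphi κ K X Q v α : ℂ)) (nu κ)
      ((ip (e0 κ K) * ∏ q ∈ Q, f8s q * star (X q (ii * nu κ)) ^ v q : G) : ℂ) := by
  induction Q using Finset.induction_on with
  | empty => simpa [fphi] using ph2_sd κ K
  | insert a s ha ih =>
    have hs := fun q hq => hQ q (mem_insert_of_mem hq)
    obtain ⟨a1, a2, a3⟩ := hQ a (mem_insert_self a s)
    have h0 : 0 < 8 * ∏ q ∈ s, q := Nat.mul_pos (by norm_num) (prod_pos fun q hq => (hs q hq).1.pos)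
    have h1 : ¬ a ∣ 8 * ∏ q ∈ s, q := fun e => by
      rcases (Nat.Prime.dvd_mul a1).1 e with e | e
      · exact a2 ((Nat.prime_dvd_prime_iff_eq a1 Nat.prime_two).1
          (a1.dvd_of_dvd_pow (n := 3) e))
      · obtain ⟨q, hq, e⟩ := a1.prime.exists_mem_finset_dvd e
        exact ha (((Nat.prime_dvd_prime_iff_eq a1 (hs q hq).1).1 e) ▸ hq)
    have k := SD.mul_pow h0 a1 a2 h1 (s := ((f8s a : G) : ℂ))
      (ih hs fun q hq => hv q (mem_insert_of_mem hq))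
      (fun α γ => congrArg _ (fphi_per κ K hs α γ))
      (fun α => by rw [fphi_mul κ K hs, fphi_nat κ K hs a1 a2 ha, map_mul]) a3
      (hv a (mem_insert_self a s))
    convert k using 1
    · rw [prod_insert ha]
      ring
    · funext α
      rw [← map_mul, fphi, fphi, prod_insert ha]
      congr 1
      ring
    · rw [← map_mul, ← map_mul, prod_insert ha]
      congr 1
      ring

end phi

end Pool.Agent.Lib.MP_696deb_nt.QF
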