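import Pool.Agent.Lib.MP_696deb_nt.Sa.GenC

/-! Generic matrices when some of the linear conditions are dropped. -/

set_option autoImplicit false

open Finset
open scoped Classical

namespace Pool.Agent.Lib.MP_696deb_nt.Sa

namespace GD

variable {ι Gn Q : Type} [Fintype ι] [LinearOrder ι] [Fintype Gn] [Fintype Q] (D : GD ι Gn Q)

/-- One system without the conditions in `E`. -/
def SysE (E : Finset Q) (a : Up ι → ZMod 2) (u : Gn → ZMod 2) (h : Q → ZMod 2)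
    (x : (Gn → ZMod 2) × (ι → ZMod 2)) : Prop :=
  (∀ j, LL a x.2 j + D.cor x.2 j + D.lam x.1 j + x.2 j * D.lam u j = 0) ∧
    ∀ q, q ∉ E → ∑ j, x.2 j * D.l q j = h q

/-- Both systems without the conditions in `E`. -/
def RelE (E : Finset Q) (a : Up ι → ZMod 2)
    (x : ((Gn → ZMod 2) × (ι → ZMod 2)) × ((Gn → ZMod 2) × (ι → ZMod 2))) : Prop :=
  D.SysE E a D.u1 (D.h1 x.1.1) x.1 ∧ D.SysE E a D.u2 (D.h2 x.2.1) x.2

/-- Generic matrices. -/
def GenE (E : Finset Q) (K : ℕ) (a : Up ι → ZMod 2) : Prop :=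
  (univ.filter (D.RelE E a)).card ≤ K ∧
  ∀ x x', D.RelE E a x → D.RelE E a x' → ¬ (Cst x.1.2 ∧ Cst x'.2.2) → ∀ k,
    |∑ j ∈ D.I k, sg (x.1.2 j + x'.2.2 j)| ≤ (D.I k).card / (2 * (K : ℝ) ^ 2)

/-- The data with prescribed values of the conditions in `E`. -/
noncomputable def fixE (E : Finset Q) (v : (E → ZMod 2) × (E → ZMod 2)) : GD ι Gn Q :=
  { D with
    h1 := fun u q => if h : q ∈ E then v.1 ⟨q, h⟩ else D.h1 u q
    h2 := AddMonoidHom.mk' (fun u q => if q ∈ E then 0 else D.h2 u q) fun u u' => funext fun q => by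
      simp only [map_add, Pi.add_apply]
      split_ifs
      exacts [(add_zero _).symm, rfl]
    h3 := fun _ q => if h : q ∈ E then v.2 ⟨q, h⟩ else 0 }

variable {D}

omit [LinearOrder ι] in
theorem OK.fixE {H : ℕ} (h : D.OK H) (E : Finset Q) (v : (E → ZMod 2) × (E → ZMod 2)) :
    (D.fixE E v).OK H := ⟨h.cor1, h.ind, h.cardQ, h.ne12, h.ne3, h.B1, h.B2, h.H1⟩

omit [Fintype Gn] [Fintype Q] in
theorem RelE.rel {E : Finset Q} {a : Up ι → ZMod 2} (h3 : D.u3 = 0)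
    {x : ((Gn → ZMod 2) × (ι → ZMod 2)) × ((Gn → ZMod 2) × (ι → ZMod 2))} (h : D.RelE E a x) :
    ∃ v, (D.fixE E v).Rel a x := by
  refine ⟨(fun q => ∑ j, x.1.2 j * D.l q j, fun q => ∑ j, x.2.2 j * D.l q j),
    ⟨fun j => (add_zero _).trans (h.1.1 j), fun q => ?_⟩, fun j => ?_, fun q => ?_⟩
  · change _ = dite _ _ _
    split_ifs with e
    exacts [rfl, h.1.2 q e]
  · change _ + x.1.2 j * D.lam D.u3 j = 0
    rw [h3, map_zero, Pi.zero_apply, mul_zero, add_zero]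
    exact h.2.1 j
  · change _ = (ite (q ∈ E) _ _ : ZMod 2) + (dite (q ∈ E) _ _ : ZMod 2)
    split_ifs with e
    exacts [(zero_add _).symm, (h.2.2 q e).trans (add_zero _).symm]

omit [Fintype Q] in
theorem genE_of {E : Finset Q} {a : Up ι → ZMod 2} (h3 : D.u3 = 0) {k K : ℕ}
    (hK : Fintype.card ((E → ZMod 2) × (E → ZMod 2)) * k ≤ K)
    (h : ∀ v, (univ.filter ((D.fixE E v).Rel a)).card ≤ k ∧ (D.fixE E v).Gen K a) :
    D.GenE E K a := by
  refine ⟨le_trans ?_ hK, fun x x' hx hx' hc i => ?_⟩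
  · refine ((card_le_card fun x hx => mem_biUnion.2 ?_).trans
      (card_biUnion_le (s := univ) (t := fun v => univ.filter ((D.fixE E v).Rel a)))).trans
      (sum_le_card_nsmul _ _ k fun v _ => (h v).1)
    exact ((mem_filter.1 hx).2.rel h3).imp fun v hv => ⟨mem_univ _, mem_filter.2 ⟨mem_univ _, hv⟩⟩
  · obtain ⟨v, hv⟩ := RelE.rel h3 (x := (x.1, x'.2)) ⟨hx.1, hx'.2⟩
    exact (h v).2.2.1 _ _ hv hv hc i

end GD

/-- The bound for the number of solutions does not depend on the level of cancellation. -/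
theorem gen_abs3 {ε : ℝ} (hε : 0 < ε) : ∃ k : ℕ, 0 < k ∧ ∀ K, k ≤ K → ∃ C : ℕ,
    ∀ (ι Gn Q : Type) [Fintype ι] [LinearOrder ι] [Fintype Gn] [Fintype Q] (D : GD ι Gn Q) (H : ℕ),
    D.OK H → C * Fintype.card Gn ≤ H → ((univ.filter fun a : Up ι → ZMod 2 =>
      ¬ ((univ.filter (D.Rel a)).card ≤ k ∧ D.Gen K a)).card : ℝ) ≤
      ε * Fintype.card (Up ι → ZMod 2) := by
  obtain ⟨k, hk⟩ := exists_nat_gt (264 / ε)
  have hk0 : (0 : ℝ) < k := (by positivity : 0 < 264 / ε).trans hk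
  have hk1 : 0 < k := Nat.cast_pos.1 hk0
  have hη : 0 < ε / 2 ^ 26 := by positivity
  refine ⟨k ^ 2, by positivity, fun K hK => ?_⟩
  have hK0 : 0 < K := lt_of_lt_of_le (by positivity) hK
  obtain ⟨C, hC1, hC2⟩ := ((genc_lim (Real.exp_pos (-(1 / (8 * (K : ℝ) ^ 4)))).le
    (Real.exp_lt_one_iff.2 (neg_lt_zero.2 (by positivity))) hη).and
    (genc_lim (ρ := 1 / 2) (by norm_num) (by norm_num) hη)).exists
  refine ⟨C, fun ι Gn Q _ _ _ _ D H h hH => ?_⟩
  have hg : 0 < Fintype.card Gn :=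
    Fintype.card_pos_iff.2 ⟨(Function.ne_iff.1 h.ne12).choose⟩
  have h1 := hC1 _ H hg hH
  have h2 := hC2 _ H hg hH
  rw [← Real.exp_nat_mul, mul_neg, mul_one_div] at h1
  have h3 : (8 : ℝ) ^ Fintype.card Gn ≤ 32 ^ Fintype.card Gn := by gcongr; norm_num
  have h4 : (8 : ℝ) ^ Fintype.card Gn * 4 ^ Fintype.card Gn = 32 ^ Fintype.card Gn := by
    rw [← mul_pow]; norm_num
  have h5 : (2 : ℝ) ^ Fintype.card ι * (1 / 2) ^ Fintype.card ι = 1 := by
    rw [← mul_pow]; norm_num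
  have h6 := mul_le_mul_of_nonneg_left (mul_le_mul_of_nonneg_right (GD.card_Wb h K)
    (show (0 : ℝ) ≤ (1 / 2) ^ Fintype.card ι by positivity))
    (show (0 : ℝ) ≤ 8 ^ Fintype.card Gn by positivity)
  rw [mul_assoc, h5, mul_one, mul_add, ← mul_assoc _ (4 ^ _), h4] at h6
  have h7 := mul_le_mul_of_nonneg_right h3 (Real.exp_pos (-(H / (8 * (K : ℝ) ^ 4)))).le
  have h8 := mul_le_mul_of_nonneg_right h3 (show (0 : ℝ) ≤ (1 / 2) ^ H by positivity)
  have h9 : 132 / (k : ℝ) ≤ ε / 2 := by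
    rw [div_lt_iff₀ hε] at hk
    rw [div_le_iff₀ hk0]
    linarith
  refine (genc_or (S' := _ ∪ _) fun a ha => ?_).trans ((add_le_add (GD.bad_one h hk1)
    ((genc_or fun a ha => mem_union.1 ha).trans
      (add_le_add (GD.bad_two h K) (GD.bad_three h)))).trans ?_)
  · by_contra h0
    simp only [mem_union, mem_filter, mem_univ, true_and, not_or, not_lt] at h0
    exact (mem_filter.1 ha).2 ⟨h0.1, GD.gen_of h (h0.1.trans hK) h0.2.1 h0.2.2⟩
  · rw [← add_mul, ← add_mul]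
    refine mul_le_mul_of_nonneg_right ?_ (Nat.cast_nonneg _)
    linarith

theorem gen_absE (s : ℕ) {ε : ℝ} (hε : 0 < ε) : ∃ K C : ℕ, 0 < K ∧
    ∀ (ι Gn Q : Type) [Fintype ι] [LinearOrder ι] [Fintype Gn] [Fintype Q] (D : GD ι Gn Q) (H : ℕ)
    (E : Finset Q), D.OK H → D.u3 = 0 → E.card ≤ s → C * Fintype.card Gn ≤ H →
    ((univ.filter fun a : Up ι → ZMod 2 => ¬ D.GenE E K a).card : ℝ) ≤
      ε * Fintype.card (Up ι → ZMod 2) := by
  obtain ⟨k, hk, H0⟩ := gen_abs3 (show 0 < ε / 4 ^ s by positivity)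
  obtain ⟨C, hC⟩ := H0 (4 ^ s * k) (Nat.le_mul_of_pos_left _ (by positivity))
  refine ⟨4 ^ s * k, C, by positivity, fun ι Gn Q _ _ _ _ D H E h h3 hE hH => ?_⟩
  have h1 : Fintype.card ((E → ZMod 2) × (E → ZMod 2)) ≤ 4 ^ s := by
    rw [Fintype.card_prod, Fintype.card_fun, ZMod.card, Fintype.card_coe, ← mul_pow]
    exact Nat.pow_le_pow_right (by norm_num) hE
  refine (genc_union univ (fun v _ => hC ι Gn Q (D.fixE E v) H (h.fixE E v) hH)
    fun a ha => ?_).trans ?_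
  · by_contra h0
    exact (mem_filter.1 ha).2 (GD.genE_of h3 (Nat.mul_le_mul_right k h1) fun v =>
      not_not.1 fun e => h0 ⟨v, mem_univ _, mem_filter.2 ⟨mem_univ _, e⟩⟩)
  · have h2 : ((univ : Finset ((E → ZMod 2) × (E → ZMod 2))).card : ℝ) ≤ 4 ^ s := by
      exact_mod_cast h1
    refine (mul_le_mul_of_nonneg_right h2 (by positivity)).trans_eq ?_
    rw [← mul_assoc, mul_div_cancel₀ _ (by positivity)]

end Pool.Agent.Lib.MP_696deb_nt.Sa
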