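import Pool.Agent.Lib.MP_696deb_nt.QA.GridB

/-! The grid lemma: weighted sums of lifts agree with the governing expansion. -/

set_option autoImplicit false

open scoped Classical
open Finset Function

namespace Pool.Agent.Lib.MP_696deb_nt.QA

open Sm Q4
open Sm.Gd (sum_supp sum_zero sum_mono sum_cl Lam pow_F2 card_Sx)

namespace Gd

variable {n M : ℕ} {G : Gd n M} {e : ℕ → A} {Y : Set (Zg n M)} {c : Zg n M → GQ → A}

/-- The statement that sums agree with the expansion, for all direction sets of size `k`. -/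
def AS (G : Gd n M) (Y : Set (Zg n M)) (c : Zg n M → GQ → A) (k : ℕ) : Prop :=
  ∀ (T : Finset (Sx n)) (j : ℕ), T.card = k → k + j = n + 1 → ic ∉ T → ∀ a, Lam Y T a → ∀ g,
    Sg c j a g = kT (G.ph T a g)

theorem lam_mul {T : Finset (Sx n)} {a : Zg n M → ℤ} (ha : Lam Y T a) {γ : Type} [CommMonoid γ]
    (φ : γ → ℤ) (β : Sx n → Fin (M + 1) → γ) (R : Finset (Sx n)) :
    Lam Y (T \ R) fun y => a y * φ (∏ j ∈ R, β j (y j)) :=
  ⟨fun y hy => ha.1 y (left_ne_zero_of_mul hy), fun i hi =>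
    (ha.2 i (mem_sdiff.1 hi).1).mul fun y s => congrArg φ (prod_congr rfl fun j hj => by
      rw [update_of_ne (by rintro rfl; exact (mem_sdiff.1 hi).2 hj)])⟩

theorem Phi_ic (U : Finset (Fin n)) (y : Zg n M) (s : Fin (M + 1)) (g : GQ) :
    Phi G.f U (update y ic s) g = Phi G.f U y g := by
  simp [Phi]

theorem ph_neg {T : Finset (Sx n)} (h : ia ∉ T) (a : Zg n M → ℤ) (g : GQ) : G.ph T a g = 0 :=
  if_neg h

theorem ph_pos {T : Finset (Sx n)} (h : ia ∈ T) (a : Zg n M → ℤ) (g : GQ) :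
    G.ph T a g = ∑ y, a y • Phi G.f {j | Sum.inl j ∈ T} y g := by
  simp only [ph, if_pos h, zsmul_eq_mul]

theorem ph_zero {T : Finset (Sx n)} {a : Zg n M → ℤ} (ha : Lam Y T a) {g : GQ}
    (hf : ∀ s s', G.f s g = G.f s' g) : G.ph T a g = 0 := by
  by_cases h : ia ∈ T
  · rw [ph_pos h]
    refine (ha.2 _ h).sum (fun y s => ?_) fun _ => pow_F2 _ _
    simp [Phi, hf s (y ia)]
  · exact ph_neg h _ _

theorem lc_ph (h : G.Ok) (T : Finset (Sx n)) (a : Zg n M → ℤ) : LC (G.ph T a) := by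
  exact (B2.Sm.pi h.kit.lc).comp fun F : Fin (M + 1) → Gm n M → F2 => if ia ∈ T then
    ∑ y, (a y : F2) * ∑ γ, F (y ia) γ * ∏ j ∈ ({j | Sum.inl j ∈ T} : Finset (Fin n)),
      mu j (y (Sum.inl j)) γ else 0

theorem ph_mul (h : G.Ok) {T : Finset (Sx n)} (hc : ic ∉ T) (a : Zg n M → ℤ) (g g' : GQ) :
    G.ph T a (g * g') = G.ph T a g + ∑ R : Finset (Sx n),
      if R ⊆ T then G.ph (T \ R) (fun y => a y * (G.ur 0 g R y).re) g' +
        G.ph (T \ R) (fun y => a y * (G.ur 0 g R y).im) g' else 0 := by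
  by_cases ha : ia ∈ T
  swap
  · simp [ph, ha]
  rw [ph_pos ha, ph_pos ha]
  simp only [Phi_mul h.kit, smul_add, sum_add_distrib, smul_sum]
  congr 1
  rw [sum_comm]
  refine sum_of_injOn (fun R => R.map Embedding.inl) (map_injective _).injOn
    (fun _ _ => mem_univ _) (fun R _ hR => ?_) fun R hR => ?_
  · split_ifs with h1
    · have h3 : ia ∉ T \ R := fun h2 => hR ⟨R.toLeft, mem_coe.2 (mem_powerset.2 fun j hj => by
        simpa using h1 (mem_toLeft.1 hj)), by
        ext i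
        rcases i with j | _ | _
        · simp
        · simpa using fun k => hc (h1 k)
        · simpa using (mem_sdiff.1 h2).2⟩
      rw [ph_neg h3, ph_neg h3, add_zero]
    · rfl
  · have h1 : R.map Embedding.inl ⊆ T := fun i hi => by
      obtain ⟨j, hj, rfl⟩ := mem_map.1 hi
      simpa using mem_powerset.1 hR hj
    have h2 : ({j | Sum.inl j ∈ T \ R.map Embedding.inl} : Finset (Fin n)) =
        ({j | Sum.inl j ∈ T} : Finset (Fin n)) \ R := by
      ext j
      simp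
    rw [if_pos h1, ph_pos (by simpa using ha), ph_pos (by simpa using ha), h2, ← sum_add_distrib]
    refine sum_congr rfl fun y _ => ?_
    have h3 := red_prod (R.map Embedding.inl) fun i => uu (G.eta 0 g i (y i))
    simp only [red_uu (h.eta_sq _ _ _ _)] at h3
    rw [prod_map R _ fun i => chi _ g] at h3
    rw [← add_smul, ← mul_add, mul_smul, zsmul_eq_mul (Phi _ _ _ _), Int.cast_add]
    exact congrArg (fun t => a y • (t * _)) h3.symm

theorem Mono.bs (hm : G.Mono e Y c) {k : ℕ} (hA : ∀ j < k, AS G Y c j) {T : Finset (Sx n)}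
    (hT : T.card ≤ k) {a : Zg n M → ℤ} (ha : Lam Y T a) {j : ℕ} (hj : n + 2 ≤ T.card + j) (g : GQ) :
    Sg c j a g = 0 := by
  rcases le_or_gt (n + 1) j with h0 | h0
  · exact hm.Sg_zero ha.1 h0 g
  have h3 := (card_le_univ T).trans_eq card_Sx
  have key : ∀ i ∈ T, ic ∉ T.erase i → G.ph (T.erase i) a g = 0 → Sg c j a g = 0 :=
    fun i hi h1 h2 => by
      rw [show j = (T.card + j - (n + 2)) + (n + 2 - T.card) by omega, Sg_pow,
        hA (T.card - 1) (by omega) (T.erase i) _ (card_erase_of_mem hi) (by omega) h1 a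
        (ha.mono (erase_subset _ _)), h2, map_zero, smul_zero]
  by_cases h1 : ic ∈ T
  · refine key _ h1 (notMem_erase _ _) ?_
    by_cases h2 : ia ∈ T.erase ic
    · rw [ph_pos h2]
      exact (ha.2 _ h1).sum (fun y s => Phi_ic _ _ _ _) fun _ => pow_F2 _ _
    · exact ph_neg h2 _ _
  · by_cases h2 : ia ∈ T
    · exact key _ h2 (fun k => h1 (mem_of_mem_erase k)) (ph_neg (notMem_erase _ _) _ _)
    · obtain ⟨i, hi⟩ : T.Nonempty := card_pos.1 (by omega)
      exact key _ hi (fun k => h1 (mem_of_mem_erase k))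
        (ph_neg (fun k => h2 (mem_of_mem_erase k)) _ _)

theorem Mono.hom (h : G.Ok) (hm : G.Mono e Y c) {k j : ℕ} (hk : k + j = n + 1)
    (hA : ∀ j < k, AS G Y c j) {T : Finset (Sx n)} (hT : T.card = k) (hc : ic ∉ T)
    {a : Zg n M → ℤ} (ha : Lam Y T a) :
    ∃ d : ℤ, Squarefree d ∧ (fun g => Sg c j a g - kT (G.ph T a g)) = kum d := by
  have h2 : ∀ g, w • Sg c j a g = 0 := fun g => by
    have h3 := Sg_pow c 1 j a g
    rw [hm.bs hA hT.le ha (by omega), pow_one] at h3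
    exact h3.symm
  refine exists_kum (fun g => by rw [smul_sub, h2, w_kT, sub_zero]) (fun g g' => ?_)
    ((hm.lc _ ha.1).comp₂ (lc_ph h T a) fun P t => P - kT t)
  rw [hm.twist h 0 j ha.1, ph_mul h hc, map_add, map_sum, add_sub_add_comm, ← sum_sub_distrib,
    sum_eq_single ∅ (fun R _ hR => ?_) fun k => (k (mem_univ _)).elim]
  · simp [ur, Tw.tw_ker _ _ (h2 g'), Sg_apply c j fun _ => 0, ph]
  have hR0 : 0 < R.card := card_pos.2 (nonempty_iff_ne_empty.2 hR)
  have h5 : Lam Y (T \ R) fun y => a y * (G.ur 0 g R y).re :=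
    lam_mul ha Zsqrtd.re (fun i s => uu (G.eta 0 g i s)) R
  have h6 : Lam Y (T \ R) fun y => a y * (G.ur 0 g R y).im :=
    lam_mul ha Zsqrtd.im (fun i s => uu (G.eta 0 g i s)) R
  have h4 := card_sdiff_add_card_inter T R
  split_ifs with h1
  · rw [inter_eq_right.2 h1] at h4
    have h3 := hA (T \ R).card (by omega) (T \ R) (j + R.card) rfl (by omega)
      fun k => hc (mem_sdiff.1 k).1
    rw [h3 _ h5, h3 _ h6, Tw.tw_ker _ _ (w_kT _), Tw.tw_ker _ _ (w_kT _),
      unit_smul isUnit_ii (w_kT _), map_add, sub_self]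
  · have h3 : (T ∩ R).card < R.card := card_lt_card ⟨inter_subset_right, fun k =>
      h1 fun i hi => (mem_inter.1 (k hi)).1⟩
    rw [hm.bs hA (by omega) h5 (by omega), hm.bs hA (by omega) h6 (by omega)]
    simp

theorem Mono.sig_off (h : G.Ok) (hm : G.Mono e Y c) {y : Zg n M} (hy : y ∈ Y) {p : ℕ}
    (hp : p.Prime) (h2 : p ≠ 2) (hD : ¬ (p : ℤ) ∣ G.N) (hn : ∀ i, p ≠ G.pr i (y i)) :
    c y (sig p) = 0 :=
  (hm.lf y hy).1.unr p hp h2 fun k => ((h.dvd_N hp y).1 k).elim hD fun ⟨i, hi⟩ => hn i hi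

theorem Mono.sig_ne (h : G.Ok) (hm : G.Mono e Y c) {y : Zg n M} (hy : y ∈ Y) {i : Sx n}
    {s : Fin (M + 1)} (hs : y i ≠ s) : c y (sig (G.pr i s)) = 0 :=
  hm.sig_off h hy (h.prime _ _) (h.ne_two _ _) (h.ndvd _ _) fun j k => by
    obtain ⟨rfl, rfl⟩ := h.inj _ _ _ _ k
    exact hs rfl

theorem Mono.sig_pr (h : G.Ok) (hm : G.Mono e Y c) (i : Sx n) (s : Fin (M + 1)) :
    ∃ P : A, w ^ (n + 1) • P = 0 ∧
      ∀ y ∈ Y, c y (sig (G.pr i s)) = if y i = s then P else 0 := by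
  by_cases hY : Y.Nonempty
  · obtain ⟨y0, h0⟩ := hY
    refine ⟨_, (hm.lf y0 h0).1.tors (sig (G.pr i (y0 i))), fun y hy => ?_⟩
    split_ifs with k
    · rw [← k, hm.ram y hy y0 h0]
    · exact hm.sig_ne h hy k
  · exact ⟨0, smul_zero _, fun y hy => (hY ⟨y, hy⟩).elim⟩

/-- Sums at a prime of the grid vanish when there is a line sum in another direction. -/
theorem Mono.sig_line (h : G.Ok) (hm : G.Mono e Y c) {T : Finset (Sx n)} {a : Zg n M → ℤ}
    (ha : Lam Y T a) {i i' : Sx n} (hi : i' ∈ T) (hne : i' ≠ i) (s : Fin (M + 1)) (j : ℕ) :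
    Sg c j a (sig (G.pr i s)) = 0 := by
  obtain ⟨P, hP, h3⟩ := hm.sig_pr h i s
  have h4 : 2 ^ (n + 1) • w ^ j • P = 0 := two_pow_smul (by rw [smul_comm, hP, smul_zero])
  rw [Sg_apply, sum_supp ha.1 (u := fun y => w ^ j • if y i = s then P else 0)
    fun y hy => by rw [h3 y hy], (ha.2 i' hi).sum (fun y t => by rw [update_of_ne hne.symm])
    fun y => by split_ifs <;> simp only [h4, smul_zero]]

theorem Mono.unr (h : G.Ok) (hm : G.Mono e Y c) {j : ℕ} {T : Finset (Sx n)}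
    (hT : T.card + j = n + 1) (h0 : T.Nonempty) (hc : ic ∉ T) {a : Zg n M → ℤ} (ha : Lam Y T a)
    {p : ℕ} (hp : p.Prime) (h2 : p ≠ 2) (hD : ¬ (p : ℤ) ∣ G.N) :
    Sg c j a (sig p) = kT (G.ph T a (sig p)) := by
  have hoff : (∀ t, p ≠ G.pr ia t) → G.ph T a (sig p) = 0 := fun hp' =>
    ph_zero ha fun s s' => h.kit.unr s s' p hp h2 hp'
  by_cases hq : ∃ i s, p = G.pr i s
  swap
  · rw [Sg_apply, hoff fun t k => hq ⟨_, t, k⟩, map_zero]
    exact sum_zero ha.1 fun y hy => by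
      rw [hm.sig_off h hy hp h2 hD fun i k => hq ⟨_, _, k⟩, smul_zero]
  obtain ⟨i, s, rfl⟩ := hq
  by_cases h1 : ∃ i' ∈ T, i' ≠ i
  · obtain ⟨i', hi', hne⟩ := h1
    rw [hm.sig_line h ha hi' hne]
    by_cases hi : i = ia
    · by_cases ha : ia ∈ T
      · rw [ph_pos ha, sum_eq_zero fun y _ => ?_, map_zero]
        rcases i' with j | _ | _
        · rw [Phi, sum_eq_zero fun γ _ => ?_, smul_zero]
          rw [hi, h.kit.ram]
          split_ifs with h4
          · rw [h4.2, prod_eq_zero (i := j) (by simpa using hi') (mu_zero _ _), mul_zero]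
          · exact zero_mul _
        · exact (hc hi').elim
        · exact (hne hi.symm).elim
      · rw [ph_neg ha, map_zero]
    · rw [hoff fun t k => hi (h.inj _ _ _ _ k).1, map_zero]
  · have h3 : T ⊆ {i} := fun j hj => mem_singleton.2 (by_contra fun k => h1 ⟨j, hj, k⟩)
    obtain rfl : T = {i} := eq_of_subset_of_card_le h3 (card_pos.2 h0)
    obtain rfl : j = n := by rw [card_singleton] at hT; omega
    rw [Sg_apply, sum_supp ha.1 (u := fun y => if y i = s then kT (G.al i) else 0)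
      fun y hy => ?_]
    · rcases i with j | _ | _
      · simp [h.hU j, ph]
      · exact (hc (mem_singleton_self _)).elim
      · rw [ph_pos (mem_singleton_self _), map_sum]
        refine sum_congr rfl fun y _ => ?_
        rw [map_zsmul]
        by_cases h5 : y ia = s <;> simp [Phi, h.kit.ram, h5, h.ha]
    · split_ifs with h5
      · rw [← h5, ← h.a_sig, ← (hm.lf y hy).2.1]
        rfl
      · rw [hm.sig_ne h hy h5, smul_zero]

theorem Mono.loc (h : G.Ok) (hm : G.Mono e Y c) (x : Zg n M) (k : ℕ) {a : Zg n M → ℤ}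
    (ha : ∀ y, a y ≠ 0 → y ∈ Y) {v : ℕ} (hv : v = 0 ∨ v = 2) :
    ((G.t x).it k).Loc v (Sg c k a) := by
  refine Tw.loc_sum _ _ _ fun y _ hy => ?_
  refine (((hm.lf y (ha y hy)).1.loc v hv).pow k).congr (fun g hg => ?_) fun _ _ => rfl
  simp only [Tw.it, zq_mul]
  rw [h.zq_t y x, prod_eq_one fun i _ => ?_, one_mul]
  rw [eta, h.inf i _ (y i) v hv g hg, div_self (h.r_ne _ _ _)]

/-- The local condition at a fixed prime of the twists. -/
theorem Mono.locN (h : G.Ok) (hm : G.Mono e Y c) (x : Zg n M) (k : ℕ) {a : Zg n M → ℤ}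
    (ha : ∀ y, a y ≠ 0 → y ∈ Y) {q : ℕ} (hq : q.Prime) (h2 : q ≠ 2) (hN : (q : ℤ) ∣ G.N)
    {u : Zg n M → GQ → A} (hu : ∀ y ∈ Y, u y (sig q) = 0)
    (hl : ∀ y ∈ Y, (G.t y).LocT q (c y - u y))
    (hz : ∀ (R : Finset (Sx n)) (r : ℕ) (β : Sx n → Fin (M + 1) → ℤ), R.card = r + 1 →
      (∀ i, β i (x i) = 0) → Sg c (k + 2 * r + 1) (fun y => a y * ∏ i ∈ R, β i (y i)) (sig q) = 0) :
    ((G.t x).it k).LocT q (∑ y, a y • (w ^ k • (c y - u y))) := by
  have h1 : ∀ i s, ¬ (q : ℤ) ∣ G.pr i s := fun i s k => h.ndvd i s (by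
    rwa [← (Nat.prime_dvd_prime_iff_eq hq (h.prime _ _)).1 (Int.natCast_dvd_natCast.1 k)])
  rcases h.sq x q hq h2 ((h.dvd_N hq x).2 (.inl hN)) with h3 | ⟨-, h3⟩
  · exact hm.locq h x k subset_rfl ha hq h2 h3
      (fun _ _ i => .inr ⟨h1 _ _, h1 _ _, h.fix i _ _ q hq hN⟩) hu hl hz
  refine Tw.locT_sum _ _ _ _ _ fun y _ hy => ?_
  refine ((hl y (ha y hy)).pow k).congr (fun g hg => ?_) fun _ _ => rfl
  simp only [Tw.it, zq_mul]
  rw [h.zq_t y x, prod_eq_one fun i _ => ?_, one_mul]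
  rw [eta, h3 i _ (y i) g hg, div_self (h.r_ne _ _ _)]

theorem Mono.as (h : G.Ok) (hm : G.Mono e Y c) (k : ℕ) : AS G Y c k := by
  induction k using Nat.strong_induction_on with
  | _ k ih =>
  intro T j hT hk hc a ha g
  rcases T.eq_empty_or_nonempty with rfl | ⟨i, hi⟩
  · rw [hm.Sg_zero ha.1 (by rw [card_empty] at hT; omega), ph_neg (notMem_empty _), map_zero]
  obtain ⟨d, s1, hd⟩ := hm.hom h hk ih hT hc ha
  have hd' : ∀ g, kum d g = Sg c j a g - kT (G.ph T a g) := fun g => (congrFun hd g).symm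
  have ht : ∀ g ∈ G.tests, kum d g = 0 := fun g hg => by
    rw [hd', Sg_apply, sum_mono ha.1 (ha.2 i hi) (fun y hy y' hy' => by rw [hm.val y hy y' hy' g hg])
      fun y hy => hm.tors hy _ _]
    by_cases h1 : ia ∈ T
    · rw [ph_pos h1, sum_mono ha.1 (ha.2 i hi) (fun y hy y' hy' => hm.phi y hy y' hy' g hg _)
        fun _ _ => pow_F2 _ _, map_zero, sub_zero]
    · rw [ph_neg h1, map_zero, sub_zero]
  have h0 := h.det 0 j (kum d) ⟨fun g => by rw [pow_one, w_kum],
    fun g g' => by rw [kum_hom, Tw.tw_ker _ _ (w_kum _ _)], lc_kum _, fun v hv => ?_,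
    fun v hv h2 hD _ => ?_, fun _ hv => hv.elim, fun p hp h2 hD => ?_⟩ fun q hq =>
      ht _ (mem_union_right _ (mem_image_of_mem _ hq))
  · exact sub_eq_zero.1 ((hd' g).symm.trans (congrFun h0 g))
  · refine (hm.loc h 0 j ha.1 hv).congr (fun _ _ => rfl) fun g hg => ?_
    rw [hd', ph_zero ha fun s s' => h.kit.fix s s' v (hv.imp_right ?_) g hg, map_zero, sub_zero]
    rintro rfl
    exact ⟨Nat.prime_two, dvd_mul_of_dvd_left (by norm_num) _⟩
  · by_cases hq : v ∈ G.J ∪ univ.image fun i => G.pr i 0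
    · have a1 := kT_inj ((ht _ (mem_union_left _ (mem_union_left _
        (mem_image_of_mem _ hq)))).trans (map_zero kT).symm)
      have a3 := kT_inj ((ht _ (mem_union_left _ (mem_union_right _
        (mem_image_of_mem _ hq)))).trans (map_zero kT).symm)
      refine (Tw.locT_zero _ v).congr (fun _ _ => rfl) fun g hg => ?_
      rw [kum, chi_Gv hv h2 s1.ne_zero a1 a3 g hg, map_zero, Pi.zero_apply]
    · have h1 : (v : ℤ) ∣ G.N := ((h.dvd_N hv 0).1 ((Tw.dvd_it _ hv h2 j).1 hD)).resolve_right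
        fun ⟨j, hj⟩ => hq (mem_union_right _ (mem_image.2 ⟨j, mem_univ _, hj.symm⟩))
      have h3 := fun s s' => h.kit.fix s s' v (.inr ⟨hv, h.dv v hv h1⟩)
      refine (hm.locN h 0 j ha.1 hv h2 h1 (u := 0) (fun _ _ => rfl) (fun y hy => ?_)
        fun R r β hR _ => ?_).congr (fun _ _ => rfl) fun g hg => ?_
      · rw [Pi.zero_apply, sub_zero]
        exact (hm.lf y hy).1.ram v hv h2 ((h.dvd_N hv y).2 (.inl h1))
          fun k => hq (mem_union_left _ k)
      · have h5 : Lam Y (T \ R) fun y => a y * ∏ i ∈ R, β i (y i) := lam_mul ha id β R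
        have h4 := card_sdiff_add_card_inter T R
        have h6 := card_le_card (inter_subset_right (s₁ := T) (s₂ := R))
        by_cases h7 : r = 0 ∧ (T ∩ R).card = 1
        · rw [ih (T \ R).card (by omega) (T \ R) (j + 2 * r + 1) rfl (by omega) (fun k => hc (mem_sdiff.1 k).1)
            _ h5, ph_zero h5 fun s s' => h3 s s' _ (sig_mem hv h2), map_zero]
        · exact hm.bs ih (by omega) h5 (by omega) _
      · rw [hd', ph_zero ha fun s s' => h3 s s' g hg, map_zero, sub_zero]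
        simp only [Pi.zero_apply, sub_zero, Sg]
  · rw [hd', hm.unr h (hT ▸ hk) ⟨i, hi⟩ hc ha hp h2 fun k => hD ((Tw.dvd_it _ hp h2 j).2
      ((h.dvd_N hp 0).2 (Or.inl k))), sub_self]

end Gd

end Pool.Agent.Lib.MP_696deb_nt.QA
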