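import Pool.Agent.Lib.MP_696deb_nt.QA.Chain
import Pool.Agent.Lib.MP_696deb_nt.QA.Core
import Pool.Agent.Lib.MP_696deb_nt.QA.GenB
import Pool.Agent.Lib.MP_696deb_nt.QA.Ref
import Pool.Agent.Lib.MP_696deb_nt.Q4.Refine
import Pool.Agent.Lib.MP_696deb_nt.Sm.Main

/-! Few twists have many liftable classes. -/

set_option autoImplicit false

open scoped Classical
open Finset Function

namespace Pool.Agent.Lib.MP_696deb_nt.QA

open Sm Q4

theorem big_fib (K m : ℕ) : ∃ c : ℕ, ∀ B : EB, B.Hyp c → B.Rf → ∀ a : B.Mat, B.qG K a →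
    (({x ∈ B.fib a | (B.qT x).Big (2 * m)} : Finset _).card : ℝ) * 2 ^ m ≤
      4 * K * (B.fib a).card := by
  obtain ⟨c, hc⟩ := QA.chain_main K m one_pos
  refine ⟨max c 1, fun B hB hr a hG => ?_⟩
  have h := hB.wf
  have hB1 := hB.mono (le_max_right _ _)
  have hBc := hB.mono (le_max_left _ _)
  rcases (B.fib a).eq_empty_or_nonempty with h0 | hne
  · rw [h0]; simp
  obtain ⟨j0, -⟩ : (B.I 0).Nonempty := by
    have k1 := hB1.hyp.hH
    have k2 := hB1.hyp.win 0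
    rw [Box.k0] at k1
    exact card_pos.1 (by omega)
  set S : Finset (ℕ × B.Pat) := {y ∈ range 2 ×ˢ univ | y.2 ∈ B.qS y.1 a ∧ y.2 (.inr j0) = 0 ∧
    ∃ i, y.2 (.inr i) = 1} with hS
  have k1 : ({x ∈ B.fib a | (B.qT x).Big (2 * m)} : Finset _) ⊆ S.biUnion fun y =>
      {x ∈ B.fib a | B.qc x y.2 ∈ ((B.qT x).it y.1).AA (2 * m) ∧
        ((B.qT x).it y.1).Big (2 * m)} := fun x hx => by
    obtain ⟨hx, h16⟩ := mem_filter.1 hx
    obtain ⟨j, hj, P, hP, c1, c2, c3⟩ := EB.exists_qnorm hB1 hr hx h16 j0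
    refine mem_biUnion.2 ⟨(j, P), mem_filter.2 ⟨mem_product.2 ⟨mem_range.2 (by omega), mem_univ _⟩,
      hP, c1, c2⟩, mem_filter.2 ⟨hx, c3, ?_⟩⟩
    obtain rfl | rfl : j = 0 ∨ j = 1 := by omega
    · rwa [Tw.it_zero]
    · exact h16.it
  have k2 : ∀ y ∈ S, (({x ∈ B.fib a | B.qc x y.2 ∈ ((B.qT x).it y.1).AA (2 * m) ∧
      ((B.qT x).it y.1).Big (2 * m)} : Finset _).card : ℝ) * 2 ^ m ≤ 2 * (B.fib a).card := by
    intro y hy
    obtain ⟨-, p1, p2, j1, p3⟩ := mem_filter.1 hy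
    have a1 := hc B hBc hr a hG y.1 y.2 p1 j0 j1 p2 p3
    have a2 : ({x ∈ B.fib a | B.qc x y.2 ∈ ((B.qT x).it y.1).AA (2 * m) ∧
        ((B.qT x).it y.1).Big (2 * m)} : Finset _).card * 16 ^ m ≤ B.qW a y.1 (2 * m) y.2 :=
      (card_nsmul_le_sum _ _ _ fun x hx =>
        Tw.card_Om (mem_filter.1 hx).2.1 (mem_filter.1 hx).2.2).trans
        (sum_le_sum_of_subset (filter_subset _ _))
    have a3 := (Nat.cast_le (α := ℝ).2 a2).trans a1
    have a4 : (1 : ℝ) ≤ 8 ^ m := one_le_pow₀ (by norm_num)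
    push_cast at a3
    rw [show (16 : ℝ) ^ m = 2 ^ m * 8 ^ m by rw [← mul_pow]; norm_num, ← mul_assoc] at a3
    refine le_of_mul_le_mul_right (a3.trans ?_) (show (0 : ℝ) < 8 ^ m by positivity)
    nlinarith [(Nat.cast_nonneg (B.fib a).card : (0 : ℝ) ≤ _)]
  have k3 : (S.card : ℝ) ≤ 2 * K := by
    have e1 : S ⊆ (B.qS 0 a).image (fun P => (0, P)) ∪ (B.qS 1 a).image fun P => (1, P) := by
      rintro ⟨j, P⟩ hy
      obtain ⟨q1, q2, -⟩ := mem_filter.1 hy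
      have q3 := mem_range.1 (mem_product.1 q1).1
      obtain rfl | rfl : j = 0 ∨ j = 1 := by omega
      · exact mem_union_left _ (mem_image_of_mem _ q2)
      · exact mem_union_right _ (mem_image_of_mem _ q2)
    have e2 := (card_le_card e1).trans ((card_union_le _ _).trans (Nat.add_le_add
      (card_image_le.trans (h.card_qS_le hG hne 0)) (card_image_le.trans (h.card_qS_le hG hne 1))))
    rw [← two_mul] at e2
    exact_mod_cast e2
  have k4 := Nat.cast_le (α := ℝ).2 ((card_le_card k1).trans card_biUnion_le)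
  refine (mul_le_mul_of_nonneg_right k4 (by positivity)).trans ?_
  rw [Nat.cast_sum, sum_mul]
  refine (sum_le_card_nsmul _ _ _ k2).trans ?_
  rw [nsmul_eq_mul]
  nlinarith [(Nat.cast_nonneg (B.fib a).card : (0 : ℝ) ≤ _)]

theorem main_nongen (e : ℕ) {ε : ℝ} (hε : 0 < ε) : ∃ K c : ℕ, ∀ B : EB, B.e = e → B.Hyp c →
    (({x ∈ B.pts | ¬ B.qG K (B.mat x)} : Finset _).card : ℝ) ≤ ε * B.pts.card := by
  obtain ⟨K, c, hc⟩ := gen_mainE e (half_pos hε)
  obtain ⟨c', hc'⟩ := equi_main one_pos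
  refine ⟨K, max c c', fun B he hB => ?_⟩
  have k1 := hc B he (hB.mono (le_max_left _ _))
  have k0 : (0 : ℝ) < Fintype.card B.Mat := Nat.cast_pos.2 Fintype.card_pos
  rw [main_fib B.toBox]
  refine (sum_le_sum (g := fun a => if ¬ B.qG K a then 2 * ((B.pts.card : ℝ) /
    Fintype.card B.Mat) else 0) fun a _ => ?_).trans ?_
  · split_ifs with ha
    · rw [filter_false_of_mem fun x hx => by rw [(Box.mem_fib.1 hx).2]; exact not_not.2 ha]
      simp
    · have := (abs_le.1 (hc' B.toBox (hB.mono (le_max_right _ _)).hyp a)).2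
      exact (Nat.cast_le.2 (card_filter_le _ _)).trans (by linarith)
  · rw [← sum_filter, sum_const, nsmul_eq_mul]
    refine (mul_le_mul_of_nonneg_right k1 (by positivity)).trans (le_of_eq ?_)
    field_simp

theorem main_big (K : ℕ) {ε : ℝ} (hε : 0 < ε) : ∃ m c : ℕ, ∀ B : EB, B.Hyp c → B.Rf →
    (({x ∈ B.pts | B.qG K (B.mat x) ∧ (B.qT x).Big (2 * m)} : Finset _).card : ℝ) ≤
      ε * B.pts.card := by
  obtain ⟨m, h0⟩ := pow_unbounded_of_one_lt (4 * K / ε) (one_lt_two (α := ℝ))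
  obtain ⟨c, hc⟩ := QA.big_fib K m
  refine ⟨m, c, fun B hB hr => ?_⟩
  have k1 : (4 : ℝ) * K ≤ ε * 2 ^ m := by
    have := h0.le
    rwa [div_le_iff₀' hε] at this
  have k2 := main_fib B.toBox fun _ => True
  simp only [filter_true] at k2
  rw [main_fib B.toBox, k2, mul_sum]
  refine sum_le_sum fun a _ => ?_
  by_cases ha : B.qG K a
  · refine le_of_mul_le_mul_right ?_ (show (0 : ℝ) < 2 ^ m by positivity)
    refine (mul_le_mul_of_nonneg_right (Nat.cast_le.2 (card_le_card fun x hx => ?_))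
      (by positivity)).trans ((hc B hB hr a ha).trans ?_)
    · exact mem_filter.2 ⟨(mem_filter.1 hx).1, (mem_filter.1 hx).2.2⟩
    · nlinarith [(Nat.cast_nonneg (B.fib a).card : (0 : ℝ) ≤ _)]
  · rw [filter_false_of_mem fun x hx => by rw [(Box.mem_fib.1 hx).2]; exact fun k => ha k.1]
    simp; positivity

/-- The property whose frequency is bounded. -/
def BadE (e m : ℕ) (d : ℤ) : Prop :=
  (∀ p : ℕ, p.Prime → p ∣ e → (p : ℤ) ∣ d) ∧ (tD (e * d)).Big (2 * m)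

theorem lt_box {B : Box} {e : ℕ} (hB : B.Hyp e) {j : Fin B.r} {p : ℕ} (hp : p ∈ B.X j) :
    e < p := by
  have h1 : (2 : ℝ) ≤ 2 ^ ((B.r + B.k0 + 1) ^ 2) / B.θ := by
    rw [le_div_iff₀ hB.pos]
    have : (2 : ℝ) ^ 1 ≤ 2 ^ ((B.r + B.k0 + 1) ^ 2) :=
      pow_le_pow_right₀ one_le_two (Nat.one_le_pow _ _ (Nat.succ_pos _))
    nlinarith [hB.le1, hB.pos]
  have h2 : (2 : ℝ) ^ e ≤ B.Y := (pow_le_pow_left₀ zero_le_two h1 e).trans hB.hc
  have h3 : 2 ^ e ≤ B.Y := by exact_mod_cast h2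
  have h4 := hB.hY j
  have h5 := (hB.rng j p hp).1
  have h6 : e < 2 ^ e := Nat.lt_two_pow_self
  omega

theorem ed_of {B : Box} {e : ℕ} (he : e ≠ 0) (hB : B.Hyp e) {x : Fin B.r → ℕ} (hx : x ∈ B.pts)
    (h : ∀ p : ℕ, p.Prime → p ∣ e → (p : ℤ) ∣ B.DD x) : EB.Ed ⟨B, e⟩ := by
  refine ⟨he, fun p hp hd => ?_⟩
  have hp' := Nat.prime_iff_prime_int.1 hp
  have k := h p hp hd
  rw [Box.DD] at k
  refine (hp'.dvd_or_dvd k).resolve_right fun k => ?_
  obtain ⟨j, -, hj⟩ := hp'.exists_mem_finset_dvd k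
  have hm := Box.mem_pts.1 hx j
  have e1 := (Nat.prime_dvd_prime_iff_eq hp (hB.wf.prime j _ hm)).1 (Int.natCast_dvd_natCast.1 hj)
  have e2 := lt_box hB hm
  have e3 : p ≤ e := Nat.le_of_dvd (Nat.pos_of_ne_zero he) hd
  omega

theorem box_main {e : ℕ} (he : e ≠ 0) {ε : ℝ} (hε : 0 < ε) : ∃ m c : ℕ, ∀ B : Box, B.Hyp c →
    (({x ∈ B.pts | BadE e m (B.DD x)} : Finset _).card : ℝ) ≤ ε * B.pts.card := by
  have p : 0 < ε / 4 := by positivity
  obtain ⟨K, a0, g0⟩ := QA.main_nongen e p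
  obtain ⟨m, b0, m0⟩ := QA.main_big K p
  obtain ⟨L, cl, hcl⟩ := exists_clE he
  obtain ⟨c', hc'⟩ := refine_main cl (a0 + b0 + e) (half_pos hε)
  refine ⟨m, c', fun B hB => (hc' (BadE e m) (fun B hB hk => ?_) B hB).trans
    (le_of_eq (by ring))⟩
  rcases ({x ∈ B.pts | BadE e m (B.DD x)} : Finset _).eq_empty_or_nonempty with h0 | ⟨x0, h0⟩
  · rw [h0, card_empty, Nat.cast_zero]
    positivity
  have ed := ed_of he (hB.mono (by omega)) (mem_filter.1 h0).1 (mem_filter.1 h0).2.1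
  obtain ⟨E, rfl, rfl⟩ : ∃ E : EB, E.toBox = B ∧ E.e = e := ⟨⟨B, e⟩, rfl, rfl⟩
  have hE : E.Hyp (a0 + b0 + E.e) := ⟨hB, ed⟩
  have h := hE.wf
  have cop : ∀ j, ∀ q ∈ E.X j, q.Coprime (2 * E.e) := fun j q hq => by
    have hq' := h.prime j q hq
    refine hq'.coprime_iff_not_dvd.2 fun k => (hq'.dvd_mul.1 k).elim (fun k => ?_) (h.ndvd_e hq)
    exact h.cop j q hq (((Int.natCast_dvd_natCast.2 k).trans (by norm_num)).mul_right _)
  have hr : E.Rf := fun j q hq q' hq' => hcl q q' (cop j q hq) (cop j q' hq') (hk j q hq q' hq')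
  have g0 := g0 E rfl (hE.mono (by omega))
  have m0 := m0 E (hE.mono (by omega)) hr
  have k1 : ({x ∈ E.pts | BadE E.e m (E.DD x)} : Finset _) ⊆
      {x ∈ E.pts | ¬ E.qG K (E.mat x)} ∪
        {x ∈ E.pts | E.qG K (E.mat x) ∧ (E.qT x).Big (2 * m)} := fun x hx => by
    obtain ⟨hx, -, hb⟩ := mem_filter.1 hx
    by_cases k : E.qG K (E.mat x)
    · exact mem_union_right _ (mem_filter.2 ⟨hx, k,
        hb.same (by rw [h.qT_N hx, tD_N (h.N_ne hx)])⟩)
    · exact mem_union_left _ (mem_filter.2 ⟨hx, k⟩)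
  have k2 := Nat.cast_le (α := ℝ).2 ((card_le_card k1).trans (card_union_le _ _))
  push_cast at k2
  linarith

theorem few_bad {e : ℕ} (he : e ≠ 0) {ε : ℝ} (hε : 0 < ε) : ∃ m X0 : ℕ, ∀ X ≥ X0,
    (({d ∈ Icc (-(X : ℤ)) X | Squarefree d ∧ BadE e m d} : Finset ℤ).card : ℝ) ≤
      ε * X := by
  obtain ⟨n, c, hc⟩ := QA.box_main he (ε := ε / 8) (by positivity)
  obtain ⟨X0, h0⟩ := an_main c (ε := ε / 4) (by positivity)
  refine ⟨n, X0, fun X hX => ?_⟩
  have key : ∀ s : ℤ, s = 1 ∨ s = -1 → (({m ∈ Icc 1 X | Squarefree m ∧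
      BadE e n (s * m)} : Finset ℕ).card : ℝ) ≤ ε / 2 * X := fun s hs => by
    obtain ⟨N, B, k1, k2, k3⟩ := h0 X hX s hs
    have k4 : ({m ∈ Icc 1 X | Squarefree m ∧ BadE e n (s * m)} : Finset ℕ) ⊆
        {m ∈ Icc 1 X | Squarefree m ∧ ¬ ∃ i, ∃ x ∈ (B i).pts, (B i).DD x = s * m} ∪
        univ.biUnion fun i => ({x ∈ (B i).pts | BadE e n ((B i).DD x)} :
          Finset _).image fun x => ((B i).DD x).natAbs := fun m hm => by
      obtain ⟨m1, m2, m3⟩ := mem_filter.1 hm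
      by_cases h : ∃ i, ∃ x ∈ (B i).pts, (B i).DD x = s * m
      · obtain ⟨i, x, hx, e⟩ := h
        refine mem_union_right _ (mem_biUnion.2 ⟨i, mem_univ _, mem_image.2
          ⟨x, mem_filter.2 ⟨hx, e ▸ m3⟩, ?_⟩⟩)
        rw [e]; rcases hs with rfl | rfl <;> simp
      · exact mem_union_left _ (mem_filter.2 ⟨m1, m2, h⟩)
    have k5 := Nat.cast_le (α := ℝ).2 ((card_le_card k4).trans ((card_union_le _ _).trans
      (Nat.add_le_add_left (card_biUnion_le.trans (sum_le_sum fun i _ => card_image_le)) _)))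
    have k6 := sum_le_sum fun i (_ : i ∈ univ) => hc (B i) (k1 i)
    have k7 : ∑ i, ((B i).pts.card : ℝ) ≤ 2 * X := by exact_mod_cast k2
    rw [← mul_sum] at k6
    push_cast at k5
    nlinarith
  have k1 : ({d ∈ Icc (-(X : ℤ)) X | Squarefree d ∧ BadE e n d} : Finset ℤ) ⊆
      ({m ∈ Icc 1 X | Squarefree m ∧ BadE e n (1 * m)} : Finset ℕ).image
        (fun m : ℕ => (1 : ℤ) * m) ∪
      ({m ∈ Icc 1 X | Squarefree m ∧ BadE e n (-1 * m)} : Finset ℕ).image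
        fun m : ℕ => (-1 : ℤ) * m := fun d hd => by
    obtain ⟨d1, d2, d3⟩ := mem_filter.1 hd
    have d4 : d.natAbs ∈ Icc 1 X := by
      have := d2.ne_zero
      rw [mem_Icc] at d1 ⊢
      omega
    have d5 := Int.squarefree_natAbs.2 d2
    rcases le_total 0 d with h | h
    · have e : (1 : ℤ) * d.natAbs = d := by omega
      exact mem_union_left _ (mem_image.2 ⟨_, mem_filter.2 ⟨d4, d5, e.symm ▸ d3⟩, e⟩)
    · have e : (-1 : ℤ) * d.natAbs = d := by omega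
      exact mem_union_right _ (mem_image.2 ⟨_, mem_filter.2 ⟨d4, d5, e.symm ▸ d3⟩, e⟩)
  have k2 := Nat.cast_le (α := ℝ).2 ((card_le_card k1).trans ((card_union_le _ _).trans
    (Nat.add_le_add card_image_le card_image_le)))
  push_cast at k2
  linarith [key 1 (.inl rfl), key (-1) (.inr rfl)]

theorem few_bigE {e : ℕ} (he : e ≠ 0) : FewE e := fun _ hε => by
  obtain ⟨m, X0, h⟩ := few_bad he hε
  exact ⟨m, X0, fun X hX => by convert h X hX using 4; rfl⟩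

end Pool.Agent.Lib.MP_696deb_nt.QA
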