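import Pool.Agent.Lib.MP_696deb_nt.QA.Grid
import Pool.Agent.Lib.MP_696deb_nt.QA.Pat
import Pool.Agent.Lib.MP_696deb_nt.Sm.Step

/-! The halving step on a fibre of a box. -/

set_option autoImplicit false

open scoped Classical
open Finset Function

namespace Pool.Agent.Lib.MP_696deb_nt.QA.EB

open Sm Q4
open Sm.Box (DD dD pat lam mem_fib mem_pts pata_ne step_prod step_Df step_val step_off)

variable (B : EB)

/-- The class of `P` at `x` has a relaxed lift with prescribed values. -/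
def qL (n j : ℕ) (P : B.Pat) (J Jev : Finset (Fin B.r)) (e : Fin B.r → A) (x : Fin B.r → ℕ) :
    Prop := ∃ c, ((B.qT x).it j).IsZ (x '' J) (n + 1) c ∧ w ^ n • c = B.qc x P ∧
      ∀ i ∈ Jev, w • c (sig (x i)) = e i

noncomputable def qY (a : B.Mat) (n j : ℕ) (P : B.Pat) (J Jev : Finset (Fin B.r))
    (e : Fin B.r → A) : ℕ := ({x ∈ B.fib a | B.qL n j P J Jev e x} : Finset _).card

/-- The combinatorial hypotheses of the step. -/
structure QH {n : ℕ} (a : B.Mat) (j : ℕ) (P b : B.Pat) (J Jev : Finset (Fin B.r))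
    (σ : Sx n → Fin B.r) : Prop where
  inj : Injective σ
  w0 : ∀ i, σ (.inl i) ∈ B.I 0
  w1 : σ ic ∈ B.I 1
  w2 : σ ia ∈ B.I 2
  out : ∀ i, σ i ∉ J ∧ σ i ∉ Jev
  det : B.qD a Jev
  hb : b ∈ B.qS (j + 1) a
  hU : ∀ i, P (.inr (σ (.inl i))) = 0
  ha : P (.inr (σ ia)) = 1
  hJ : ∀ i ∈ J, b (.inr i) = 0
  hS : ∀ i, i ≠ ic → b (.inr (σ i)) = 0
  pair : b (.inr (σ ic)) = 1

/-- The grid attached to a sample. -/
noncomputable def qgd {n M : ℕ} (σ : Sx n → Fin B.r) (x0 : Fin B.r → ℕ)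
    (pr : Sx n → Fin (M + 1) → ℕ) (f : Fin (M + 1) → GQ → Gm n M → F2) (j : ℕ) (P b : B.Pat)
    (J Jev : Finset (Fin B.r)) : QA.Gd n M where
  pr := pr
  r i s := q4 (pr i s)
  t y := (B.qT (gpt σ x0 pr y)).it j
  ρ := q4 (B.e * B.D0) * (∏ i with i ∉ Set.range σ, q4 (x0 i)) * (1 - II) ^ j
  N := (-4) ^ j * (B.e * (B.D0 * ∏ i with i ∉ Set.range σ, (x0 i : ℤ)))
  Df := B.D0 * ∏ i with i ∉ Set.range σ, (x0 i : ℤ)
  f := f
  J := J.image x0
  Jev := Jev.image x0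
  a1 := B.val x0 (B.off σ P)
  al i := P (.inr (σ i))
  b y := B.val (gpt σ x0 pr y) b

variable {B} {n M k : ℕ} {σ : Sx n → Fin B.r} {x0 : Fin B.r → ℕ}
  {pr : Sx n → Fin (M + 1) → ℕ} {f : Fin (M + 1) → GQ → Gm n M → F2} {P b : B.Pat}
  {J Jev : Finset (Fin B.r)} {a : B.Mat}

theorem qgd_D (h : Injective σ) (y : Zg n M) : B.DD (gpt σ x0 pr y) =
    (B.D0 * ∏ j with j ∉ Set.range σ, (x0 j : ℤ)) * ∏ i, (pr i (y i) : ℤ) := by
  rw [DD, step_prod h, step_Df, ← mul_assoc]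
  simp only [gpt_apply x0 pr y h]

theorem qgd_a (h : Injective σ) (y : Zg n M) :
    (B.qgd σ x0 pr f k P b J Jev).a y = B.qc (gpt σ x0 pr y) P := by
  rw [qc, ← step_val h]
  rfl

theorem qgd_dv (he : B.Ed) {q : ℕ} (hq : q.Prime) {D : ℤ}
    (h : (q : ℤ) ∣ (-4) ^ k * (B.e * (B.D0 * D))) : (q : ℤ) ∣ 30 * (B.D0 * D) := by
  have hp := Nat.prime_iff_prime_int.1 hq
  rcases hp.dvd_or_dvd h with h | h
  · exact (hp.dvd_of_dvd_pow (n := 2) ((hp.dvd_of_dvd_pow h).trans (by norm_num))).mul_right _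
  rcases hp.dvd_or_dvd h with h | h
  · exact ((he.2 q hq (Int.natCast_dvd_natCast.1 h)).mul_right _).mul_left _
  · exact h.mul_left _

theorem qgd_ok (h : B.Wf) (hr : B.Rf) (hn : 1 ≤ n) (hs : B.QH a k P b J Jev σ)
    (hp : ∀ i, Injective (pr i)) (hx : ∀ y, gpt σ x0 pr y ∈ B.fib a)
    (hk : FKit pr (B.D0 * ∏ j with j ∉ Set.range σ, (x0 j : ℤ)) f) :
    (B.qgd σ x0 pr f k P b J Jev).Ok := by
  have hi := hs.inj
  have hx' := fun y => (mem_fib.1 (hx y)).1
  have ga := fun y => gpt_apply x0 pr y hi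
  have hm : ∀ i s, pr i s ∈ B.X (σ i) := fun i s => ga (fun _ => s) i ▸ mem_pts.1 (hx' _) (σ i)
  have hout : ∀ j ∈ J ∪ Jev, j ∉ Set.range σ := by
    rintro _ hj ⟨i, rfl⟩
    exact (mem_union.1 hj).elim (hs.out i).1 (hs.out i).2
  have hsig : ∀ y j (A : B.Pat), chi (B.val (gpt σ x0 pr y) A) (sig (gpt σ x0 pr y j)) =
      A (.inr j) := fun y j A => h.chi_val_sig (hx' y) (k := .inr j) trivial A
  have hsq : ∀ y : Zg n M, Squarefree ((B.D0 * ∏ j with j ∉ Set.range σ, (x0 j : ℤ)) *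
      ∏ i, (pr i (y i) : ℤ)) := fun y => qgd_D hi y ▸ h.DD_sqf (hx' y)
  have hoff : ∀ i s (A : B.Pat), ¬ (pr i s : ℤ) ∣ B.val x0 (B.off σ A) := fun i s A hd => by
    have hp := Nat.prime_iff_prime_int.1 (h.prime _ _ (hm i s))
    rw [step_off (pr := pr) fun _ => s, Box.val] at hd
    obtain ⟨k, -, hk⟩ := hp.exists_mem_finset_dvd hd
    have k0 : B.off σ A k ≠ 0 := fun e => hp.not_dvd_one (by simpa [e] using hk)
    have k1 := hp.dvd_of_dvd_pow hk
    rcases k with (_ | q) | j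
    · exact hp.not_dvd_one (dvd_neg.1 k1)
    · refine h.cop _ _ (hm i s) (k1.trans ?_)
      have := (Nat.mem_primeFactors.1 q.2).2.1
      exact Int.natCast_dvd.2 (by simpa [Int.natAbs_mul] using this)
    · have e : pr i s = gpt σ x0 pr (fun _ => s) j := (Nat.prime_dvd_prime_iff_eq
        (h.prime _ _ (hm i s)) (h.prime _ _ (mem_pts.1 (hx' _) j))).1 (Int.natCast_dvd_natCast.1 k1)
      exact k0 (if_pos ⟨i, congrArg _ (h.inj (hx' _) (e.symm.trans (ga (fun _ => s) i).symm))⟩)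
  have hcop : ∀ i s, ¬ (pr i s : ℤ) ∣ 30 * (B.D0 * ∏ j with j ∉ Set.range σ, (x0 j : ℤ)) :=
    fun i s hd => by
    have hp := Nat.prime_iff_prime_int.1 (h.prime _ _ (hm i s))
    rcases hp.dvd_or_dvd hd with k | k
    · exact h.cop _ _ (hm i s) (k.mul_right _)
    · exact hp.not_isUnit (hsq (fun _ => s) _ (mul_dvd_mul k (dvd_prod_of_mem _ (mem_univ i))))
  refine ⟨hn, fun i s => h.prime _ _ (hm i s), fun i s hd => hcop i s ?_, fun i s i' s' e => ?_,
    fun y => ?_, fun y q hq q2 hd => ?_, fun i s => q4_pow _, fun y => ?_,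
    fun i s s' v hv g hg => ?_, fun i s s' v hv hd => ?_, fun i s s' i' t hne => ?_, hk,
    fun q hq => qgd_dv h.ed hq, fun q hq => ?_, fun i s => hoff i s _, hs.hU, hs.ha,
    fun y l c hc h0 => ?_, fun y => h.val_ne (hx' y) _, fun y => ?_, fun y q hq hne => ?_,
    fun y => ?_⟩
  · rcases (Nat.prime_iff_prime_int.1 (h.prime _ _ (hm i s))).dvd_or_dvd hd with k | k
    · exact (k.trans (by norm_num)).mul_right _
    · exact qgd_dv h.ed (h.prime _ _ (hm i s)) k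
  · obtain rfl : i = i' :=
      hi (h.disj _ _ _ (hm i s) (by rw [show pr i s = pr i' s' from e]; exact hm _ _))
    exact ⟨rfl, hp i e⟩
  · change (-4) ^ k * (B.qT _).N = _
    rw [h.qT_N (hx' y), qgd_D hi, ← mul_assoc (B.e : ℤ), ← mul_assoc]
    rfl
  · by_cases he : q ∣ B.e
    · refine .inr ⟨?_, fun i s s' => hr _ _ (hm i s) _ (hm i s') q hq (he.mul_left _)⟩
      rintro (hJ | ⟨i, rfl⟩)
      · obtain ⟨j, hj, rfl⟩ := mem_image.1 hJ
        exact h.ndvd_e (gpt_not x0 pr 0 (hout j (mem_union_left _ hj)) ▸ mem_pts.1 (hx' 0) j) he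
      · exact h.ndvd_e (hm _ _) he
    · exact .inl (h.qT_U (hx' y) hq q2 he
        ((h.qT_dvd (hx' y) hq).1 ((Tw.dvd_it _ hq q2 k).1 hd)) k)
  · change (B.qT _).ρ * (1 - II) ^ k = _
    rw [h.qT_ρ (hx' y), step_prod hi, prod_congr rfl fun j hj => by
      rw [gpt_not x0 pr y (mem_filter.1 hj).2], ← mul_assoc, mul_right_comm]
    simp only [ga]
    rfl
  · rcases hv with rfl | rfl
    · exact (zq_q4_zero (Nat.cast_pos.2 (h.prime _ _ (hm i s)).pos) g hg).trans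
        (zq_q4_zero (Nat.cast_pos.2 (h.prime _ _ (hm i s')).pos) g hg).symm
    · exact hr _ _ (hm i s) _ (hm i s') 2 Nat.prime_two (dvd_mul_right _ _) g hg
  · replace hd := qgd_dv h.ed hv hd
    rw [← mul_assoc] at hd
    rcases (Nat.prime_iff_prime_int.1 hv).dvd_or_dvd hd with k | k
    · exact h.chi_small (hm i s) (hm i s') (.inr ⟨hv, k⟩)
    obtain ⟨j, hj, k⟩ := (Nat.prime_iff_prime_int.1 hv).exists_mem_finset_dvd k
    have hj := (mem_filter.1 hj).2
    have e := fun y => gpt_not x0 pr y hj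
    obtain rfl : v = x0 j := (Nat.prime_dvd_prime_iff_eq hv
      (e 0 ▸ h.prime _ _ (mem_pts.1 (hx' 0) j))).1 (Int.natCast_dvd_natCast.1 k)
    have := h.chi_cross (hx fun _ => s) (hx fun _ => s') (i := σ i) (j := j)
      (fun k => hj ⟨i, k⟩) ((e _).trans (e _).symm)
    rwa [e, ga, ga] at this
  · have := h.chi_cross (hx (update (fun _ => t) i s)) (hx (update (fun _ => t) i s')) (i := σ i)
      (j := σ i') (fun k => hne (hi k).symm) (by rw [ga, ga, update_of_ne hne, update_of_ne hne])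
    rwa [ga, ga, ga, update_of_ne hne, update_self, update_self] at this
  · obtain ⟨j, hj, rfl⟩ := mem_image.1 hq
    have hj := hout j (mem_union_left _ hj)
    have m := gpt_not x0 pr 0 hj ▸ mem_pts.1 (hx' 0) j
    refine ⟨h.prime _ _ m, fun k => h.cop _ _ m (Dvd.dvd.mul_right (by rw [k]; norm_num) _), ?_⟩
    exact ((dvd_prod_of_mem (fun j => (x0 j : ℤ))
      (mem_filter.2 ⟨mem_univ j, hj⟩)).mul_left _).mul_left _ |>.mul_left _
  · refine h.qdet hr hs.det (hx y) (Tw.it_it _ k l ▸ hc) fun j hj => ?_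
    rw [gpt_not x0 pr y (hout j (mem_union_right _ hj))]
    exact h0 _ (mem_image_of_mem _ hj)
  · exact (Tw.it_it _ k 1).symm ▸ isZ_of_qS hs.hb (hx y)
  · rcases hq with hq | ⟨i, rfl⟩
    · obtain ⟨j, hj, rfl⟩ := mem_image.1 hq
      rw [← gpt_not x0 pr y (hout j (mem_union_left _ hj))]
      exact (hsig y j _).trans (hs.hJ j hj)
    · change chi _ (sig (pr i (y i))) = 0
      rw [← ga]
      exact (hsig y _ _).trans (hs.hS i (by rintro rfl; exact hne rfl))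
  · change chi (B.val _ _) (sig (pr ic (y ic))) = 1
    rw [← ga, hsig]
    exact hs.pair

theorem qgd_lf (h : B.Wf) (hs : B.QH a k P b J Jev σ) (hx : ∀ y, gpt σ x0 pr y ∈ B.fib a)
    (e : Fin B.r → A) : ∃ e' : ℕ → A, ∀ y,
      ((∃ c, (B.qgd σ x0 pr f k P b J Jev).Lf e' (B.qgd σ x0 pr f k P b J Jev).J y c) ↔
        B.qL n k P J Jev e (gpt σ x0 pr y)) ∧
      ((∃ c, (B.qgd σ x0 pr f k P b J Jev).Lf e' ((B.qgd σ x0 pr f k P b J Jev).J2 y) y c) ↔
        B.qL n k P (J ∪ univ.image σ) Jev e (gpt σ x0 pr y)) := by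
  have hi := hs.inj
  have hout : ∀ j ∈ J ∪ Jev, j ∉ Set.range σ := by
    rintro _ hj ⟨i, rfl⟩
    exact (mem_union.1 hj).elim (hs.out i).1 (hs.out i).2
  refine ⟨extend (gpt σ x0 pr 0) e 0, fun y => ?_⟩
  have e1 : ((J.image x0 : Finset ℕ) : Set ℕ) = gpt σ x0 pr y '' J := by
    rw [coe_image]
    exact Set.image_congr fun j hj => (gpt_not x0 pr y (hout j (mem_union_left _ hj))).symm
  have e2 : (B.qgd σ x0 pr f k P b J Jev).J2 y =
      gpt σ x0 pr y '' (J ∪ univ.image σ : Finset _) := by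
    rw [coe_union, Set.image_union, ← e1, coe_image (s := univ), coe_univ, Set.image_univ,
      ← Set.range_comp]
    exact congrArg (fun F => _ ∪ Set.range F) (funext fun i => (gpt_apply x0 pr y hi i).symm)
  have e3 : ∀ c : GQ → A, (∀ q ∈ Jev.image x0, w • c (sig q) = extend (gpt σ x0 pr 0) e 0 q) ↔
      ∀ j ∈ Jev, w • c (sig (gpt σ x0 pr y j)) = e j := fun c => by
    rw [forall_mem_image]
    refine forall₂_congr fun j hj => ?_
    have hj := hout j (mem_union_right _ hj)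
    rw [gpt_not x0 pr y hj]
    conv_lhs => rw [← gpt_not x0 pr 0 hj, (h.inj (mem_fib.1 (hx 0)).1).extend_apply,
      gpt_not x0 pr 0 hj]
  constructor <;> refine exists_congr fun c => ?_
  · rw [QA.Gd.Lf, qgd_a hi, ← e1, ← e3]; rfl
  · rw [QA.Gd.Lf, qgd_a hi, e2, ← e3]; rfl

end Pool.Agent.Lib.MP_696deb_nt.QA.EB

namespace Pool.Agent.Lib.MP_696deb_nt.QA

open Sm Q4

theorem step_main (n m : ℕ) (hn : 1 ≤ n) {ε : ℝ} (hε : 0 < ε) : ∃ c : ℕ, ∀ B : EB,
    B.Hyp c → B.Rf → ∀ (a : B.Mat) (j : ℕ) (P b : B.Pat) (J Jev : Finset (Fin B.r))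
    (σ : Sx n → Fin B.r) (e : Fin B.r → A), B.QH a j P b J Jev σ → J.card ≤ m → Jev.card ≤ m →
    (B.qY a n j P J Jev e : ℝ) ≤
      B.qY a n j P (J ∪ univ.image σ) Jev e / 2 + ε * (B.fib a).card := by
  obtain ⟨N, hN⟩ := grid_main n m
  have p1 : 0 < ε / (4 * (N + 1)) := by positivity
  obtain ⟨M, hM⟩ := good_count n (n + 1) N p1 (β := ε / 8) (by positivity)
  obtain ⟨c, hc⟩ := samp_main n M hn (ε := ε / 4) (by positivity)
  refine ⟨c, fun B hB hr a j P b J Jev σ e hs hJ hJ' => ?_⟩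
  refine (hc B.toBox hB.hyp a σ hs.inj hs.w0 hs.w1 hs.w2 (fun Ph => ¬ Good (n + 1) N (ε / (4 * (N + 1))) Ph)
    (ε / 8) (N * (ε / (4 * (N + 1)))) (by positivity)
    (fun Ph h i hi hh => mt fun k => k.add (by omega) hi hh) (by convert hM) (B.qL n j P J Jev e)
    (B.qL n j P (J ∪ univ.image σ) Jev e) fun x0 pr f hp hx hk hg => ?_).trans ?_
  · obtain ⟨e', he⟩ := EB.qgd_lf (f := f) hB.wf hs hx e
    have := hN M (B.qgd σ x0 pr f j P b J Jev) e' _ (EB.qgd_ok hB.wf hr hn hs hp hx hk)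
      (card_image_le.trans hJ) (card_image_le.trans hJ') (not_not.1 hg)
    simp only [fun y => (he y).1, fun y => (he y).2] at this
    convert this
  · refine add_le_add (le_of_eq (by rw [EB.qY])) (mul_le_mul_of_nonneg_right ?_ (by positivity))
    have : N * (ε / (4 * (N + 1))) ≤ ε / 4 := by
      rw [← mul_div_assoc, div_le_div_iff₀ (by positivity) (by positivity)]
      nlinarith [(Nat.cast_nonneg N : (0 : ℝ) ≤ N)]
    linarith

end Pool.Agent.Lib.MP_696deb_nt.QA
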