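import Pool.Agent.Lib.MP_696deb_nt.QA.Top0
import Pool.Agent.Lib.MP_696deb_nt.QA.Main

/-! The final density statement for all quartic twists. -/

set_option autoImplicit false

open scoped Classical
open Filter Topology

namespace Pool.Agent.Lib.MP_696deb_nt.QA

theorem tend {r : ℕ} (hr : r ≤ 1) :
    Tendsto (fun X : ℕ => (Set.ncard {D : ℤ | |D| ≤ X ∧ Fam D ∧ Good r D} : ℝ) /
      (Set.ncard {D : ℤ | |D| ≤ X ∧ Fam D} : ℝ)) atTop (𝓝 (1 / 2)) :=
  tend_of (fun _ he => few_bigE he) hr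

end Pool.Agent.Lib.MP_696deb_nt.QA
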