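import Pool.Agent.Lib.MP_696deb_nt.QP.H2
import Pool.Agent.Lib.MP_696deb_nt.QA.D0

/-! The local conditions at two for all twists. -/

set_option autoImplicit false

open scoped Classical
open Matrix Module

namespace Pool.Agent.Lib.MP_696deb_nt.QP

open Pool.Agent.Lib.MP_696deb_nt.B2

/-- The two sides exchanged. -/
def Pd.swap {A : Type} [AddCommGroup A] (P : Pd A) : Pd A where
  s j := P.s (!j)
  om j := P.om (!j)
  T := P.T
  K := P.K
  om_act j := P.om_act (!j)
  om_om j := P.om_om (!j)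
  om_surj j := P.om_surj (!j)
  T_ne := P.T_ne
  act_T j := P.act_T (!j)
  K_zero := P.K_zero
  K_one := P.K_one
  K_succ j := P.K_succ (!j)

theorem Pd.swap_L {A : Type} [AddCommGroup A] (P : Pd A) (j : Bool) (H : Subgroup Gam) :
    P.swap.L j H = P.L (!j) H := rfl

theorem Pd.Lq.swap {A : Type} [AddCommGroup A] {P : Pd A} {E : ℤ} (hE : E ≠ 0)
    (h : P.Lq (-4 * E)) : P.swap.Lq E := by
  have sq {a : ℤ} (b : ℤ) (ha : a ≠ 0) (hb : b ≠ 0) (g : Gam) : xi a g = xi (b ^ 2 * a) g := by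
    rw [xi_mul (pow_ne_zero 2 hb) ha, xi_sq, zero_add]
  have e1 : Pd.be (-4 * E) true = Pd.be E false := by
    simp only [Pd.be, cond_true, cond_false]
    ring
  have e2 : Pd.be (-4 * E) false = 4 ^ 2 * Pd.be E true := by
    simp only [Pd.be, cond_true, cond_false]
    ring
  refine ⟨fun j w k => h.good (!j) w fun d => k ?_, fun j => ?_, fun j H a y ha hy e => ?_⟩
  · have hp := Nat.prime_iff_prime_int.1 w.prime
    rw [show 2 * (-4 * E) = 2 ^ 3 * -E by ring] at d
    rcases hp.dvd_or_dvd d with d | d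
    · exact (hp.dvd_of_dvd_pow d).mul_right _
    · exact (dvd_neg.1 d).mul_left _
  · cases j
    · exact e1 ▸ h.tau true
    · exact P.L_congr (h.tau false) fun g _ => by
        rw [e2]
        exact sq 4 (neg_ne_zero.2 hE) four_ne_zero g
  · cases j
    · exact h.pts true H a y ha hy (e1 ▸ e)
    · refine P.L_congr (h.pts false H (2 ^ 2 * a) (8 * y) (mul_ne_zero four_ne_zero ha)
        (fun g hg => by rw [map_mul, hy g hg, map_ofNat]) ?_) fun g _ => sq 2 ha two_ne_zero g
      rw [e2]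
      push_cast
      linear_combination 64 * e

theorem Pd.Lq.two_tab4 {A : Type} [AddCommGroup A] {P : Pd A} {D : ℤ} (h : P.Lq D)
    (hD : QA.Fam D) {w : Plc} (hw : w.p = 2) :
    ∃ M : Bool → Submodule (ZMod 2) (Fin 3 → ZMod 2),
      (∀ j, ∀ x ∈ M j, cmb x ∈ P.L j (Dec w)) ∧
      finrank (ZMod 2) (M false) + finrank (ZMod 2) (M true) = 3 ∧
      (Even (finrank (ZMod 2) (M false)) ↔ QA.W2 D) := by
  by_cases h4 : 4 ∣ D
  · obtain ⟨E, rfl⟩ : ∃ E, D = -4 * E := h4.elim fun c e => ⟨-c, by omega⟩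
    obtain ⟨f, n4, -, k⟩ := QA.quarter hD
    obtain ⟨M, h1, h2, h3⟩ := (h.swap f.ne).two_tab n4 hw
    refine ⟨fun j => M (!j), fun j x hx => ?_, (add_comm _ _).trans h2, ?_⟩
    · simpa only [Pd.swap_L, Bool.not_not] using h1 (!j) x hx
    · have h5 : Even (finrank (ZMod 2) (M false)) ↔ QA.W2 E := h3.trans (by
        unfold QA.W2
        omega)
      rw [k, ← h5, Nat.even_iff, Nat.even_iff]
      change finrank (ZMod 2) (M true) % 2 = 0 ↔ _
      omega
  · obtain ⟨M, h1, h2, h3⟩ := h.two_tab h4 hw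
    exact ⟨M, h1, h2, h3.trans (by
      unfold QA.W2
      omega)⟩

end Pool.Agent.Lib.MP_696deb_nt.QP
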